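import Pool.Agent.H6.TG.Psi

/-!
# Approximate eigenvectors
-/

set_option linter.unusedSectionVars false

open ContinuousLinearMap InnerProductSpace Topology Filter
open scoped ComplexConjugate Classical InnerProductSpace ENNReal lp

namespace Pool.Agent.H6.TG

lemma weak_of_coord {I : Type} {ξ : ℕ → L2 I} {C : ℝ} (hC : ∀ n, ‖ξ n‖ ≤ C)
    (h : ∀ i, Tendsto (fun n => ξ n i) atTop (𝓝 0)) (η : L2 I) :
    Tendsto (fun n => ⟪η, ξ n⟫_ℂ) atTop (𝓝 0) := by
  have hC0 : 0 ≤ C := (norm_nonneg _).trans (hC 0)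
  rw [Metric.tendsto_atTop]
  intro ε hε
  have h1 := lp.hasSum_single (p := 2) (by norm_num) η
  have h2 : ∀ᶠ s in atTop, dist (∑ i ∈ s, lp.single 2 i (η i)) η < ε / 2 / (C + 1) :=
    Metric.tendsto_nhds.1 h1 _ (by positivity)
  obtain ⟨s, hs⟩ := h2.exists
  set η' : L2 I := ∑ i ∈ s, lp.single 2 i (η i) with hη'
  have h3 : Tendsto (fun n => ⟪η', ξ n⟫_ℂ) atTop (𝓝 0) := by
    have : ∀ n, ⟪η', ξ n⟫_ℂ = ∑ i ∈ s, ⟪η i, ξ n i⟫_ℂ := by
      intro n
      rw [hη', sum_inner]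
      apply Finset.sum_congr rfl
      intro i _
      rw [lp.inner_single_left]
    simp only [this]
    have h4 : Tendsto (fun n => ∑ i ∈ s, ⟪η i, ξ n i⟫_ℂ) atTop (𝓝 (∑ i ∈ s, ⟪η i, (0 : ℂ)⟫_ℂ)) := by
      apply tendsto_finsetSum
      intro i _
      exact tendsto_const_nhds.inner (h i)
    simpa using h4
  obtain ⟨N, hN⟩ := Metric.tendsto_atTop.1 h3 (ε / 2) (by positivity)
  refine ⟨N, fun n hn => ?_⟩
  have h5 := hN n hn
  rw [dist_zero_right] at h5 ⊢
  have h6 : ⟪η, ξ n⟫_ℂ = ⟪η - η', ξ n⟫_ℂ + ⟪η', ξ n⟫_ℂ := by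
    rw [← inner_add_left, sub_add_cancel]
  have h7 : ‖⟪η - η', ξ n⟫_ℂ‖ ≤ ε / 2 := by
    calc ‖⟪η - η', ξ n⟫_ℂ‖ ≤ ‖η - η'‖ * ‖ξ n‖ := norm_inner_le_norm _ _
      _ ≤ (ε / 2 / (C + 1)) * (C + 1) := by
        rw [dist_comm, dist_eq_norm] at hs
        gcongr
        linarith [hC n]
      _ = ε / 2 := by field_simp
  rw [h6]
  calc _ ≤ ‖⟪η - η', ξ n⟫_ℂ‖ + ‖⟪η', ξ n⟫_ℂ‖ := norm_add_le _ _
    _ < ε := by linarith

lemma norm_psi_le (f : C(Y0, ℂ)) : ‖psi f‖ ≤ ‖f‖ := NonUnitalStarAlgHom.norm_apply_le psi f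

lemma psi_approx {y : Y0} {ζ : ℕ → HJ} {C : ℝ} (hC : ∀ n, ‖ζ n‖ ≤ C)
    (h : Tendsto (fun n => Ww (ζ n) - (y : ℂ) • ζ n) atTop (𝓝 0)) (f : C(Y0, ℂ)) :
    Tendsto (fun n => psi f (ζ n) - f y • ζ n) atTop (𝓝 0) := by
  have hC0 : 0 ≤ C := (norm_nonneg _).trans (hC 0)
  let I : Ideal C(Y0, ℂ) :=
    { carrier := {f | Tendsto (fun n => psi f (ζ n)) atTop (𝓝 0)}
      add_mem' := by
        intro a b ha hb
        simp only [Set.mem_ofPred_eq] at ha hb ⊢
        simpa using ha.add hb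
      zero_mem' := by
        simp
      smul_mem' := by
        intro c a ha
        simp only [Set.mem_ofPred_eq] at ha ⊢
        have := ((psi c).continuous.tendsto 0).comp ha
        rw [map_zero] at this
        refine this.congr (fun n => ?_)
        simp [smul_eq_mul, map_mul] }
  have hI : IsClosed (I : Set C(Y0, ℂ)) := by
    rw [← closure_subset_iff_isClosed]
    intro g hg
    change Tendsto (fun n => psi g (ζ n)) atTop (𝓝 0)
    rw [Metric.tendsto_atTop]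
    intro ε hε
    obtain ⟨g', hg', hd⟩ := Metric.mem_closure_iff.1 hg (ε / 2 / (C + 1)) (by positivity)
    obtain ⟨N, hN⟩ := Metric.tendsto_atTop.1 hg' (ε / 2) (by positivity)
    refine ⟨N, fun n hn => ?_⟩
    have h3 := hN n hn
    rw [dist_zero_right] at h3 ⊢
    have h4 : psi g (ζ n) = psi (g - g') (ζ n) + psi g' (ζ n) := by simp
    rw [h4]
    have h5 : ‖psi (g - g') (ζ n)‖ ≤ ε / 2 := by
      calc ‖psi (g - g') (ζ n)‖ ≤ ‖psi (g - g')‖ * ‖ζ n‖ := le_opNorm _ _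
        _ ≤ (ε / 2 / (C + 1)) * (C + 1) := by
          rw [dist_eq_norm] at hd
          gcongr
          · exact (norm_psi_le _).trans hd.le
          · linarith [hC n]
        _ = ε / 2 := by field_simp
    calc _ ≤ ‖psi (g - g') (ζ n)‖ + ‖psi g' (ζ n)‖ := norm_add_le _ _
      _ < ε := by linarith
  have hq : coord - ContinuousMap.const Y0 (y : ℂ) ∈ I := by
    change Tendsto (fun n => psi (coord - ContinuousMap.const Y0 (y : ℂ)) (ζ n)) atTop (𝓝 0)
    refine h.congr (fun n => ?_)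
    rw [map_sub, psi_coord, psi_const, Algebra.algebraMap_eq_smul_one]
    simp
  have h2 : f - ContinuousMap.const Y0 (f y) ∈ ContinuousMap.idealOfSet ℂ (ContinuousMap.setOfIdeal I) := by
    rw [ContinuousMap.mem_idealOfSet]
    intro z hz
    have h3 := (ContinuousMap.notMem_setOfIdeal.1 hz) hq
    have h4 : (z : ℂ) - y = 0 := h3
    have h5 : z = y := Subtype.ext (sub_eq_zero.1 h4)
    subst h5
    simp
  rw [ContinuousMap.idealOfSet_ofIdeal_isClosed hI] at h2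
  have h3 : Tendsto (fun n => psi (f - ContinuousMap.const Y0 (f y)) (ζ n)) atTop (𝓝 0) := h2
  refine h3.congr (fun n => ?_)
  rw [map_sub, psi_const, Algebra.algebraMap_eq_smul_one]
  simp

lemma Vv_e (i : II) : Vv (e i) = e (emb i) := by
  ext j
  rcases emb_or j with ⟨k, rfl⟩ | ⟨n, hn, rfl, hj⟩
  · rw [Vv_emb, e_apply, e_apply]
    by_cases h : k = i
    · rw [if_pos h, if_pos (by rw [h])]
    · rw [if_neg h, if_neg (fun h' => h (emb_injective h'))]
  · rw [Vv_out _ _ hj, e_apply, if_neg]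
    rintro h
    exact hj ⟨i, h.symm⟩

/-- approximate eigenvectors -/
def HasApprox (y : ℂ) : Prop := ∃ ξ : ℕ → HI, (∀ n, ‖ξ n‖ = 1) ∧
  (∀ η, Tendsto (fun n => ⟪η, ξ n⟫_ℂ) atTop (𝓝 0)) ∧
  Tendsto (fun n => Ww (Vv (ξ n)) - y • Vv (ξ n)) atTop (𝓝 0)

lemma hasApprox_pts (p : ℕ × ℕ) : HasApprox (pts p) := by
  refine ⟨fun n => e (Sum.inr (p, n)), fun n => norm_e _, ?_, ?_⟩
  · apply weak_of_coord (C := 1)
    · intro n
      rw [norm_e]
    · intro i
      apply tendsto_const_nhds.congr'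
      rcases i with m | ⟨q, m⟩
      · filter_upwards with n
        rw [e_apply, if_neg]
        simp
      · filter_upwards [eventually_gt_atTop m] with n hn
        rw [e_apply, if_neg]
        intro h
        have := Sum.inr.inj h
        simp only [Prod.mk.injEq] at this
        omega
  · have : ∀ n, Ww (Vv (e (Sum.inr (p, n)))) - pts p • Vv (e (Sum.inr (p, n))) = 0 := by
      intro n
      rw [Vv_e, emb_inr, Ww_e_inr, sub_self]
    simp only [this]
    exact tendsto_const_nhds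

/-- unnormalized eigenvectors -/
noncomputable def Sv (y : ℂ) (n : ℕ) : HI := ∑ j ∈ Finset.range (n + 1), (conj y) ^ j • e (Sum.inl j)

lemma Sv_inl (y : ℂ) (n m : ℕ) (hm : m < n + 1) : Sv y n (Sum.inl m) = (conj y) ^ m := by
  rw [Sv, ← inner_e_left, inner_sum, Finset.sum_eq_single m]
  · rw [inner_smul_right, inner_e_left, e_apply, if_pos rfl, mul_one]
  · intro j _ hj
    rw [inner_smul_right, inner_e_left, e_apply, if_neg, mul_zero]
    intro h
    exact hj (Sum.inl.inj h).symm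
  · intro h
    exact absurd (Finset.mem_range.2 hm) h

lemma norm_Sv_coord_le (y : ℂ) (hy : ‖y‖ = 1) (n : ℕ) (i : II) : ‖Sv y n i‖ ≤ 1 := by
  rcases i with m | x
  · by_cases hm : m < n + 1
    · rw [Sv_inl y n m hm, norm_pow, Complex.norm_conj, hy, one_pow]
    · rw [Sv, ← inner_e_left, inner_sum, Finset.sum_eq_zero]
      · simp
      · intro j hj
        rw [Finset.mem_range] at hj
        rw [inner_smul_right, inner_e_left, e_apply, if_neg, mul_zero]
        intro h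
        have := Sum.inl.inj h
        omega
  · rw [Sv, ← inner_e_left, inner_sum, Finset.sum_eq_zero]
    · simp
    · intro j hj
      rw [inner_smul_right, inner_e_left, e_apply, if_neg, mul_zero]
      simp

lemma norm_Sv (y : ℂ) (hy : ‖y‖ = 1) (n : ℕ) : ‖Sv y n‖ = Real.sqrt (n + 1) := by
  have h1 : ⟪Sv y n, Sv y n⟫_ℂ = ((n : ℂ) + 1) := by
    conv_lhs => rw [Sv]
    rw [sum_inner]
    have : ∀ j ∈ Finset.range (n + 1), ⟪(conj y) ^ j • e (Sum.inl j), Sv y n⟫_ℂ = 1 := by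
      intro j hj
      rw [inner_smul_left, inner_e_left, Sv_inl y n j (Finset.mem_range.1 hj), map_pow,
        Complex.conj_conj, ← mul_pow, Complex.mul_conj', hy]
      simp
    have h2 := Finset.sum_congr rfl this
    rw [Sv] at h2
    rw [h2]
    simp
  rw [inner_self_eq_norm_sq_to_K] at h1
  have h2 : ‖Sv y n‖ ^ 2 = n + 1 := by
    have h3 : ((‖Sv y n‖ ^ 2 : ℝ) : ℂ) = ((n + 1 : ℝ) : ℂ) := by push_cast; exact h1
    exact Complex.ofReal_injective h3
  rw [← h2, Real.sqrt_sq (norm_nonneg _)]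

lemma Ww_Vv_Sv (y : ℂ) (hy : ‖y‖ = 1) (n : ℕ) : Ww (Vv (Sv y n)) - y • Vv (Sv y n) =
    (y * (conj y) ^ (n + 1)) • e (Sum.inl ((n : ℤ) + 1)) - y • e (Sum.inl 0) := by
  have h0 : y * conj y = 1 := by
    rw [Complex.mul_conj', hy]; simp
  have h1 : ∀ j : ℕ, Ww (Vv ((conj y) ^ j • e (Sum.inl j))) - y • Vv ((conj y) ^ j • e (Sum.inl j)) =
      (y * (conj y) ^ (j + 1)) • e (Sum.inl (((j + 1 : ℕ) : ℤ))) -
      (y * (conj y) ^ j) • e (Sum.inl ((j : ℕ) : ℤ)) := by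
    intro j
    rw [map_smul, map_smul, Vv_e, emb_inl, Ww_e_inl, smul_smul]
    congr 2
    · rw [pow_succ']
      calc (conj y) ^ j = (y * conj y) * (conj y) ^ j := by rw [h0, one_mul]
        _ = _ := by ring
  rw [Sv, map_sum, map_sum, Finset.smul_sum, ← Finset.sum_sub_distrib, Finset.sum_congr rfl (fun j _ => h1 j),
    Finset.sum_range_sub (fun j : ℕ => (y * (conj y) ^ j) • e (I := JJ) (Sum.inl ((j : ℕ) : ℤ)))]
  simp

lemma hasApprox_circle (y : ℂ) (hy : ‖y‖ = 1) : HasApprox y := by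
  have hpos : ∀ n : ℕ, 0 < Real.sqrt (n + 1) := fun n => Real.sqrt_pos.2 (by positivity)
  have ht : Tendsto (fun n : ℕ => (Real.sqrt (n + 1))⁻¹) atTop (𝓝 0) := by
    apply Tendsto.inv_tendsto_atTop
    apply Real.tendsto_sqrt_atTop.comp
    exact tendsto_atTop_add_const_right _ _ tendsto_natCast_atTop_atTop
  refine ⟨fun n => (((Real.sqrt (n + 1))⁻¹ : ℝ) : ℂ) • Sv y n, fun n => ?_, ?_, ?_⟩
  · rw [norm_smul, norm_Sv y hy, Complex.norm_real, Real.norm_of_nonneg (inv_nonneg.2 (hpos n).le),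
      inv_mul_cancel₀ (hpos n).ne']
  · apply weak_of_coord (C := 1)
    · intro n
      rw [norm_smul, norm_Sv y hy, Complex.norm_real,
        Real.norm_of_nonneg (inv_nonneg.2 (hpos n).le), inv_mul_cancel₀ (hpos n).ne']
    · intro i
      rw [tendsto_zero_iff_norm_tendsto_zero]
      refine squeeze_zero (fun n => norm_nonneg _) (fun n => ?_) ht
      rw [lp.coeFn_smul, Pi.smul_apply, norm_smul, Complex.norm_real,
        Real.norm_of_nonneg (inv_nonneg.2 (hpos n).le)]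
      calc _ ≤ (Real.sqrt (n + 1))⁻¹ * 1 := by
            gcongr
            exact norm_Sv_coord_le y hy n i
        _ = _ := mul_one _
  · rw [tendsto_zero_iff_norm_tendsto_zero]
    have ht2 : Tendsto (fun n : ℕ => (Real.sqrt (n + 1))⁻¹ * 2) atTop (𝓝 0) := by
      simpa using ht.mul_const 2
    refine squeeze_zero (fun n => norm_nonneg _) (fun n => ?_) ht2
    rw [map_smul, map_smul, smul_comm, ← smul_sub, Ww_Vv_Sv y hy, norm_smul, Complex.norm_real,
      Real.norm_of_nonneg (inv_nonneg.2 (hpos n).le)]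
    gcongr
    calc _ ≤ ‖(y * (conj y) ^ (n + 1)) • e (I := JJ) (Sum.inl ((n : ℤ) + 1))‖ +
          ‖y • e (I := JJ) (Sum.inl 0)‖ := norm_sub_le _ _
      _ = 2 := by
        rw [norm_smul, norm_smul, norm_e, norm_e, norm_mul, norm_pow, Complex.norm_conj, hy]
        norm_num

lemma hasApprox (y : Y0) : HasApprox y := by
  obtain ⟨y, hy | ⟨p, rfl⟩⟩ := y
  · exact hasApprox_circle y hy
  · exact hasApprox_pts p

lemma eq_zero_of_Lo_mem {f : C(Y0, ℂ)} (hf : Lo f ∈ Kc HI HI) : f = 0 := by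
  ext y
  obtain ⟨ξ, h1, h2, h3⟩ := hasApprox y
  have h4 := tendsto_of_mem_Kc hf (C := 1) (fun n => (h1 n).le) h2
  have h5 : ∀ n, ‖Vv (ξ n)‖ ≤ ‖Vv‖ := by
    intro n
    have := le_opNorm Vv (ξ n)
    rwa [h1 n, mul_one] at this
  have h6 := psi_approx h5 h3 f
  have h7 := (Rr.continuous.tendsto 0).comp h6
  rw [map_zero] at h7
  have h8 := h4.sub h7
  rw [sub_zero] at h8
  have h9 : ∀ n, Lo f (ξ n) - (Rr ∘ fun n => psi f (Vv (ξ n)) - f y • Vv (ξ n)) n = f y • ξ n := by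
    intro n
    simp only [Function.comp, map_sub, Lo_apply, map_smul, Rr_Vv_apply]
    abel
  have h10 : Tendsto (fun n => f y • ξ n) atTop (𝓝 0) := h8.congr h9
  have h11 := h10.norm
  simp only [norm_smul, h1, mul_one, norm_zero] at h11
  have h12 := tendsto_nhds_unique h11 tendsto_const_nhds
  exact norm_eq_zero.1 h12.symm

lemma isUnit_Lo_star_mul {g : C(Y0, ℂ)} {c : ℝ} (hc : 0 < c) (hg : ∀ y, c ≤ ‖g y‖) :
    IsUnit (Lo (star g * g)) := by
  let g' : C(Y0, ℂ) := ⟨fun y => (g y)⁻¹, g.continuous.inv₀ (fun y h => by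
    have := hg y
    rw [h, norm_zero] at this
    linarith)⟩
  have hg' : g' * g = 1 := by
    ext y
    change (g y)⁻¹ * g y = 1
    apply inv_mul_cancel₀
    intro h
    have := hg y
    rw [h, norm_zero] at this
    linarith
  have hn : ‖g'‖ ≤ c⁻¹ := by
    rw [ContinuousMap.norm_le _ (by positivity)]
    intro y
    change ‖(g y)⁻¹‖ ≤ _
    rw [norm_inv]
    exact inv_anti₀ hc (hg y)
  have hb : ∀ ζ : HJ, c * ‖ζ‖ ≤ ‖psi g ζ‖ := by
    intro ζ
    have h1 : ζ = psi g' (psi g ζ) := by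
      rw [← mul_apply_eq_comp, ← map_mul, hg', map_one]; rfl
    have h2 : ‖ζ‖ ≤ c⁻¹ * ‖psi g ζ‖ := by
      calc ‖ζ‖ = ‖psi g' (psi g ζ)‖ := by rw [← h1]
        _ ≤ ‖psi g'‖ * ‖psi g ζ‖ := le_opNorm _ _
        _ ≤ c⁻¹ * ‖psi g ζ‖ := by
          gcongr
          exact (norm_psi_le _).trans hn
    rwa [inv_mul_eq_div, le_div_iff₀ hc, mul_comm] at h2
  have hV : ∀ ξ : HI, ‖Vv ξ‖ ^ 2 = ‖ξ‖ ^ 2 := by
    intro ξ
    have h1 : ⟪Vv ξ, Vv ξ⟫_ℂ = ⟪ξ, ξ⟫_ℂ := by
      rw [← adjoint_inner_left, adjoint_Vv, Rr_Vv_apply]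
    rw [inner_self_eq_norm_sq_to_K, inner_self_eq_norm_sq_to_K] at h1
    exact_mod_cast h1
  apply ContinuousLinearMap.isUnit_of_forall_le_norm_inner_map (c := Real.toNNReal (c ^ 2)) _ (by
    rw [Real.toNNReal_pos]; positivity)
  intro ξ
  have h1 : ⟪Lo (star g * g) ξ, ξ⟫_ℂ = ⟪psi g (Vv ξ), psi g (Vv ξ)⟫_ℂ := by
    rw [Lo_apply, ← adjoint_Vv, adjoint_inner_left, map_mul, map_star, star_eq_adjoint,
      mul_apply_eq_comp, adjoint_inner_left]
  rw [h1, inner_self_eq_norm_sq_to_K]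
  have h2 := hb (Vv ξ)
  have h3 : c ^ 2 * ‖ξ‖ ^ 2 ≤ ‖psi g (Vv ξ)‖ ^ 2 := by
    rw [← hV ξ, ← mul_pow]
    gcongr
  rw [norm_pow]
  rw [Real.coe_toNNReal _ (by positivity)]
  simp only [RCLike.norm_ofReal, abs_norm]
  linarith

end Pool.Agent.H6.TG
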