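import Pool.Agent.H6.TG.Space

/-!
# Closed equivalence relations on `Y` with continuous classes are trivial on the circle
-/

set_option linter.unusedSectionVars false

open Filter Topology Complex Set

namespace Pool.Agent.H6.TG

/-- A closed equivalence relation with lower semicontinuous classes such that classes with an
isolated point are finite. -/
structure GoodRel (r : Y0 → Y0 → Prop) : Prop where
  refl : ∀ y, r y y
  symm : ∀ y z, r y z → r z y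
  trans : ∀ x y z, r x y → r y z → r x z
  closed : IsClosed {p : Y0 × Y0 | r p.1 p.2}
  lsc : ∀ y z, r y z → ∀ O : Set Y0, IsOpen O → z ∈ O → ∀ᶠ y' in 𝓝 y, ∃ z' ∈ O, r y' z'
  fin : ∀ y, (∃ O : Set Y0, IsOpen O ∧ y ∈ O ∧ ∀ z ∈ O, r y z → z = y) → {z | r y z}.Finite

namespace GoodRel

variable {r : Y0 → Y0 → Prop} (h : GoodRel r)
include h

lemma fin_of_norm {y : Y0} (hy : 1 < ‖(y : ℂ)‖) : {z | r y z}.Finite :=
  h.fin y ⟨{y}, isOpen_singleton_of_norm hy, mem_singleton _, fun z hz _ => hz⟩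

lemma infinite_nhds {z : Y0} (hz : ‖(z : ℂ)‖ = 1) {O : Set Y0} (hO : O ∈ 𝓝 z) : O.Infinite := by
  obtain ⟨θ, hθ, rfl⟩ := exists_cp hz
  have h1 : cp ⁻¹' O ∈ 𝓝 θ := continuous_cp.continuousAt hO
  obtain ⟨ε, hε, hε'⟩ := Metric.mem_nhds_iff.1 h1
  intro hfin
  -- the interval [θ, θ + min ε (2π-θ)) injects
  set δ := min ε (2 * Real.pi - θ) with hδ
  have hδ0 : 0 < δ := lt_min hε (by linarith [hθ.2])
  have hinj : InjOn cp (Ico θ (θ + δ)) := by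
    intro a ha b hb hab
    have hδ2 : δ ≤ 2 * Real.pi - θ := min_le_right _ _
    exact cp_inj ⟨hθ.1.trans ha.1, by linarith [ha.2]⟩ ⟨hθ.1.trans hb.1, by linarith [hb.2]⟩ hab
  have hmaps : MapsTo cp (Ico θ (θ + δ)) O := by
    intro a ha
    apply hε'
    rw [Metric.mem_ball, Real.dist_eq, abs_of_nonneg (by linarith [ha.1])]
    have : δ ≤ ε := min_le_left _ _
    linarith [ha.2]
  have := hfin.of_injOn hmaps hinj
  exact (Ico_infinite (by linarith)) this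

lemma norm_of_norm {y z : Y0} (hy : 1 < ‖(y : ℂ)‖) (hyz : r y z) : 1 < ‖(z : ℂ)‖ := by
  rcases norm_eq_one_or (y := z) with hz | hz
  · exfalso
    have h1 := h.lsc z y (h.symm _ _ hyz) {y} (isOpen_singleton_of_norm hy) (mem_singleton _)
    have h2 : {z' | r y z'} ∈ 𝓝 z := by
      filter_upwards [h1] with z' hz'
      obtain ⟨w, hw, hw'⟩ := hz'
      rw [mem_singleton_iff] at hw
      subst hw
      exact h.symm _ _ hw'
    exact h.infinite_nhds hz h2 (h.fin_of_norm hy)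
  · exact hz

lemma norm_one {y z : Y0} (hy : ‖(y : ℂ)‖ = 1) (hyz : r y z) : ‖(z : ℂ)‖ = 1 := by
  rcases norm_eq_one_or (y := z) with hz | hz
  · exact hz
  · have := h.norm_of_norm hz (h.symm _ _ hyz)
    linarith

lemma norm_Q {p : Y0} (hp : p ∈ Qset) : ‖(p : ℂ)‖ = 1 := by
  rcases hp with rfl | ⟨k, rfl⟩
  · exact norm_cp _
  · exact norm_cp _

lemma mem_Q {p z : Y0} (hp : p ∈ Qset) (hpz : r p z) : z ∈ Qset := by
  by_contra hz
  have hz1 : ‖(z : ℂ)‖ = 1 := h.norm_one (h.norm_Q hp) hpz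
  obtain ⟨O, hO, hzO, hO1⟩ := exists_nhds_norm hz1 hz
  have h1 := h.lsc p z hpz O hO hzO
  obtain ⟨s, hs⟩ := exists_ip_mem hp h1
  obtain ⟨z', hz', hr⟩ := hs
  have := h.norm_of_norm (y := ip s) (one_lt_norm_pts s) hr
  have := hO1 z' hz'
  linarith

lemma notMem_Q {y z : Y0} (hy : y ∉ Qset) (hyz : r y z) : z ∉ Qset :=
  fun hz => hy (h.mem_Q hz (h.symm _ _ hyz))

lemma qp_injective : Function.Injective qp := by
  intro a b hab
  have hpi := Real.pi_gt_three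
  have h1 : ∀ k : ℕ, (1 / ((k : ℝ) + 1)) ∈ Ico (0 : ℝ) (2 * Real.pi) := by
    intro k
    refine ⟨by positivity, ?_⟩
    have : 1 / ((k : ℝ) + 1) ≤ 1 := by
      rw [div_le_one (by positivity)]
      have : (0 : ℝ) ≤ k := Nat.cast_nonneg k
      linarith
    linarith
  have h2 := cp_inj (h1 a) (h1 b) hab
  have h3 : (a : ℝ) + 1 = b + 1 := by
    field_simp at h2
    linarith
  have : (a : ℝ) = b := by linarith
  exact_mod_cast this

lemma qp_ne (k : ℕ) : qp k ≠ cp 0 := by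
  intro he
  have hpi := Real.pi_gt_three
  have h2 := cp_inj (θ := 1 / ((k : ℝ) + 1)) (θ' := 0) ⟨by positivity, by
    have : 1 / ((k : ℝ) + 1) ≤ 1 := by
      rw [div_le_one (by positivity)]
      have : (0 : ℝ) ≤ k := Nat.cast_nonneg k
      linarith
    linarith⟩ ⟨le_refl _, by positivity⟩ he
  have : 0 < 1 / ((k : ℝ) + 1) := by positivity
  linarith

/-- the class of `1` is trivial -/
lemma class_zero {z : Y0} (hz : r (cp 0) z) : z = cp 0 := by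
  by_contra hne
  have h0 : cp 0 ∈ Qset := Or.inl rfl
  have hzQ := h.mem_Q h0 hz
  rcases hzQ with hz0 | ⟨m, rfl⟩
  · exact hne hz0
  -- separate `qp m` from the rest of `Q`
  obtain ⟨V', V, hV', hV, hmV', h0V, hdis⟩ := t2_separation (h.qp_ne m)
  obtain ⟨K, hK⟩ := eventually_atTop.1 (tendsto_qp.eventually (hV.mem_nhds h0V))
  set S : Set Y0 := qp '' {k | k < K ∧ k ≠ m} with hS
  have hSf : S.Finite := ((finite_lt_nat K).subset (fun k hk => hk.1)).image _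
  set O : Set Y0 := V' \ S with hO
  have hOo : IsOpen O := hV'.sdiff hSf.isClosed
  have hmO : qp m ∈ O := by
    refine ⟨hmV', ?_⟩
    rintro ⟨k, hk, hkm⟩
    exact hk.2 (h.qp_injective hkm)
  have hOQ : ∀ w ∈ O, w ∈ Qset → w = qp m := by
    rintro w ⟨hwV', hwS⟩ (rfl | ⟨k, rfl⟩)
    · exact absurd h0V (fun hh => (Set.disjoint_left.1 hdis hwV') hh)
    · by_cases hkm : k = m
      · rw [hkm]
      · exfalso
        by_cases hkK : k < K
        · exact hwS ⟨k, ⟨hkK, hkm⟩, rfl⟩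
        · exact Set.disjoint_left.1 hdis hwV' (hK k (not_lt.1 hkK))
  -- the class of `qp m` is finite
  have hmQ : qp m ∈ Qset := Or.inr ⟨m, rfl⟩
  have hfin : {z | r (qp m) z}.Finite := by
    apply h.fin
    refine ⟨O, hOo, hmO, ?_⟩
    intro w hw hr
    exact hOQ w hw (h.mem_Q hmQ hr)
  -- but it contains almost all `qp k`
  have h1 := tendsto_qp.eventually (h.lsc _ _ hz O hOo hmO)
  obtain ⟨K', hK'⟩ := eventually_atTop.1 h1
  have hinf : (Ici K').Infinite := Ici_infinite K'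
  apply hinf
  apply hfin.of_injOn (f := qp) _ (h.qp_injective.injOn)
  intro k hk
  obtain ⟨z', hz'O, hr⟩ := hK' k hk
  have hkQ : qp k ∈ Qset := Or.inr ⟨k, rfl⟩
  have := hOQ z' hz'O (h.mem_Q hkQ hr)
  subst this
  exact h.symm _ _ hr

lemma not_rel_zero {θ : ℝ} (hθ : θ ∈ Ioo (0 : ℝ) (2 * Real.pi)) : ¬ r (cp 0) (cp θ) := by
  intro hr
  have h1 := h.class_zero hr
  have h2 := cp_inj ⟨hθ.1.le, hθ.2⟩ ⟨le_refl _, by positivity⟩ h1
  exact hθ.1.ne' h2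

/-- the angles of the class of `e^{iθ}` -/
lemma exists_angle {θ : ℝ} (hθ : θ ∈ Ioo (0 : ℝ) (2 * Real.pi)) {z : Y0} (hz : r (cp θ) z) :
    ∃ θ' ∈ Ioo (0 : ℝ) (2 * Real.pi), cp θ' = z := by
  obtain ⟨θ', hθ', rfl⟩ := exists_cp (h.norm_one (norm_cp θ) hz)
  refine ⟨θ', ⟨lt_of_le_of_ne hθ'.1 ?_, hθ'.2⟩, rfl⟩
  rintro rfl
  exact h.not_rel_zero hθ (h.symm _ _ hz)

lemma closed_pair : IsClosed {p : ℝ × ℝ | r (cp p.1) (cp p.2)} := by
  have : {p : ℝ × ℝ | r (cp p.1) (cp p.2)} =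
    (fun p : ℝ × ℝ => (cp p.1, cp p.2)) ⁻¹' {p : Y0 × Y0 | r p.1 p.2} := rfl
  rw [this]
  apply h.closed.preimage
  exact (continuous_cp.comp continuous_fst).prodMk (continuous_cp.comp continuous_snd)

/-- the set of angles related to some angle in a compact interval is closed -/
lemma closed_proj (a b : ℝ) : IsClosed {θ : ℝ | ∃ θ' ∈ Icc a b, r (cp θ) (cp θ')} := by
  have h1 : IsClosed {p : ℝ × Icc a b | r (cp p.1) (cp p.2)} := by
    have : {p : ℝ × Icc a b | r (cp p.1) (cp p.2)} =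
      (fun p : ℝ × Icc a b => (p.1, (p.2 : ℝ))) ⁻¹' {p : ℝ × ℝ | r (cp p.1) (cp p.2)} := rfl
    rw [this]
    apply h.closed_pair.preimage
    fun_prop
  have h2 := isClosedMap_fst_of_compactSpace (X := ℝ) (Y := Icc a b) _ h1
  have h3 : Prod.fst '' {p : ℝ × Icc a b | r (cp p.1) (cp p.2)} =
      {θ : ℝ | ∃ θ' ∈ Icc a b, r (cp θ) (cp θ')} := by
    ext θ
    constructor
    · rintro ⟨⟨θ1, θ2⟩, hr, rfl⟩
      exact ⟨θ2, θ2.2, hr⟩
    · rintro ⟨θ', hθ', hr⟩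
      exact ⟨(θ, ⟨θ', hθ'⟩), hr, rfl⟩
  rwa [h3] at h2

end GoodRel

/-- the smallest angle in the class -/
noncomputable def gmin (r : Y0 → Y0 → Prop) (θ : ℝ) : ℝ :=
  sInf {θ' | θ' ∈ Ioo (0 : ℝ) (2 * Real.pi) ∧ r (cp θ) (cp θ')}

namespace GoodRel

variable {r : Y0 → Y0 → Prop} (h : GoodRel r)
include h

lemma gmin_mem {θ : ℝ} (hθ : θ ∈ Ioo (0 : ℝ) (2 * Real.pi)) :
    gmin r θ ∈ {θ' | θ' ∈ Ioo (0 : ℝ) (2 * Real.pi) ∧ r (cp θ) (cp θ')} := by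
  have h1 : {θ' | θ' ∈ Ioo (0 : ℝ) (2 * Real.pi) ∧ r (cp θ) (cp θ')} =
      Icc 0 (2 * Real.pi) ∩ {θ' | r (cp θ) (cp θ')} := by
    ext θ'
    constructor
    · rintro ⟨h1, h2⟩
      exact ⟨Ioo_subset_Icc_self h1, h2⟩
    · rintro ⟨h1, h2⟩
      refine ⟨⟨lt_of_le_of_ne h1.1 ?_, lt_of_le_of_ne h1.2 ?_⟩, h2⟩
      · rintro rfl
        exact h.not_rel_zero hθ (h.symm _ _ h2)
      · rintro rfl
        rw [Set.mem_ofPred_eq, cp_two_pi] at h2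
        exact h.not_rel_zero hθ (h.symm _ _ h2)
  have hcl : IsClosed {θ' | r (cp θ) (cp θ')} := by
    have : {θ' | r (cp θ) (cp θ')} = (fun θ' : ℝ => (θ, θ')) ⁻¹' {p : ℝ × ℝ | r (cp p.1) (cp p.2)} := rfl
    rw [this]
    exact h.closed_pair.preimage (by fun_prop)
  have hne : {θ' | θ' ∈ Ioo (0 : ℝ) (2 * Real.pi) ∧ r (cp θ) (cp θ')}.Nonempty :=
    ⟨θ, hθ, h.refl _⟩
  have hc : IsCompact {θ' | θ' ∈ Ioo (0 : ℝ) (2 * Real.pi) ∧ r (cp θ) (cp θ')} := by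
    rw [h1]
    exact isCompact_Icc.inter_right hcl
  exact hc.sInf_mem hne

lemma gmin_le {θ θ' : ℝ} (hθ' : θ' ∈ Ioo (0 : ℝ) (2 * Real.pi)) (hr : r (cp θ) (cp θ')) :
    gmin r θ ≤ θ' := by
  have hb : BddBelow {θ' | θ' ∈ Ioo (0 : ℝ) (2 * Real.pi) ∧ r (cp θ) (cp θ')} :=
    ⟨0, by rintro x ⟨hx, -⟩; exact hx.1.le⟩
  exact csInf_le hb ⟨hθ', hr⟩

lemma gmin_lt_eventually {θ₀ a : ℝ} (hθ₀ : θ₀ ∈ Ioo (0 : ℝ) (2 * Real.pi))
    (ha : gmin r θ₀ < a) : ∀ᶠ θ in 𝓝 θ₀, gmin r θ < a := by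
  by_cases ha2 : 2 * Real.pi ≤ a
  · filter_upwards [isOpen_Ioo.mem_nhds hθ₀] with θ hθ
    exact lt_of_lt_of_le (h.gmin_mem hθ).1.2 ha2
  push Not at ha2
  obtain ⟨hg, hgr⟩ := h.gmin_mem hθ₀
  have hcl : IsClosed (cp '' Icc a (2 * Real.pi)) := (isCompact_Icc.image continuous_cp).isClosed
  have hnot : cp (gmin r θ₀) ∉ cp '' Icc a (2 * Real.pi) := by
    rintro ⟨b, hb, hbe⟩
    rcases hb.2.lt_or_eq with hb2 | hb2
    · have := cp_inj ⟨(hg.1.trans ha).le.trans hb.1, hb2⟩ ⟨hg.1.le, hg.2⟩ hbe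
      linarith [hb.1]
    · rw [hb2, cp_two_pi] at hbe
      have := cp_inj ⟨le_refl _, by positivity⟩ ⟨hg.1.le, hg.2⟩ hbe
      linarith [hg.1]
  have h1 := h.lsc _ _ hgr (cp '' Icc a (2 * Real.pi))ᶜ hcl.isOpen_compl hnot
  have h2 := (continuous_cp.tendsto θ₀).eventually h1
  filter_upwards [h2, isOpen_Ioo.mem_nhds hθ₀] with θ hθ hθI
  obtain ⟨z', hz', hr⟩ := hθ
  obtain ⟨θ', hθ', rfl⟩ := h.exists_angle hθI hr
  refine lt_of_le_of_lt (h.gmin_le hθ' hr) ?_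
  by_contra hlt
  exact hz' ⟨θ', ⟨not_lt.1 hlt, hθ'.2.le⟩, rfl⟩

lemma lt_gmin_eventually {θ₀ a : ℝ} (hθ₀ : θ₀ ∈ Ioo (0 : ℝ) (2 * Real.pi))
    (ha : a < gmin r θ₀) : ∀ᶠ θ in 𝓝 θ₀, a < gmin r θ := by
  have hcl := (h.closed_proj 0 a).isOpen_compl
  have hmem : θ₀ ∈ {θ : ℝ | ∃ θ' ∈ Icc 0 a, r (cp θ) (cp θ')}ᶜ := by
    rintro ⟨θ', hθ', hr⟩
    obtain ⟨hg, -⟩ := h.gmin_mem hθ₀
    rcases hθ'.1.lt_or_eq with h0 | h0
    · have := h.gmin_le ⟨h0, by linarith [hθ'.2, hg.2]⟩ hr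
      linarith [hθ'.2]
    · rw [← h0] at hr
      exact h.not_rel_zero hθ₀ (h.symm _ _ hr)
  filter_upwards [hcl.mem_nhds hmem, isOpen_Ioo.mem_nhds hθ₀] with θ hθ hθI
  by_contra hlt
  obtain ⟨hg, hgr⟩ := h.gmin_mem hθI
  exact hθ ⟨gmin r θ, ⟨hg.1.le, not_lt.1 hlt⟩, hgr⟩

lemma continuousOn_gmin : ContinuousOn (gmin r) (Ioo (0 : ℝ) (2 * Real.pi)) := by
  intro θ hθ
  apply ContinuousAt.continuousWithinAt
  rw [ContinuousAt, tendsto_order]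
  exact ⟨fun a ha => h.lt_gmin_eventually hθ ha, fun a ha => h.gmin_lt_eventually hθ ha⟩

lemma notMem_Q_of_angle {θ : ℝ} (hθ : θ ∈ Ioo (1 : ℝ) (2 * Real.pi)) : cp θ ∉ Qset := by
  have hpi := Real.pi_gt_three
  have hI : θ ∈ Ico (0 : ℝ) (2 * Real.pi) := ⟨by linarith [hθ.1], hθ.2⟩
  rintro (h0 | ⟨k, hk⟩)
  · have := cp_inj hI ⟨le_refl _, by positivity⟩ h0
    linarith [hθ.1]
  · have hk1 : 1 / ((k : ℝ) + 1) ≤ 1 := by
      rw [div_le_one (by positivity)]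
      have : (0 : ℝ) ≤ k := Nat.cast_nonneg k
      linarith
    have := cp_inj (θ := 1 / ((k : ℝ) + 1)) ⟨by positivity, by linarith⟩ hI hk
    linarith [hθ.1]

/-- `gmin` takes large values -/
lemma exists_le_gmin {a : ℝ} (ha : a ∈ Ioo (0 : ℝ) (2 * Real.pi)) :
    ∃ θ ∈ Ioo (0 : ℝ) (2 * Real.pi), a ≤ gmin r θ := by
  by_contra hcon
  push Not at hcon
  have hpi := Real.pi_gt_three
  have h2 : (2 : ℝ) ∈ Ioo (0 : ℝ) (2 * Real.pi) := ⟨by norm_num, by linarith⟩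
  have hg2 := (h.gmin_mem h2).1.1
  obtain ⟨m, hm⟩ := exists_nat_one_div_lt (lt_min hg2 (show 0 < 2 * Real.pi - a by linarith [ha.2]))
  set q : ℝ := 1 / ((m : ℝ) + 1) with hq
  have hq0 : 0 < q := by positivity
  have hq1 : q < gmin r 2 := hm.trans_le (min_le_left _ _)
  have hq2 : q < 2 * Real.pi - a := hm.trans_le (min_le_right _ _)
  have hqI : q ∈ Ioo (0 : ℝ) (2 * Real.pi) := ⟨hq0, by linarith [ha.1]⟩
  -- `gmin` stays above `q`
  have habove : ∀ θ ∈ Ico (2 : ℝ) (2 * Real.pi), q < gmin r θ := by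
    intro θ hθ
    by_contra hle
    push Not at hle
    have hcont : ContinuousOn (gmin r) (Icc 2 θ) :=
      h.continuousOn_gmin.mono (fun x hx => ⟨by linarith [hx.1], lt_of_le_of_lt hx.2 hθ.2⟩)
    obtain ⟨θ1, hθ1, he⟩ := intermediate_value_Icc' hθ.1 hcont ⟨hle, hq1.le⟩
    have hθ1I : θ1 ∈ Ioo (0 : ℝ) (2 * Real.pi) := ⟨by linarith [hθ1.1], lt_of_le_of_lt hθ1.2 hθ.2⟩
    have h3 := (h.gmin_mem hθ1I).2
    rw [he] at h3
    have h4 : cp θ1 ∉ Qset := h.notMem_Q_of_angle ⟨by linarith [hθ1.1], hθ1I.2⟩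
    exact h.notMem_Q h4 h3 (Or.inr ⟨m, rfl⟩)
  -- near the end there are no related angles in the middle
  have hcl := (h.closed_proj q (2 * Real.pi - q)).isOpen_compl
  have hmem : 2 * Real.pi ∈ {θ : ℝ | ∃ θ' ∈ Icc q (2 * Real.pi - q), r (cp θ) (cp θ')}ᶜ := by
    rintro ⟨θ', hθ', hr⟩
    rw [cp_two_pi] at hr
    exact h.not_rel_zero ⟨by linarith [hθ'.1], by linarith [hθ'.2]⟩ hr
  have hev := hcl.mem_nhds hmem
  have hev2 : ∀ᶠ θ in 𝓝[<] (2 * Real.pi), θ ∈ {θ : ℝ | ∃ θ' ∈ Icc q (2 * Real.pi - q), r (cp θ) (cp θ')}ᶜ :=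
    nhdsWithin_le_nhds hev
  have hev3 : ∀ᶠ θ in 𝓝[<] (2 * Real.pi), θ ∈ Ioo (2 : ℝ) (2 * Real.pi) :=
    Ioo_mem_nhdsLT (by linarith)
  obtain ⟨θ, hθ1, hθ2⟩ := (hev2.and hev3).exists
  have hθI : θ ∈ Ioo (0 : ℝ) (2 * Real.pi) := ⟨by linarith [hθ2.1], hθ2.2⟩
  apply hθ1
  refine ⟨gmin r θ, ⟨(habove θ ⟨hθ2.1.le, hθ2.2⟩).le, ?_⟩, (h.gmin_mem hθI).2⟩
  linarith [hcon θ hθI]

/-- **All classes on the circle are trivial.** -/
theorem eq_of_rel {y z : Y0} (hy : ‖(y : ℂ)‖ = 1) (hyz : r y z) : z = y := by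
  obtain ⟨a, ha, rfl⟩ := exists_cp hy
  rcases ha.1.lt_or_eq with ha0 | ha0
  swap
  · rw [← ha0] at hyz ⊢
    exact h.class_zero hyz
  have haI : a ∈ Ioo (0 : ℝ) (2 * Real.pi) := ⟨ha0, ha.2⟩
  -- every angle is the minimum of its class
  have key : ∀ b ∈ Ioo (0 : ℝ) (2 * Real.pi), gmin r b = b := by
    intro b hb
    obtain ⟨θ, hθ, hbθ⟩ := h.exists_le_gmin hb
    have h1 : gmin r b ≤ b := h.gmin_le hb (h.refl _)
    have h2 : b ∈ gmin r '' (uIcc b θ) := by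
      apply intermediate_value_uIcc
      · apply h.continuousOn_gmin.mono
        exact (convex_Ioo _ _).ordConnected.uIcc_subset hb hθ
      · rw [mem_uIcc]
        exact Or.inl ⟨h1, hbθ⟩
    obtain ⟨c, hc, hcb⟩ := h2
    have hcI : c ∈ Ioo (0 : ℝ) (2 * Real.pi) :=
      (convex_Ioo (0 : ℝ) (2 * Real.pi)).ordConnected.uIcc_subset hb hθ hc
    have h3 := (h.gmin_mem hcI).2
    rw [hcb] at h3
    -- b ~ c, so the classes agree
    apply le_antisymm h1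
    have h4 := h.gmin_mem hb
    have h5 := h.gmin_le h4.1 (h.trans _ _ _ h3 h4.2)
    linarith
  obtain ⟨b, hb, rfl⟩ := h.exists_angle haI hyz
  have h1 := h.gmin_le haI (h.symm _ _ hyz)
  have h2 := h.gmin_le hb hyz
  rw [key a haI] at h2
  rw [key b hb] at h1
  rw [le_antisymm h1 h2]

end GoodRel

end Pool.Agent.H6.TG
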