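import Pool.Agent.H6.TG.Quot
import Pool.Agent.H6.TG.Rel

/-!
# The expectation on the quotient `C(Y)` is the identity on the circle
-/

set_option linter.unusedSectionVars false

open ContinuousLinearMap InnerProductSpace Topology Filter
open scoped ComplexConjugate Classical InnerProductSpace

namespace Pool.Agent.H6.TG

lemma isClosed_Yset : IsClosed Yset := by
  have h1 : Yset = ⋂ n : ℕ, ({z : ℂ | 1 ≤ ‖z‖ ∧ ‖z‖ ≤ 1 + 1 / ((n : ℝ) + 1)} ∪
      (Subtype.val '' {y : Y0 | 1 + 1 / ((n : ℝ) + 1) < ‖(y : ℂ)‖})) := by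
    ext z
    rw [Set.mem_iInter]
    constructor
    · intro hz n
      by_cases h : 1 + 1 / ((n : ℝ) + 1) < ‖z‖
      · exact Or.inr ⟨⟨z, hz⟩, h, rfl⟩
      · left
        refine ⟨?_, not_lt.1 h⟩
        rcases norm_eq_one_or (y := ⟨z, hz⟩) with h1 | h1
        · exact h1.ge
        · exact h1.le
    · intro hz
      by_cases h : ∃ n : ℕ, z ∈ (Subtype.val '' {y : Y0 | 1 + 1 / ((n : ℝ) + 1) < ‖(y : ℂ)‖})
      · obtain ⟨n, y, -, rfl⟩ := h
        exact y.2
      · push Not at h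
        have h2 : ∀ n : ℕ, 1 ≤ ‖z‖ ∧ ‖z‖ ≤ 1 + 1 / ((n : ℝ) + 1) := fun n =>
          (hz n).resolve_right (h n)
        left
        apply le_antisymm _ (h2 0).1
        have h3 : Tendsto (fun n : ℕ => 1 + 1 / ((n : ℝ) + 1)) atTop (𝓝 (1 + 0)) :=
          tendsto_const_nhds.add tendsto_one_div_add_atTop_nhds_zero_nat
        rw [add_zero] at h3
        exact ge_of_tendsto' h3 (fun n => (h2 n).2)
  rw [h1]
  apply isClosed_iInter
  intro n
  apply IsClosed.union
  · exact (isClosed_le continuous_const continuous_norm).inter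
      (isClosed_le continuous_norm continuous_const)
  · exact ((finite_norm_gt (by positivity)).image _).isClosed

lemma isCompact_Yset : IsCompact Yset := by
  apply Metric.isCompact_of_isClosed_isBounded isClosed_Yset
  rw [isBounded_iff_forall_norm_le]
  refine ⟨2, ?_⟩
  rintro z (hz | ⟨p, rfl⟩)
  · rw [Set.mem_ofPred_eq] at hz
    rw [hz]; norm_num
  · rw [norm_pts]
    have : 1 / ((p.1 : ℝ) + p.2 + 1) ≤ 1 := by
      rw [div_le_one (by positivity)]
      have h1 : (0 : ℝ) ≤ p.1 := Nat.cast_nonneg _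
      have h2 : (0 : ℝ) ≤ p.2 := Nat.cast_nonneg _
      linarith
    linarith

instance : CompactSpace Y0 := isCompact_iff_compactSpace.1 isCompact_Yset

lemma half_le_re_pts (p : ℕ × ℕ) : 1 / 2 ≤ (pts p).re := by
  have h1 : (pts p).re = (1 + 1 / ((p.1 : ℝ) + p.2 + 1)) * Real.cos (1 / ((p.1 : ℝ) + 1)) := by
    rw [pts, Complex.re_ofReal_mul, Complex.exp_ofReal_mul_I_re]
  have h0 : (0 : ℝ) ≤ p.1 := Nat.cast_nonneg _
  have h2 : (1 / ((p.1 : ℝ) + 1)) ≤ 1 := by
    rw [div_le_one (by positivity)]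
    linarith
  have h3 : (0 : ℝ) ≤ 1 / ((p.1 : ℝ) + 1) := by positivity
  have h4 : 1 / 2 ≤ Real.cos (1 / ((p.1 : ℝ) + 1)) := by
    have h5 := Real.one_sub_sq_div_two_le_cos (x := 1 / ((p.1 : ℝ) + 1))
    nlinarith
  have h5 : (1 : ℝ) ≤ 1 + 1 / ((p.1 : ℝ) + p.2 + 1) := by
    have : (0 : ℝ) ≤ 1 / ((p.1 : ℝ) + p.2 + 1) := by positivity
    linarith
  rw [h1]
  nlinarith

/-- the coordinate function -/
def coord : C(Y0, ℂ) := ⟨Subtype.val, continuous_subtype_val⟩

variable {A : Type*} [CStarAlgebra A] {X : Type*} [TopologicalSpace X]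
    [CompactSpace X] [T2Space X] {H : Type*} [NormedAddCommGroup H]
    [InnerProductSpace ℂ H] [CompleteSpace H]

section general

variable {Y : Type*} [TopologicalSpace Y] [CompactSpace Y]
    [T2Space Y] (P : ExtData A H Y) (D : DiagData A X)

lemma exists_bump {y : Y} {O : Set Y} (hO : IsOpen O) (hy : y ∈ O) :
    ∃ f : C(Y, ℝ), (∀ z, 0 ≤ f z) ∧ (∀ z, f z ≤ 1) ∧ f y = 1 ∧ ∀ z, z ∉ O → f z = 0 := by
  obtain ⟨h, h0, h1, h2⟩ := exists_continuous_zero_one_of_isClosed hO.isClosed_compl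
    (isClosed_singleton (x := y)) (Set.disjoint_singleton_right.2 (fun hh => hh hy))
  exact ⟨h, fun z => (h2 z).1, fun z => (h2 z).2, h1 (Set.mem_singleton _), fun z hz => h0 hz⟩

lemma mem_fibre_self (y : Y) : y ∈ (fibre P D y).F := fun _ => rfl

lemma rel_closed : IsClosed {p : Y × Y | rel P D p.1 p.2} := by
  have : {p : Y × Y | rel P D p.1 p.2} = ⋂ h : C(X, ℂ), {p : Y × Y | P.π (D.ι h) p.1 = P.π (D.ι h) p.2} := by
    ext p; simp [rel]
  rw [this]
  apply isClosed_iInter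
  intro h
  exact isClosed_eq ((P.π (D.ι h)).continuous.comp continuous_fst)
    ((P.π (D.ι h)).continuous.comp continuous_snd)

lemma rel_lsc (y z : Y) (hyz : rel P D y z) (O : Set Y) (hO : IsOpen O) (hz : z ∈ O) :
    ∀ᶠ y' in 𝓝 y, ∃ z' ∈ O, rel P D y' z' := by
  obtain ⟨f, hf0, hf1, hfz, hfO⟩ := exists_bump hO hz
  have h1 : 0 < (Ebar P D (cx f) y).re :=
    (fibre P D y).R_pos (y := z) hyz hf0 hf1 hfz
  have h2 : ∀ᶠ y' in 𝓝 y, 0 < (Ebar P D (cx f) y').re := by
    apply (Complex.continuous_re.comp (Ebar P D (cx f)).continuous).continuousAt.eventually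
    exact lt_mem_nhds h1
  filter_upwards [h2] with y' hy'
  by_contra hcon
  push Not at hcon
  have h3 : Ebar P D (cx f) y' = 0 := by
    apply Ebar_supp
    intro z' hz'
    have : z' ∉ O := fun h => hcon z' h hz'
    simp [hfO z' this]
  rw [h3] at hy'
  simp at hy'

lemma rel_fin (y : Y) (h : ∃ O : Set Y, IsOpen O ∧ y ∈ O ∧ ∀ z ∈ O, rel P D y z → z = y) :
    {z | rel P D y z}.Finite := by
  obtain ⟨O, hO, hy, hOy⟩ := h
  obtain ⟨f, hf0, hf1, hfy, hfO⟩ := exists_bump hO hy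
  apply (fibre P D y).finite_of_isolated (mem_fibre_self P D y) hf0 hf1 hfy
  intro z hz hne
  apply hfO
  intro hzO
  exact hne (hOy z hzO hz)

end general

variable (P : ExtData A H Y0) (D : DiagData A X)

lemma goodRel : GoodRel (rel P D) where
  refl := fun _ _ => rfl
  symm := fun _ _ h k => (h k).symm
  trans := fun _ _ _ h h' k => (h k).trans (h' k)
  closed := rel_closed P D
  lsc := rel_lsc P D
  fin := rel_fin P D

theorem Ebar_circle {y : Y0} (hy : ‖(y : ℂ)‖ = 1) (f : C(Y0, ℂ)) : Ebar P D f y = f y := by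
  have h1 : Ebar P D (f - f y • 1) y = 0 := by
    apply Ebar_supp
    intro z hz
    rw [(goodRel P D).eq_of_rel hy hz]
    simp
  rw [map_sub, map_smul, Ebar_one] at h1
  simp only [ContinuousMap.sub_apply, ContinuousMap.smul_apply, ContinuousMap.one_apply,
    smul_eq_mul, mul_one] at h1
  exact sub_eq_zero.1 h1

theorem half_le_norm_Ebar (y : Y0) : 1 / 2 ≤ ‖Ebar P D coord y‖ := by
  rcases norm_eq_one_or (y := y) with hy | hy
  · rw [Ebar_circle P D hy]
    change 1 / 2 ≤ ‖(y : ℂ)‖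
    rw [hy]; norm_num
  · refine le_trans ?_ (Complex.re_le_norm _)
    apply (fibre P D y).le_re_ω
    intro z hz
    have h1 := (goodRel P D).norm_of_norm hy hz
    obtain ⟨z, hz' | ⟨p, rfl⟩⟩ := z
    · rw [Set.mem_ofPred_eq] at hz'
      change 1 < ‖z‖ at h1
      linarith
    · exact half_le_re_pts p

end Pool.Agent.H6.TG
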