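import Pool.Agent.H6.TG.Grp

/-!
# Convolution preserves the space of compactly supported continuous equivariant functions
-/

set_option linter.unusedSectionVars false

open Topology Filter
open scoped ComplexConjugate ENNReal

namespace Pool.Agent.H6.TG

universe u v w

namespace Twist

variable {X : Type u} {G : Type v} {S : Type w} [TopologicalSpace X] [TopologicalSpace G]
  [TopologicalSpace S] {𝒢 : TopGroupoid X G} (T : Twist 𝒢 S)

/-- the support of `f` lies over an open set on which range and source are injective -/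
def OnBis (f : S → ℂ) : Prop := ∃ U : Set G, IsOpen U ∧ Set.InjOn 𝒢.s U ∧ Set.InjOn 𝒢.r U ∧
  ∀ σ ∈ tsupport f, T.p σ ∈ U

lemma exists_decomp [T2Space G] [LocallyCompactSpace G] (hG : 𝒢.IsEtale) (f : T.CcS) :
    ∃ (n : ℕ) (F : Fin n → T.CcS), f = ∑ j, F j ∧ ∀ j, T.OnBis (F j : S → ℂ) := by
  classical
  choose U hUo hUm hUs hUr using 𝒢.exists_bisection hG
  have hK : IsCompact (T.p '' tsupport (f : S → ℂ)) := IsCompact.image f.2.2.1 T.continuous_p
  obtain ⟨t, ht⟩ := hK.elim_finite_subcover U hUo (fun γ _ => Set.mem_iUnion.2 ⟨γ, hUm γ⟩)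
  let e := t.equivFin
  obtain ⟨φ, h1, h2, h3, h4⟩ := exists_continuous_sum_one_of_isOpen_isCompact
    (s := fun j : Fin t.card => U (e.symm j)) (fun j => hUo _) hK (by
      intro γ hγ
      obtain ⟨δ, hδ, hγδ⟩ := Set.mem_iUnion₂.1 (ht hγ)
      refine Set.mem_iUnion.2 ⟨e ⟨δ, hδ⟩, ?_⟩
      rw [Equiv.symm_apply_apply]
      exact hγδ)
  refine ⟨t.card, fun j => ⟨fun σ => ((φ j (T.p σ) : ℝ) : ℂ) * f.1 σ, ?_, ?_, ?_⟩, ?_, ?_⟩
  · exact (Complex.continuous_ofReal.comp ((φ j).continuous.comp T.continuous_p)).mul f.2.1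
  · exact HasCompactSupport.mul_left f.2.2.1
  · intro z σ
    simp only [p_act]
    rw [f.2.2.2 z σ]
    ring
  · apply Subtype.ext
    ext σ
    rw [Submodule.coe_sum, Finset.sum_apply]
    simp only
    rw [← Finset.sum_mul]
    by_cases hσ : f.1 σ = 0
    · rw [hσ, mul_zero]
    · have h5 : T.p σ ∈ T.p '' tsupport (f : S → ℂ) := ⟨σ, subset_tsupport _ hσ, rfl⟩
      have h6 := h2 h5
      simp only [Pi.one_apply] at h6
      rw [Finset.sum_apply] at h6
      have h7 : ∑ j, ((φ j (T.p σ) : ℝ) : ℂ) = 1 := by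
        rw [← Complex.ofReal_sum, h6, Complex.ofReal_one]
      rw [h7, one_mul]
  · intro j
    refine ⟨U (e.symm j), hUo _, hUs _, hUr _, ?_⟩
    intro σ hσ
    apply h1 j
    have h5 : tsupport (fun σ => ((φ j (T.p σ) : ℝ) : ℂ) * f.1 σ) ⊆ T.p ⁻¹' (tsupport (φ j)) := by
      apply closure_minimal _ ((isClosed_tsupport _).preimage T.continuous_p)
      intro τ hτ
      apply subset_tsupport
      intro h0
      apply hτ
      simp only [h0, Complex.ofReal_zero, zero_mul]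
    exact h5 hσ

lemma isOpenMap_r (hG : 𝒢.IsEtale) : IsOpenMap T.E.r := by
  have : T.E.r = 𝒢.r ∘ T.p := by
    ext σ
    rw [Function.comp, T.r_p]
  rw [this]
  exact hG.2.isOpenMap.comp T.isOpenMap_p

lemma continuousOn_term {f g : S → ℂ} (hf : Continuous f) (hg : Continuous g) :
    ContinuousOn (fun q : S × S => f q.1 * g (T.E.mul (T.E.inv q.1) q.2))
      {q | T.E.r q.1 = T.E.r q.2} := by
  apply ContinuousOn.mul (hf.comp continuous_fst).continuousOn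
  apply hg.comp_continuousOn
  have h1 : ContinuousOn (fun q : S × S => (T.E.inv q.1, q.2)) {q | T.E.r q.1 = T.E.r q.2} :=
    ((T.E.continuous_inv.comp continuous_fst).prodMk continuous_snd).continuousOn
  exact T.E.continuousOn_mul.comp h1 (fun q hq => by
    change T.E.s (T.E.inv q.1) = T.E.r q.2
    rw [T.E.s_inv]; exact hq)

lemma continuous_conv_of_bis [T2Space X] (hG : 𝒢.IsEtale) {f g : S → ℂ} (hf : f ∈ T.CcS) (hg : g ∈ T.CcS)
    {U : Set G} (hU : IsOpen U) (hUr : Set.InjOn 𝒢.r U) (hs : ∀ σ ∈ tsupport f, T.p σ ∈ U) :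
    Continuous (T.conv f g) := by
  rw [continuous_iff_continuousAt]
  intro σ₀
  by_cases h0 : ∃ γ ∈ U, 𝒢.r γ = T.E.r σ₀
  · obtain ⟨γ₀, hγ₀, hr₀⟩ := h0
    have key : ∀ τ σ, T.p τ ∈ U → T.E.r τ = T.E.r σ →
        T.conv f g σ = f τ * g (T.E.mul (T.E.inv τ) σ) := by
      intro τ σ hτ hr
      apply conv_eq_of_unique hf.2.2 hg.2.2 hr
      intro τ' hr' hne
      have : f τ' = 0 := by
        by_contra h
        apply hne
        apply hUr (hs τ' (subset_tsupport _ h)) hτ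
        rw [T.r_p, T.r_p, hr', hr]
      rw [this, zero_mul]
    have hrτ : T.E.r (T.lift γ₀) = T.E.r σ₀ := by rw [r_lift, hr₀]
    have hc := T.continuousOn_term hf.1 hg.1 (T.lift γ₀, σ₀) hrτ
    rw [ContinuousAt, key (T.lift γ₀) σ₀ (by rw [p_lift]; exact hγ₀) hrτ]
    intro V hV
    have h1 := hc hV
    rw [mem_map, mem_nhdsWithin_iff_exists_mem_nhds_inter] at h1
    obtain ⟨W, hW, hWs⟩ := h1
    rw [nhds_prod_eq, mem_prod_iff] at hW
    obtain ⟨W₁, hW₁, W₂, hW₂, hWW⟩ := hW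
    obtain ⟨W₁', hW₁', hW₁o, hW₁m⟩ := mem_nhds_iff.1 hW₁
    have h2 : IsOpen (T.E.r ⁻¹' (T.E.r '' (W₁' ∩ T.p ⁻¹' U))) :=
      (T.isOpenMap_r hG _ (hW₁o.inter (hU.preimage T.continuous_p))).preimage T.E.continuous_r
    have h3 : σ₀ ∈ T.E.r ⁻¹' (T.E.r '' (W₁' ∩ T.p ⁻¹' U)) :=
      ⟨T.lift γ₀, ⟨hW₁m, by rw [Set.mem_preimage, p_lift]; exact hγ₀⟩, hrτ⟩
    rw [mem_map]
    filter_upwards [hW₂, h2.mem_nhds h3] with σ hσ₂ hσ₁
    obtain ⟨τ, ⟨hτ₁, hτ₂⟩, hτr⟩ := hσ₁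
    rw [Set.mem_preimage, key τ σ hτ₂ hτr]
    have h4 : (τ, σ) ∈ W ∩ {q : S × S | T.E.r q.1 = T.E.r q.2} :=
      ⟨hWW ⟨hW₁' hτ₁, hσ₂⟩, hτr⟩
    exact hWs h4
  · have hC : IsClosed (T.E.r '' tsupport f) :=
      (IsCompact.image hf.2.1 T.E.continuous_r).isClosed
    have h1 : σ₀ ∈ (T.E.r ⁻¹' (T.E.r '' tsupport f))ᶜ := by
      rintro ⟨τ, hτ, hr⟩
      exact h0 ⟨T.p τ, hs τ hτ, by rw [T.r_p, hr]⟩
    have h2 : IsOpen (T.E.r ⁻¹' (T.E.r '' tsupport f))ᶜ :=
      (hC.preimage T.E.continuous_r).isOpen_compl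
    apply ContinuousAt.congr (f := fun _ => (0 : ℂ)) continuousAt_const
    filter_upwards [h2.mem_nhds h1] with σ hσ
    by_contra hne
    obtain ⟨τ, hr, hτ, -⟩ := exists_of_conv_ne_zero (Ne.symm hne)
    exact hσ ⟨τ, subset_tsupport _ hτ, hr⟩

lemma hasCompactSupport_conv [T2Space X] [T2Space S] {f g : S → ℂ} (hf : f ∈ T.CcS) (hg : g ∈ T.CcS) :
    HasCompactSupport (T.conv f g) := by
  have hK : IsCompact ((tsupport f ×ˢ tsupport g) ∩ {q : S × S | T.E.s q.1 = T.E.r q.2}) := by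
    apply (hf.2.1.prod hg.2.1).inter_right
    exact isClosed_eq (T.E.continuous_s.comp continuous_fst) (T.E.continuous_r.comp continuous_snd)
  have hM := hK.image_of_continuousOn (T.E.continuousOn_mul.mono Set.inter_subset_right)
  apply HasCompactSupport.intro hM
  intro σ hσ
  by_contra hne
  obtain ⟨τ, hr, h1, h2⟩ := exists_of_conv_ne_zero hne
  apply hσ
  refine ⟨(τ, T.E.mul (T.E.inv τ) σ), ⟨⟨subset_tsupport _ h1, subset_tsupport _ h2⟩, ?_⟩,
    T.E.mul_inv_cancel_left hr⟩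
  change T.E.s τ = T.E.r (T.E.mul (T.E.inv τ) σ)
  rw [T.E.r_mul _ _ (by rw [T.E.s_inv, hr]), T.E.r_inv]

lemma conv_mem_of_bis [T2Space X] [T2Space S] (hG : 𝒢.IsEtale) {f g : S → ℂ} (hf : f ∈ T.CcS)
    (hg : g ∈ T.CcS) (hb : T.OnBis f) : T.conv f g ∈ T.CcS := by
  obtain ⟨U, hU, -, hUr, hs⟩ := hb
  exact ⟨T.continuous_conv_of_bis hG hf hg hU hUr hs, T.hasCompactSupport_conv hf hg,
    Equivariant.conv hg.2.2⟩

lemma finite_of_bis {f : S → ℂ} (hb : T.OnBis f) (x : X) :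
    {γ : {γ : G // 𝒢.r γ = x} | f (T.lift γ) ≠ 0}.Finite := by
  obtain ⟨U, hU, -, hUr, hs⟩ := hb
  apply Set.Subsingleton.finite
  intro γ hγ δ hδ
  apply Subtype.ext
  have h1 := hs _ (subset_tsupport _ hγ)
  have h2 := hs _ (subset_tsupport _ hδ)
  rw [p_lift] at h1 h2
  exact hUr h1 h2 (by rw [γ.2, δ.2])

lemma finite_of_mem [T2Space G] [LocallyCompactSpace G] (hG : 𝒢.IsEtale) {f : S → ℂ}
    (hf : f ∈ T.CcS) (x : X) : {γ : {γ : G // 𝒢.r γ = x} | f (T.lift γ) ≠ 0}.Finite := by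
  obtain ⟨n, F, hF, hb⟩ := T.exists_decomp hG ⟨f, hf⟩
  have h1 : {γ : {γ : G // 𝒢.r γ = x} | f (T.lift γ) ≠ 0} ⊆
      ⋃ j, {γ : {γ : G // 𝒢.r γ = x} | (F j : S → ℂ) (T.lift γ) ≠ 0} := by
    intro γ hγ
    by_contra hcon
    apply hγ
    have h2 : f = ∑ j, (F j : S → ℂ) := by
      have := congrArg Subtype.val hF
      rwa [Submodule.coe_sum] at this
    rw [h2, Finset.sum_apply]
    apply Finset.sum_eq_zero
    intro j _
    by_contra h3
    exact hcon (Set.mem_iUnion.2 ⟨j, h3⟩)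
  exact (Set.finite_iUnion (fun j => T.finite_of_bis (hb j) x)).subset h1

lemma conv_sum_left [T2Space G] [LocallyCompactSpace G] (hG : 𝒢.IsEtale) {n : ℕ} (F : Fin n → T.CcS)
    (g : S → ℂ) : T.conv (∑ j, (F j : S → ℂ)) g = ∑ j, T.conv (F j) g := by
  ext σ
  rw [Finset.sum_apply, conv]
  simp only [conv]
  rw [← finsum_sum_comm]
  · apply finsum_congr
    intro γ
    rw [Finset.sum_apply, Finset.sum_mul]
  · intro j _
    apply (T.finite_of_mem hG (F j).2 (T.E.r σ)).subset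
    intro γ hγ
    exact left_ne_zero_of_mul hγ

/-- the convolution algebra is closed under convolution -/
theorem conv_mem [T2Space G] [LocallyCompactSpace G] [T2Space S] (hG : 𝒢.IsEtale) {f g : S → ℂ}
    (hf : f ∈ T.CcS) (hg : g ∈ T.CcS) : T.conv f g ∈ T.CcS := by
  have : T2Space X := 𝒢.t2Space
  obtain ⟨n, F, hF, hb⟩ := T.exists_decomp hG ⟨f, hf⟩
  have h2 : f = ∑ j, (F j : S → ℂ) := by
    have := congrArg Subtype.val hF
    rwa [Submodule.coe_sum] at this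
  rw [h2, T.conv_sum_left hG]
  apply Submodule.sum_mem
  intro j _
  exact T.conv_mem_of_bis hG (F j).2 hg (hb j)

theorem invol_mem {f : S → ℂ} (hf : f ∈ T.CcS) : T.invol f ∈ T.CcS := by
  have he : ∀ σ, T.E.inv (T.E.inv σ) = σ := T.E.inv_inv
  let e : S ≃ₜ S := ⟨⟨T.E.inv, T.E.inv, he, he⟩, T.E.continuous_inv, T.E.continuous_inv⟩
  refine ⟨?_, ?_, hf.2.2.invol⟩
  · exact Complex.continuous_conj.comp (hf.1.comp T.E.continuous_inv)
  · have h1 : HasCompactSupport (f ∘ e) := hf.2.1.comp_homeomorph e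
    exact h1.comp_left (g := fun z : ℂ => conj z) (map_zero _)

end Twist

end Pool.Agent.H6.TG
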