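import Mathlib

/-!
# Diagonal data on a C*-algebra

The structure carried by the reduced C*-algebra of a twist over an etale groupoid with compact unit
space `X`: the diagonal `C(X)`, the conditional expectation onto it and the set `N` of elements
supported on an open bisection.
-/

open ContinuousLinearMap

namespace Pool.Agent.H6.TG

/-- Diagonal data on a unital C*-algebra. -/
structure DiagData (A : Type*) [CStarAlgebra A] (X : Type*) [TopologicalSpace X]
    [CompactSpace X] [T2Space X] where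
  ι : C(X, ℂ) →⋆ₐ[ℂ] A
  E : A →L[ℂ] C(X, ℂ)
  N : Set A
  norm_E_le : ∀ a, ‖E a‖ ≤ ‖a‖
  E_ι : ∀ h, E (ι h) = h
  E_left : ∀ h a, E (ι h * a) = h * E a
  E_right : ∀ h a, E (a * ι h) = E a * h
  E_nonneg : ∀ a x, 0 ≤ (E (star a * a) x).re ∧ (E (star a * a) x).im = 0
  E_faithful : ∀ a, E (star a * a) = 0 → a = 0
  N_dense : Dense (Submodule.span ℂ N : Set A)
  N_ι : ∀ h, ι h ∈ N
  N_mul : ∀ m n, m ∈ N → n ∈ N → m * n ∈ N
  N_star : ∀ n ∈ N, star n ∈ N
  N_star_mul : ∀ n ∈ N, ∃ h, star n * n = ι h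
  N_E : ∀ n ∈ N, ι (star (E n)) * n = ι (star (E n) * E n)

namespace DiagData

variable {A : Type*} [CStarAlgebra A] {X : Type*} [TopologicalSpace X]
    [CompactSpace X] [T2Space X] (D : DiagData A X)

lemma ι_injective : Function.Injective D.ι := by
  intro a b h
  rw [← D.E_ι a, ← D.E_ι b, h]

lemma norm_ι_le (h : C(X, ℂ)) : ‖D.ι h‖ ≤ ‖h‖ := by
  exact (D.ι.toAlgHom.toRingHom : C(X, ℂ) →+* A) |> fun _ => NonUnitalStarAlgHom.norm_apply_le D.ι h

lemma norm_ι (h : C(X, ℂ)) : ‖D.ι h‖ = ‖h‖ :=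
  le_antisymm (D.norm_ι_le h) (by
    calc ‖h‖ = ‖D.E (D.ι h)‖ := by rw [D.E_ι]
      _ ≤ _ := D.norm_E_le _)

lemma continuous_ι : Continuous D.ι :=
  AddMonoidHomClass.continuous_of_bound D.ι 1 (by intro x; simpa using D.norm_ι_le x)

lemma N_smul (c : ℂ) {n : A} (hn : n ∈ D.N) : c • n ∈ D.N := by
  have : c • n = D.ι (c • 1) * n := by
    rw [map_smul, map_one, smul_mul_assoc, one_mul]
  rw [this]
  exact D.N_mul _ _ (D.N_ι _) hn

end DiagData

end Pool.Agent.H6.TG
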