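import Mathlib

/-!
# Twisted étale groupoids and their reduced C*-algebras

Topological groupoids, étale groupoids, twists, the convolution `*`-algebra of compactly supported
continuous equivariant functions on a twist, the regular representations, and the statement that a
C*-algebra is the completion of the convolution algebra in the norm given by the regular
representations.
-/

open scoped ComplexConjugate ENNReal

namespace Pool.Agent.H6.TG

universe u v w

/-- A topological groupoid with space of arrows `G` and space of units `X`.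
`s` and `r` are the source and range maps, `unit x` is the identity arrow of `x`, and `mul a b` is
the product `a b`, which is meaningful for composable pairs (`s a = r b`) only: no condition is
imposed on its values at pairs that are not composable. -/
structure TopGroupoid (X : Type u) (G : Type v) [TopologicalSpace X] [TopologicalSpace G] where
  s : G → X
  r : G → X
  unit : X → G
  inv : G → G
  mul : G → G → G
  s_unit : ∀ x, s (unit x) = x
  r_unit : ∀ x, r (unit x) = x
  s_inv : ∀ a, s (inv a) = r a
  r_inv : ∀ a, r (inv a) = s a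
  s_mul : ∀ a b, s a = r b → s (mul a b) = s b
  r_mul : ∀ a b, s a = r b → r (mul a b) = r a
  assoc : ∀ a b c, s a = r b → s b = r c → mul (mul a b) c = mul a (mul b c)
  unit_mul : ∀ a, mul (unit (r a)) a = a
  mul_unit : ∀ a, mul a (unit (s a)) = a
  mul_inv : ∀ a, mul a (inv a) = unit (r a)
  inv_mul : ∀ a, mul (inv a) a = unit (s a)
  continuous_s : Continuous s
  continuous_r : Continuous r
  continuous_unit : Continuous unit
  continuous_inv : Continuous inv
  continuousOn_mul : ContinuousOn (fun q : G × G => mul q.1 q.2) {q | s q.1 = r q.2}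

/-- The groupoid is étale: the range and source maps are local homeomorphisms. -/
def TopGroupoid.IsEtale {X : Type u} {G : Type v} [TopologicalSpace X] [TopologicalSpace G]
    (𝒢 : TopGroupoid X G) : Prop :=
  IsLocalHomeomorph 𝒢.s ∧ IsLocalHomeomorph 𝒢.r

/-- A twist over the groupoid `𝒢`: a topological groupoid `E` with space of arrows `S` and the same
unit space `X`, a continuous open surjective homomorphism `p` to `𝒢` which is the identity on `X`,
and a homeomorphism `i` of `X × 𝕋` onto the kernel of `p`, which is a homomorphism from the trivial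
bundle of groups `X × 𝕋` and is central. -/
structure Twist {X : Type u} {G : Type v} [TopologicalSpace X] [TopologicalSpace G]
    (𝒢 : TopGroupoid X G) (S : Type w) [TopologicalSpace S] where
  E : TopGroupoid X S
  p : S → G
  continuous_p : Continuous p
  isOpenMap_p : IsOpenMap p
  surjective_p : Function.Surjective p
  s_p : ∀ σ, 𝒢.s (p σ) = E.s σ
  r_p : ∀ σ, 𝒢.r (p σ) = E.r σ
  p_mul : ∀ σ τ, E.s σ = E.r τ → p (E.mul σ τ) = 𝒢.mul (p σ) (p τ)
  i : X × Circle → S
  isEmbedding_i : Topology.IsEmbedding i
  range_i : Set.range i = p ⁻¹' (Set.range 𝒢.unit)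
  s_i : ∀ x z, E.s (i (x, z)) = x
  r_i : ∀ x z, E.r (i (x, z)) = x
  i_mul : ∀ x z z', i (x, z * z') = E.mul (i (x, z)) (i (x, z'))
  central : ∀ σ z, E.mul (i (E.r σ, z)) σ = E.mul σ (i (E.s σ, z))

namespace Twist

variable {X : Type u} {G : Type v} {S : Type w} [TopologicalSpace X] [TopologicalSpace G]
  [TopologicalSpace S] {𝒢 : TopGroupoid X G} (T : Twist 𝒢 S)

/-- The action `z · σ = (r(σ), z) σ` of the circle on the twist. -/
def act (z : Circle) (σ : S) : S := T.E.mul (T.i (T.E.r σ, z)) σ

/-- `f (z · σ) = conj z * f σ`. -/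
def Equivariant (f : S → ℂ) : Prop := ∀ (z : Circle) (σ : S), f (T.act z σ) = conj (z : ℂ) * f σ

/-- The continuous compactly supported functions `f : Σ → ℂ` with `f (z · σ) = conj z * f σ`. -/
def Cc : Set (S → ℂ) := {f | Continuous f ∧ HasCompactSupport f ∧ T.Equivariant f}

/-- An element of the twist above the arrow `γ`. (Everything below is independent of the choice.) -/
noncomputable def lift (γ : G) : S := Function.surjInv T.surjective_p γ

/-- Convolution: `(f * g)(σ) = ∑ f(τ) g(τ⁻¹ σ)`, where the sum is over all arrows `γ` of `𝒢` with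
`r(γ) = r(σ)` and `τ = lift γ` is an element above `γ`. -/
noncomputable def conv (f g : S → ℂ) (σ : S) : ℂ :=
  ∑ᶠ γ : {γ : G // 𝒢.r γ = T.E.r σ}, f (T.lift γ) * g (T.E.mul (T.E.inv (T.lift γ)) σ)

/-- The involution `f*(σ) = conj (f (σ⁻¹))`. -/
noncomputable def invol (f : S → ℂ) (σ : S) : ℂ := conj (f (T.E.inv σ))

/-- The square of the norm of (the restriction of) an equivariant function `ξ` in the Hilbert space
`ℓ²` of the fibre `s⁻¹(x)`. -/
noncomputable def normSq (x : X) (ξ : S → ℂ) : ℝ≥0∞ :=
  ∑' γ : {γ : G // 𝒢.s γ = x}, ‖ξ (T.lift γ)‖ₑ ^ 2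

/-- The norms of all regular representations `ξ ↦ f * ξ` of `f`, on the Hilbert spaces `ℓ²` of the
fibres `s⁻¹(x)`, are at most `c`. -/
def ReducedNormLE (f : S → ℂ) (c : ℝ) : Prop :=
  ∀ (x : X) (ξ : S → ℂ), T.Equivariant ξ → T.normSq x ξ ≠ ∞ →
    T.normSq x (T.conv f ξ) ≤ ENNReal.ofReal c ^ 2 * T.normSq x ξ

/-- The C*-algebra `A` is isomorphic to the reduced twisted groupoid C*-algebra: there is a linear
map `Φ` to `A` from the space of continuous compactly supported equivariant functions that sends
convolutions to products and the involution to the involution, is isometric for the reduced norm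
(the norm given by the regular representations) and has dense range. -/
def IsReducedCStarAlgebra (A : Type*) [NonUnitalCStarAlgebra A] : Prop :=
  ∃ Φ : T.Cc → A,
    (∀ (c : ℂ) (f g h : T.Cc), (∀ σ, h.1 σ = c * f.1 σ + g.1 σ) → Φ h = c • Φ f + Φ g) ∧
    (∀ f g h : T.Cc, h.1 = T.conv f.1 g.1 → Φ h = Φ f * Φ g) ∧
    (∀ f g : T.Cc, g.1 = T.invol f.1 → Φ g = star (Φ f)) ∧
    (∀ (f : T.Cc) (c : ℝ), 0 ≤ c → (‖Φ f‖ ≤ c ↔ T.ReducedNormLE f.1 c)) ∧
    DenseRange Φ

end Twist

end Pool.Agent.H6.TG
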