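import Pool.Agent.H6.TG.Approx

/-!
# The example algebra
-/

set_option linter.unusedSectionVars false

open ContinuousLinearMap InnerProductSpace Topology Filter TopologicalSpace
open scoped ComplexConjugate Classical InnerProductSpace ENNReal lp

namespace Pool.Agent.H6.TG

/-- The algebra of pairs `(T, f)` with `T - Lo f` compact. -/
noncomputable def AAset : StarSubalgebra ℂ ((HI →L[ℂ] HI) × C(Y0, ℂ)) where
  carrier := {p | p.1 - Lo p.2 ∈ Kc HI HI}
  mul_mem' := by
    intro p q hp hq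
    simp only [Set.mem_ofPred_eq] at hp hq ⊢
    have : (p * q).1 - Lo (p * q).2 = (p.1 - Lo p.2) ∘L q.1 + Lo p.2 ∘L (q.1 - Lo q.2)
        - (Lo (p.2 * q.2) - Lo p.2 * Lo q.2) := by
      ext1 ξ
      simp
    rw [this]
    exact Submodule.sub_mem _ (Submodule.add_mem _ (mem_Kc_comp _ hp) (comp_mem_Kc _ hq))
      (Lo_mul_mem _ _)
  add_mem' := by
    intro p q hp hq
    simp only [Set.mem_ofPred_eq] at hp hq ⊢
    have : (p + q).1 - Lo (p + q).2 = (p.1 - Lo p.2) + (q.1 - Lo q.2) := by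
      rw [Prod.fst_add, Prod.snd_add, Lo_add]; abel
    rw [this]
    exact Submodule.add_mem _ hp hq
  algebraMap_mem' := by
    intro c
    simp only [Set.mem_ofPred_eq]
    have : (algebraMap ℂ ((HI →L[ℂ] HI) × C(Y0, ℂ)) c).1 -
        Lo (algebraMap ℂ ((HI →L[ℂ] HI) × C(Y0, ℂ)) c).2 = 0 := by
      rw [Algebra.algebraMap_eq_smul_one, Prod.smul_fst, Prod.smul_snd, Lo_smul, Prod.fst_one,
        Prod.snd_one, Lo_one, sub_self]
    rw [this]
    exact Submodule.zero_mem _
  star_mem' := by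
    intro p hp
    simp only [Set.mem_ofPred_eq] at hp ⊢
    have : (star p).1 - Lo (star p).2 = adjoint (p.1 - Lo p.2) := by
      rw [Prod.fst_star, Prod.snd_star, Lo_star, map_sub, star_eq_adjoint]
    rw [this]
    exact adjoint_mem_Kc hp

lemma mem_AAset (p : (HI →L[ℂ] HI) × C(Y0, ℂ)) : p ∈ AAset ↔ p.1 - Lo p.2 ∈ Kc HI HI := Iff.rfl

instance isClosed_AAset : IsClosed (AAset : Set ((HI →L[ℂ] HI) × C(Y0, ℂ))) := by
  have h : Continuous (fun p : (HI →L[ℂ] HI) × C(Y0, ℂ) => p.1 - Lo p.2) :=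
    continuous_fst.sub (continuous_Lo.comp continuous_snd)
  exact isClosed_Kc.preimage h

/-- the example algebra -/
abbrev AA : Type := ↥AAset

noncomputable instance : CStarAlgebra AA := inferInstance

/-- the inclusion of the compact operators -/
noncomputable def kin (k : HI →L[ℂ] HI) (hk : k ∈ Kc HI HI) : AA :=
  ⟨(k, 0), by rw [mem_AAset, Lo_zero, sub_zero]; exact hk⟩

noncomputable def AArep : RepData AA HI where
  ρ := (StarAlgHom.fst ℂ (HI →L[ℂ] HI) C(Y0, ℂ)).comp AAset.subtype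
  inj := by
    intro p q h
    have h1 : (p : (HI →L[ℂ] HI) × C(Y0, ℂ)).1 = (q : (HI →L[ℂ] HI) × C(Y0, ℂ)).1 := h
    have h2 : Lo ((p : (HI →L[ℂ] HI) × C(Y0, ℂ)).2 - (q : (HI →L[ℂ] HI) × C(Y0, ℂ)).2) ∈ Kc HI HI := by
      have h3 := Submodule.sub_mem (Kc HI HI) ((mem_AAset _).1 q.2) ((mem_AAset _).1 p.2)
      rw [h1] at h3
      have e : ((q : (HI →L[ℂ] HI) × C(Y0, ℂ)).1 - Lo (q : (HI →L[ℂ] HI) × C(Y0, ℂ)).2) -
        ((q : (HI →L[ℂ] HI) × C(Y0, ℂ)).1 - Lo (p : (HI →L[ℂ] HI) × C(Y0, ℂ)).2) =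
        Lo ((p : (HI →L[ℂ] HI) × C(Y0, ℂ)).2 - (q : (HI →L[ℂ] HI) × C(Y0, ℂ)).2) := by
        rw [Lo_sub]; abel
      rw [e] at h3
      exact h3
    have h4 := eq_zero_of_Lo_mem h2
    apply Subtype.ext
    apply Prod.ext h1
    exact sub_eq_zero.1 h4
  th := fun ξ η => kin (rankOne ℂ ξ η) (rankOne_mem_Kc _ _)
  ρ_th := fun ξ η => rfl

lemma AArep_ρ (a : AA) : AArep.ρ a = (a : (HI →L[ℂ] HI) × C(Y0, ℂ)).1 := rfl

noncomputable def AAπ : AA →⋆ₐ[ℂ] C(Y0, ℂ) :=
  (StarAlgHom.snd ℂ (HI →L[ℂ] HI) C(Y0, ℂ)).comp AAset.subtype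

lemma AAπ_apply (a : AA) : AAπ a = (a : (HI →L[ℂ] HI) × C(Y0, ℂ)).2 := rfl

noncomputable def lift (f : C(Y0, ℂ)) : AA := ⟨(Lo f, f), by
  rw [mem_AAset, sub_self]; exact Submodule.zero_mem _⟩

lemma kin_mem (k : HI →L[ℂ] HI) (hk : k ∈ Kc HI HI) : kin k hk ∈ AArep.K := by
  have h1 : k ∈ closure ((Submodule.span ℂ (Set.range (fun p : HI × HI => (rankOne ℂ p.1 p.2 : HI →L[ℂ] HI))) :
      Submodule ℂ (HI →L[ℂ] HI)) : Set (HI →L[ℂ] HI)) := hk
  have h2 : ∀ k ∈ (Submodule.span ℂ (Set.range (fun p : HI × HI => (rankOne ℂ p.1 p.2 : HI →L[ℂ] HI)))),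
      ∃ hk : k ∈ Kc HI HI, kin k hk ∈ Submodule.span ℂ (Set.range (fun p : HI × HI => AArep.th p.1 p.2)) := by
    intro k hk
    induction hk using Submodule.span_induction with
    | mem x h =>
      obtain ⟨⟨x, y⟩, rfl⟩ := h
      exact ⟨rankOne_mem_Kc _ _, Submodule.subset_span ⟨(x, y), rfl⟩⟩
    | zero => exact ⟨Submodule.zero_mem _, Submodule.zero_mem _⟩
    | add x y _ _ hx hy =>
      obtain ⟨hx1, hx2⟩ := hx
      obtain ⟨hy1, hy2⟩ := hy
      refine ⟨Submodule.add_mem _ hx1 hy1, ?_⟩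
      have : kin (x + y) (Submodule.add_mem _ hx1 hy1) = kin x hx1 + kin y hy1 := by
        apply Subtype.ext
        apply Prod.ext
        · rfl
        · exact (add_zero (0 : C(Y0, ℂ))).symm
      rw [this]
      exact Submodule.add_mem _ hx2 hy2
    | smul a x _ hx =>
      obtain ⟨hx1, hx2⟩ := hx
      refine ⟨Submodule.smul_mem _ _ hx1, ?_⟩
      have : kin (a • x) (Submodule.smul_mem _ _ hx1) = a • kin x hx1 := by
        apply Subtype.ext
        apply Prod.ext
        · rfl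
        · exact (smul_zero a).symm
      rw [this]
      exact Submodule.smul_mem _ _ hx2
  change kin k hk ∈ closure _
  rw [Metric.mem_closure_iff]
  intro ε hε
  obtain ⟨k', hk', hd⟩ := Metric.mem_closure_iff.1 h1 ε hε
  obtain ⟨hk1, hk2⟩ := h2 k' hk'
  refine ⟨kin k' hk1, hk2, ?_⟩
  rw [Subtype.dist_eq, Prod.dist_eq]
  simp only [kin, dist_self]
  exact max_lt hd hε

/-- the example algebra as an extension -/
noncomputable def AAext : ExtData AA HI Y0 where
  toRepData := AArep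
  π := AAπ
  surj := fun f => ⟨lift f, rfl⟩
  ker := by
    intro a
    constructor
    · intro h
      rw [AAπ_apply] at h
      have h1 : (a : (HI →L[ℂ] HI) × C(Y0, ℂ)).1 ∈ Kc HI HI := by
        have := (mem_AAset _).1 a.2
        rwa [h, Lo_zero, sub_zero] at this
      have h2 : a = kin _ h1 := by
        apply Subtype.ext
        exact Prod.ext rfl h
      rw [h2]
      exact kin_mem _ _
    · intro h
      have hc : IsClosed ((LinearMap.ker AAπ.toAlgHom.toLinearMap : Submodule ℂ AA) : Set AA) := by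
        have h1 : Continuous AAπ := by
          have : Continuous (fun a : AA => (a : (HI →L[ℂ] HI) × C(Y0, ℂ)).2) := by fun_prop
          exact this
        exact isClosed_singleton.preimage h1
      have h2 : AArep.K ≤ LinearMap.ker AAπ.toAlgHom.toLinearMap := by
        apply Submodule.topologicalClosure_minimal _ _ hc
        rw [Submodule.span_le]
        rintro _ ⟨⟨x, y⟩, rfl⟩
        rfl
      exact h2 h

instance separable_L2 {I : Type} [Countable I] : SeparableSpace (L2 I) := by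
  rw [← isSeparable_univ_iff]
  have h1 : IsSeparable ((Submodule.span ℂ (Set.range (fun i : I => e i)) : Submodule ℂ (L2 I)) : Set (L2 I)) :=
    (Set.countable_range _).isSeparable.span
  apply h1.closure.mono
  intro f _
  have h2 := lp.hasSum_single (p := 2) (by norm_num) f
  apply mem_closure_of_tendsto h2
  filter_upwards with s
  apply Submodule.sum_mem
  intro i _
  have : lp.single 2 i (f i) = f i • e (I := I) i := by
    ext j
    rw [lp.coeFn_smul, Pi.smul_apply, e_apply]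
    by_cases h : j = i
    · subst h; simp
    · rw [if_neg h, lp.single_apply_ne _ _ _ h, smul_zero]
  rw [this]
  exact Submodule.smul_mem _ _ (Submodule.subset_span ⟨i, rfl⟩)

instance separable_AA : SeparableSpace AA := by
  rw [← isSeparable_univ_iff]
  have h1 : IsSeparable (Kc HI HI : Set (HI →L[ℂ] HI)) := isSeparable_Kc
  have h1' : SeparableSpace (Kc HI HI) := h1.separableSpace
  have h2 : Continuous (fun p : (Kc HI HI) × C(Y0, ℂ) =>
      (⟨((p.1 : HI →L[ℂ] HI) + Lo p.2, p.2), by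
        rw [mem_AAset, add_sub_cancel_right]; exact p.1.2⟩ : AA)) := by
    apply Continuous.subtype_mk
    have := continuous_Lo
    fun_prop
  have h3 := isSeparable_range h2
  apply h3.mono
  intro a _
  refine ⟨(⟨(a : (HI →L[ℂ] HI) × C(Y0, ℂ)).1 - Lo (a : (HI →L[ℂ] HI) × C(Y0, ℂ)).2, a.2⟩,
    (a : (HI →L[ℂ] HI) × C(Y0, ℂ)).2), ?_⟩
  apply Subtype.ext
  apply Prod.ext
  · exact sub_add_cancel _ _
  · rfl

end Pool.Agent.H6.TG
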