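import Mathlib

/-!
# Functionals concentrated on a fibre

`FibreData` is the data of a unital positive functional `ω` on `C(Y)` concentrated on a set `F` for
which there is a multiplicative family `U` of functions of constant modulus on `F`, with dense span,
such that `ω` kills every element of `U` which is not constant on `F`. We show that `ω` has full
support in `F` and that `F` is finite as soon as it has an isolated point.
-/

set_option linter.unusedSectionVars false

open scoped ComplexConjugate Classical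
open Finset

namespace Pool.Agent.H6.TG

variable {Y : Type*} [TopologicalSpace Y] [CompactSpace Y] [T2Space Y]

/-- complexification of a real function -/
noncomputable def cx (h : C(Y, ℝ)) : C(Y, ℂ) := ⟨fun y => (h y : ℂ), by fun_prop⟩

@[simp] lemma cx_apply (h : C(Y, ℝ)) (y : Y) : cx h y = (h y : ℂ) := rfl

lemma cx_add (h k : C(Y, ℝ)) : cx (h + k) = cx h + cx k := by ext y; simp
lemma cx_sub (h k : C(Y, ℝ)) : cx (h - k) = cx h - cx k := by ext y; simp
lemma cx_smul (c : ℝ) (h : C(Y, ℝ)) : cx (c • h) = (c : ℂ) • cx h := by ext y; simp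

structure FibreData (Y : Type*) [TopologicalSpace Y] [CompactSpace Y] [T2Space Y] where
  ω : C(Y, ℂ) →ₗ[ℂ] ℂ
  F : Set Y
  U : Set C(Y, ℂ)
  pos : ∀ g, 0 ≤ (ω (star g * g)).re
  real : ∀ g, (ω (star g * g)).im = 0
  one : ω 1 = 1
  supp : ∀ f : C(Y, ℂ), (∀ y ∈ F, f y = 0) → ω f = 0
  dense : Dense (Submodule.span ℂ U : Set C(Y, ℂ))
  one_mem : 1 ∈ U
  mul_mem : ∀ u v, u ∈ U → v ∈ U → u * v ∈ U
  smul_mem : ∀ (c : ℂ) u, u ∈ U → c • u ∈ U
  star_mem : ∀ u, u ∈ U → star u ∈ U
  absconst : ∀ u ∈ U, ∀ y ∈ F, ∀ z ∈ F, ‖u y‖ = ‖u z‖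
  const : ∀ u ∈ U, ω u ≠ 0 → ∀ y ∈ F, u y = ω u

namespace FibreData

variable (D : FibreData Y)

/-- the real functional -/
noncomputable def R (h : C(Y, ℝ)) : ℝ := (D.ω (cx h)).re

lemma R_add (h k : C(Y, ℝ)) : D.R (h + k) = D.R h + D.R k := by simp [R, cx_add]
lemma R_sub (h k : C(Y, ℝ)) : D.R (h - k) = D.R h - D.R k := by simp [R, cx_sub]
lemma R_smul (c : ℝ) (h : C(Y, ℝ)) : D.R (c • h) = c * D.R h := by simp [R, cx_smul]

lemma R_one : D.R 1 = 1 := by
  have : cx (1 : C(Y, ℝ)) = 1 := by ext y; simp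
  simp [R, this, D.one]

lemma R_nonneg {h : C(Y, ℝ)} (hh : ∀ y, 0 ≤ h y) : 0 ≤ D.R h := by
  let g : C(Y, ℂ) := ⟨fun y => ((Real.sqrt (h y) : ℝ) : ℂ), by fun_prop⟩
  have : cx h = star g * g := by
    ext y
    simp only [cx_apply, ContinuousMap.mul_apply, ContinuousMap.star_apply, g,
      ContinuousMap.coe_mk, RCLike.star_def, Complex.conj_ofReal]
    rw [← Complex.ofReal_mul, Real.mul_self_sqrt (hh y)]
  rw [R, this]
  exact D.pos g

lemma R_mono {h k : C(Y, ℝ)} (hh : ∀ y, h y ≤ k y) : D.R h ≤ D.R k := by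
  have := D.R_nonneg (h := k - h) (by intro y; simpa using hh y)
  rw [R_sub] at this
  linarith

lemma ω_congr {f g : C(Y, ℂ)} (h : ∀ y ∈ D.F, f y = g y) : D.ω f = D.ω g := by
  have := D.supp (f - g) (by intro y hy; simp [h y hy])
  rw [map_sub] at this
  exact sub_eq_zero.1 this

lemma ω_const {f : C(Y, ℂ)} {c : ℂ} (h : ∀ y ∈ D.F, f y = c) : D.ω f = c := by
  rw [D.ω_congr (g := c • 1) (by intro y hy; simp [h y hy]), map_smul, D.one]
  simp

/-- The Gram matrix of elements of `U`. -/
lemma gram {y : Y} (hy : y ∈ D.F) {u v : C(Y, ℂ)} (hu : u ∈ D.U) (hv : v ∈ D.U) :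
    D.ω (star u * v) =
      if (∀ z ∈ D.F, u z * v y = u y * v z) then conj (u y) * v y else 0 := by
  have habs : ∀ z ∈ D.F, conj (u z) * u z = conj (u y) * u y := by
    intro z hz
    rw [Complex.conj_mul', Complex.conj_mul', D.absconst u hu z hz y hy]
  split_ifs with h
  · apply D.ω_const
    intro z hz
    simp only [ContinuousMap.mul_apply, ContinuousMap.star_apply, RCLike.star_def]
    by_cases hu0 : u y = 0
    · have hz0 : u z = 0 := by
        have := D.absconst u hu z hz y hy
        rw [hu0, norm_zero, norm_eq_zero] at this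
        exact this
      simp [hu0, hz0]
    · have h1 := h z hz
      have h2 := habs z hz
      -- u y * (conj (u z) * v z) = conj (u z) * u z * v y = conj (u y) * u y * v y
      apply mul_left_cancel₀ hu0
      calc u y * (conj (u z) * v z) = conj (u z) * (u y * v z) := by ring
        _ = conj (u z) * (u z * v y) := by rw [h1]
        _ = (conj (u z) * u z) * v y := by ring
        _ = (conj (u y) * u y) * v y := by rw [h2]
        _ = _ := by ring
  · by_contra hne
    apply h
    have hc := D.const _ (D.mul_mem _ _ (D.star_mem _ hu) hv) hne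
    intro z hz
    have h1 := hc z hz
    have h2 := hc y hy
    simp only [ContinuousMap.mul_apply, ContinuousMap.star_apply, RCLike.star_def] at h1 h2
    have h3 := habs z hz
    -- conj (u z) * v z = conj (u y) * v y
    have h4 : conj (u z) * v z = conj (u y) * v y := by rw [h1, h2]
    by_cases hu0 : u y = 0
    · have hz0 : u z = 0 := by
        have := D.absconst u hu z hz y hy
        rw [hu0, norm_zero, norm_eq_zero] at this
        exact this
      simp [hu0, hz0]
    · have hu0' : conj (u y) ≠ 0 := by simpa using hu0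
      apply mul_left_cancel₀ hu0'
      calc conj (u y) * (u z * v y) = u z * (conj (u y) * v y) := by ring
        _ = u z * (conj (u z) * v z) := by rw [h4]
        _ = (conj (u z) * u z) * v z := by ring
        _ = (conj (u y) * u y) * v z := by rw [h3]
        _ = _ := by ring

end FibreData

/-- An inequality for sums over the classes of a map `κ`. -/
lemma norm_sum_sq_le_classes {ι κT : Type*} [Fintype ι] [DecidableEq κT] (κ : ι → κT) (z : ι → ℂ) :
    ‖∑ i, z i‖ ^ 2 ≤ ((univ.image κ).card : ℝ) *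
      (∑ i, ∑ j, if κ i = κ j then conj (z i) * z j else 0).re := by
  have h1 : ∑ i, z i = ∑ t ∈ univ.image κ, ∑ i with κ i = t, z i := by
    rw [Finset.sum_fiberwise_of_maps_to]
    intro i _
    exact mem_image_of_mem _ (mem_univ i)
  have h2 : (∑ i, ∑ j, if κ i = κ j then conj (z i) * z j else 0) =
      ∑ t ∈ univ.image κ, ((‖∑ i with κ i = t, z i‖ ^ 2 : ℝ) : ℂ) := by
    have h3 : ∀ t, ((‖∑ i with κ i = t, z i‖ ^ 2 : ℝ) : ℂ) =
        ∑ i with κ i = t, ∑ j, if κ i = κ j then conj (z i) * z j else 0 := by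
      intro t
      push_cast
      rw [← Complex.conj_mul', map_sum, Finset.sum_mul]
      apply Finset.sum_congr rfl
      intro i hi
      rw [mem_filter] at hi
      rw [Finset.mul_sum, Finset.sum_filter]
      apply Finset.sum_congr rfl
      intro j _
      simp only [hi.2, eq_comm]
    rw [Finset.sum_congr rfl (fun t _ => h3 t), Finset.sum_fiberwise_of_maps_to]
    intro i _
    exact mem_image_of_mem _ (mem_univ i)
  rw [h2, Complex.re_sum]
  simp only [Complex.ofReal_re]
  rw [h1]
  calc ‖∑ t ∈ univ.image κ, ∑ i with κ i = t, z i‖ ^ 2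
      ≤ (∑ t ∈ univ.image κ, ‖∑ i with κ i = t, z i‖) ^ 2 := by
        gcongr
        exact norm_sum_le _ _
    _ ≤ _ := sq_sum_le_card_mul_sum_sq


namespace FibreData

variable (D : FibreData Y)

/-- the normalised restriction to the fibre -/
noncomputable def kap (y : Y) (u : C(Y, ℂ)) : D.F → ℂ := fun z => u z / u y

lemma gram' {y : Y} (hy : y ∈ D.F) {u v : C(Y, ℂ)} (hu : u ∈ D.U) (hv : v ∈ D.U) :
    D.ω (star u * v) = if D.kap y u = D.kap y v then conj (u y) * v y else 0 := by
  rw [D.gram hy hu hv]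
  by_cases hu0 : u y = 0
  · simp [hu0]
  by_cases hv0 : v y = 0
  · simp [hv0]
  have : (∀ z ∈ D.F, u z * v y = u y * v z) ↔ D.kap y u = D.kap y v := by
    constructor
    · intro h
      funext z
      rw [kap, kap, div_eq_div_iff hu0 hv0, h z z.2]
      ring
    · intro h z hz
      have := congrFun h ⟨z, hz⟩
      rw [kap, kap, div_eq_div_iff hu0 hv0] at this
      rw [this]; ring
  simp only [this]

lemma norm_apply_sq_le {y : Y} (hy : y ∈ D.F) {ι : Type*} [Fintype ι] (v : ι → C(Y, ℂ))
    (hv : ∀ i, v i ∈ D.U) :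
    ‖(∑ i, v i) y‖ ^ 2 ≤ ((univ.image (fun i => D.kap y (v i))).card : ℝ) *
      (D.ω (star (∑ i, v i) * ∑ i, v i)).re := by
  have h1 := norm_sum_sq_le_classes (fun i => D.kap y (v i)) (fun i => v i y)
  have h2 : D.ω (star (∑ i, v i) * ∑ i, v i) =
      ∑ i, ∑ j, if D.kap y (v i) = D.kap y (v j) then conj (v i y) * v j y else 0 := by
    rw [star_sum, Finset.sum_mul, map_sum]
    apply Finset.sum_congr rfl
    intro i _
    rw [Finset.mul_sum, map_sum]
    apply Finset.sum_congr rfl
    intro j _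
    exact D.gram' hy (hv i) (hv j)
  rw [h2]
  simpa [ContinuousMap.sum_apply] using h1

lemma prod_mem {ι : Type*} (s : Finset ι) (u : ι → C(Y, ℂ)) (hu : ∀ i ∈ s, u i ∈ D.U) :
    ∏ i ∈ s, u i ∈ D.U := by
  induction s using Finset.induction_on with
  | empty => simpa using D.one_mem
  | insert a s ha ih =>
    rw [Finset.prod_insert ha]
    exact D.mul_mem _ _ (hu a (mem_insert_self _ _)) (ih (fun i hi => hu i (mem_insert_of_mem hi)))

/-- polynomial growth of the number of classes of words -/
lemma card_classes_le {y : Y} {r : ℕ} (u : Fin r → C(Y, ℂ)) (n : ℕ) :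
    (univ.image (fun w : Fin n → Fin r => D.kap y (∏ j, u (w j)))).card ≤ (n + 1) ^ r := by
  have h1 : (fun w : Fin n → Fin r => D.kap y (∏ j, u (w j))) =
      (fun k : Fin r → Fin (n + 1) => D.kap y (∏ i, u i ^ (k i : ℕ))) ∘
      (fun w : Fin n → Fin r => fun i => (⟨(univ.filter (fun j => w j = i)).card,
        Nat.lt_succ_of_le ((card_filter_le _ _).trans (by simp))⟩ : Fin (n + 1))) := by
    funext w
    simp only [Function.comp]
    congr 1
    rw [← Finset.prod_fiberwise (s := (univ : Finset (Fin n))) (g := w)]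
    apply Finset.prod_congr rfl
    intro i _
    rw [Finset.prod_congr rfl (g := fun _ => u i), Finset.prod_const]
    intro j hj
    rw [(mem_filter.1 hj).2]
  rw [h1, ← Finset.image_image]
  refine card_image_le.trans ((card_le_univ _).trans ?_)
  simp

/-- Full support. -/
theorem R_pos {y : Y} (hy : y ∈ D.F) {f : C(Y, ℝ)} (hf0 : ∀ z, 0 ≤ f z) (hf1 : ∀ z, f z ≤ 1)
    (hfy : f y = 1) : 0 < D.R f := by
  rcases (D.R_nonneg hf0).lt_or_eq with h | h
  · exact h
  exfalso
  -- choose an approximation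
  obtain ⟨g, hg, hgf⟩ := Metric.mem_closure_iff.1 (D.dense (cx f)) (1 / 4) (by norm_num)
  obtain ⟨r, c, v, hv⟩ := (Submodule.mem_span_set').1 hg
  let u : Fin r → C(Y, ℂ) := fun i => c i • (v i : C(Y, ℂ))
  have hu : ∀ i, u i ∈ D.U := fun i => D.smul_mem _ _ (v i).2
  have hg' : ∑ i, u i = g := hv
  have hdist : ∀ z, ‖(f z : ℂ) - g z‖ < 1 / 4 := by
    intro z
    rw [dist_eq_norm] at hgf
    exact lt_of_le_of_lt (by simpa using ContinuousMap.norm_coe_le_norm (cx f - g) z) hgf
  -- bound of g^n
  have hmain : ∀ n : ℕ, (9 : ℝ) ^ n ≤ ((n + 1 : ℕ) : ℝ) ^ r := by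
    intro n
    have h1 := D.norm_apply_sq_le hy (fun w : Fin n → Fin r => ∏ j, u (w j))
      (fun w => D.prod_mem _ _ (fun j _ => hu _))
    rw [← Fintype.sum_pow, hg'] at h1
    have h2 : (D.ω (star (g ^ n) * g ^ n)).re ≤ (1 / 4) ^ (2 * n) := by
      let G : C(Y, ℝ) := ⟨fun z => ‖g z‖ ^ (2 * n), by fun_prop⟩
      have hG : star (g ^ n) * g ^ n = cx G := by
        ext z
        simp only [ContinuousMap.mul_apply, ContinuousMap.star_apply, ContinuousMap.pow_apply,
          RCLike.star_def, cx_apply, G, ContinuousMap.coe_mk, map_pow]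
        rw [← mul_pow, Complex.conj_mul']
        push_cast
        ring
      rw [hG]
      change D.R G ≤ _
      have hC : ∀ m : ℕ, ∃ C : ℝ, ∀ t : ℝ, 0 ≤ t → t ≤ 1 →
          (t + 1 / 4) ^ m ≤ (1 / 4) ^ m + C * t := by
        intro m
        induction m with
        | zero => exact ⟨0, by intro t _ _; simp⟩
        | succ m ih =>
          obtain ⟨C, hC⟩ := ih
          refine ⟨(1 / 4) ^ m + |C| * (5 / 4), ?_⟩
          intro t ht0 ht1
          have h3 := hC t ht0 ht1
          have h4 : C * t ≤ |C| * t := by gcongr; exact le_abs_self C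
          calc (t + 1 / 4) ^ (m + 1) = (t + 1 / 4) ^ m * (t + 1 / 4) := by ring
            _ ≤ ((1 / 4) ^ m + |C| * t) * (t + 1 / 4) := by gcongr; linarith
            _ = (1 / 4) ^ (m + 1) + t * ((1 / 4) ^ m + |C| * (t + 1 / 4)) := by ring
            _ ≤ (1 / 4) ^ (m + 1) + t * ((1 / 4) ^ m + |C| * (5 / 4)) := by
              gcongr; linarith
            _ = _ := by ring
      obtain ⟨C, hC⟩ := hC (2 * n)
      have h3 : D.R G ≤ D.R ((1 / 4 : ℝ) ^ (2 * n) • (1 : C(Y, ℝ)) + C • f) := by
        apply D.R_mono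
        intro z
        simp only [G, ContinuousMap.coe_mk, ContinuousMap.add_apply, ContinuousMap.smul_apply,
          ContinuousMap.one_apply, smul_eq_mul, mul_one]
        refine le_trans ?_ (hC (f z) (hf0 z) (hf1 z))
        have h4 : ‖g z‖ ≤ f z + 1 / 4 := by
          have h5 := hdist z
          have h6 : ‖g z‖ ≤ ‖(f z : ℂ)‖ + ‖(f z : ℂ) - g z‖ := by
            have := norm_sub_le (f z : ℂ) ((f z : ℂ) - g z)
            simpa using this
          rw [Complex.norm_real, Real.norm_of_nonneg (hf0 z)] at h6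
          linarith
        gcongr
      rw [R_add, R_smul, R_smul, R_one, ← h] at h3
      simpa using h3
    have h3 : (3 / 4 : ℝ) ≤ ‖g y‖ := by
      have h5 := hdist y
      rw [hfy] at h5
      have h6 : ‖((1 : ℝ) : ℂ)‖ ≤ ‖g y‖ + ‖((1 : ℝ) : ℂ) - g y‖ := by
        have := norm_add_le (g y) (((1 : ℝ) : ℂ) - g y)
        simpa using this
      simp only [Complex.ofReal_one, norm_one] at h6
      simp only [Complex.ofReal_one] at h5
      linarith
    have h4 : ((3 / 4 : ℝ) ^ n) ^ 2 ≤ ((n + 1 : ℕ) : ℝ) ^ r * (1 / 4) ^ (2 * n) := by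
      calc ((3 / 4 : ℝ) ^ n) ^ 2 ≤ ‖(g ^ n) y‖ ^ 2 := by
            rw [ContinuousMap.pow_apply, norm_pow]
            gcongr
        _ ≤ _ := h1
        _ ≤ ((n + 1 : ℕ) : ℝ) ^ r * (1 / 4) ^ (2 * n) := by
            have h7 := D.card_classes_le (y := y) u n
            have h8 : ((univ.image (fun w : Fin n → Fin r => D.kap y (∏ j, u (w j)))).card : ℝ)
              ≤ ((n + 1 : ℕ) : ℝ) ^ r := by exact_mod_cast h7
            calc _ ≤ ((univ.image (fun w : Fin n → Fin r => D.kap y (∏ j, u (w j)))).card : ℝ)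
                  * (1 / 4) ^ (2 * n) := by gcongr
              _ ≤ _ := by gcongr
    have h5 : ((3 / 4 : ℝ) ^ n) ^ 2 = 9 ^ n * (1 / 4) ^ (2 * n) := by
      rw [pow_mul, ← mul_pow, ← pow_mul, mul_comm n 2, pow_mul]
      norm_num
    rw [h5] at h4
    exact le_of_mul_le_mul_right h4 (by positivity)
  -- contradiction for large n
  have hlim := tendsto_pow_const_div_const_pow_of_one_lt r (show (1 : ℝ) < 9 by norm_num)
  have hlim2 : Filter.Tendsto (fun n : ℕ => (((n + 1 : ℕ) : ℝ) ^ r / 9 ^ (n + 1)) * 9)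
      Filter.atTop (nhds (0 * 9)) :=
    (hlim.comp (Filter.tendsto_add_atTop_nat 1)).mul_const 9
  have h9 : ∀ᶠ n : ℕ in Filter.atTop, (((n + 1 : ℕ) : ℝ) ^ r / 9 ^ (n + 1)) * 9 < 1 := by
    apply hlim2.eventually_lt_const
    norm_num
  obtain ⟨n, hn⟩ := h9.exists
  have h10 := hmain n
  have h11 : (((n + 1 : ℕ) : ℝ) ^ r / 9 ^ (n + 1)) * 9 = ((n + 1 : ℕ) : ℝ) ^ r / 9 ^ n := by
    rw [pow_succ]; field_simp
  rw [h11, div_lt_one (by positivity)] at hn
  linarith

end FibreData

end Pool.Agent.H6.TG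

namespace Pool.Agent.H6.TG

open scoped ComplexConjugate Classical
open Finset

variable {Y : Type*} [TopologicalSpace Y] [CompactSpace Y] [T2Space Y]

namespace FibreData

variable (D : FibreData Y)

lemma ω_cx {f : C(Y, ℝ)} (hf : ∀ z, 0 ≤ f z) : D.ω (cx f) = (D.R f : ℂ) := by
  let g : C(Y, ℂ) := ⟨fun y => ((Real.sqrt (f y) : ℝ) : ℂ), by fun_prop⟩
  have : cx f = star g * g := by
    ext y
    simp only [cx_apply, ContinuousMap.mul_apply, ContinuousMap.star_apply, g,
      ContinuousMap.coe_mk, RCLike.star_def, Complex.conj_ofReal]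
    rw [← Complex.ofReal_mul, Real.mul_self_sqrt (hf y)]
  apply Complex.ext
  · simp [R]
  · rw [this, D.real g]; simp

/-- If the fibre has an isolated point then it is finite. -/
theorem finite_of_isolated {y : Y} (hy : y ∈ D.F) {f : C(Y, ℝ)} (hf0 : ∀ z, 0 ≤ f z)
    (hf1 : ∀ z, f z ≤ 1) (hfy : f y = 1) (hfF : ∀ z ∈ D.F, z ≠ y → f z = 0) : D.F.Finite := by
  set m := D.R f with hm
  have hm0 : 0 < m := D.R_pos hy hf0 hf1 hfy
  by_contra hinf
  -- choose M + 1 points
  obtain ⟨M, hM⟩ := exists_nat_gt (1 / m)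
  obtain ⟨s, hsF, hscard⟩ := Set.Infinite.exists_subset_card_eq (s := D.F) hinf M
  -- evaluation map
  let ev : C(Y, ℂ) →L[ℂ] (s → ℂ) :=
    { toFun := fun g z => g z
      map_add' := by intro a b; rfl
      map_smul' := by intro a b; rfl
      cont := by
        apply continuous_pi
        intro z
        exact continuous_eval_const (z : Y) }
  have hsurj : Function.Surjective ev := by
    intro c
    -- use bump functions
    have hbump : ∀ z : s, ∃ h : C(Y, ℝ), ∀ w : s, h w = if w = z then 1 else 0 := by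
      intro z
      have hc1 : IsClosed ((s.erase z : Finset Y) : Set Y) := (s.erase z).finite_toSet.isClosed
      have hc2 : IsClosed ({(z : Y)} : Set Y) := isClosed_singleton
      have hdis : Disjoint ((s.erase z : Finset Y) : Set Y) ({(z : Y)} : Set Y) := by
        rw [Set.disjoint_singleton_right]
        simp
      obtain ⟨h, hh0, hh1, -⟩ := exists_continuous_zero_one_of_isClosed hc1 hc2 hdis
      refine ⟨h, fun w => ?_⟩
      split_ifs with hw
      · rw [hw]; exact hh1 (Set.mem_singleton _)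
      · apply hh0
        simp only [coe_erase, Set.mem_diff, mem_coe, Set.mem_singleton_iff]
        exact ⟨w.2, fun h => hw (Subtype.ext h)⟩
    choose h hh using hbump
    refine ⟨∑ z, c z • cx (h z), ?_⟩
    funext w
    change (∑ z, c z • cx (h z)) (w : Y) = c w
    rw [ContinuousMap.sum_apply, Finset.sum_eq_single w]
    · simp [hh]
    · intro z _ hz
      simp [hh, Ne.symm hz]
    · intro h; exact absurd (mem_univ w) h
  have hspan : Submodule.span ℂ (ev '' D.U) = ⊤ := by
    have hd : Dense ((Submodule.span ℂ (ev '' D.U) : Submodule ℂ (s → ℂ)) : Set (s → ℂ)) := by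
      have h1 := hsurj.denseRange.dense_image ev.continuous D.dense
      have h2 : (Submodule.span ℂ (ev '' D.U)) = (Submodule.span ℂ D.U).map ev.toLinearMap := by
        rw [Submodule.map_span]; rfl
      rw [h2]
      exact h1
    have hcl : IsClosed ((Submodule.span ℂ (ev '' D.U) : Submodule ℂ (s → ℂ)) : Set (s → ℂ)) :=
      Submodule.closed_of_finiteDimensional _
    rw [← SetLike.coe_set_eq, Submodule.top_coe, ← hcl.closure_eq]
    exact hd.closure_eq
  obtain ⟨b, hbU, hbspan, hbli⟩ := exists_linearIndependent ℂ (ev '' D.U)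
  rw [hspan] at hbspan
  have hbfin : b.Finite := hbli.setFinite
  haveI : Fintype b := hbfin.fintype
  have hbcard : Fintype.card b = M := by
    let B := Module.Basis.mk hbli (by rw [Subtype.range_coe, hbspan])
    have h1 := Module.finrank_eq_card_basis B
    rw [Module.finrank_fintype_fun_eq_card] at h1
    rw [← h1]
    simpa using hscard
  -- representatives
  have hrep : ∀ c : b, ∃ u ∈ D.U, ev u = c := by
    intro c
    obtain ⟨u, hu, hc⟩ := hbU c.2
    exact ⟨u, hu, hc⟩
  choose u huU hu using hrep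
  have huy : ∀ c, u c y ≠ 0 := by
    intro c h0
    have hz : ev (u c) = 0 := by
      funext z
      have := D.absconst _ (huU c) z (hsF z.2) y hy
      rw [h0, norm_zero, norm_eq_zero] at this
      exact this
    rw [hu c] at hz
    exact hbli.ne_zero c hz
  have horth : ∀ c d, c ≠ d → D.ω (star (u c) * u d) = 0 := by
    intro c d hcd
    rw [D.gram hy (huU c) (huU d), if_neg]
    intro h
    apply hcd
    have h1 : (u d y) • (c : s → ℂ) - (u c y) • (d : s → ℂ) = 0 := by
      rw [← hu c, ← hu d]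
      funext z
      have := h z (hsF z.2)
      simp only [Pi.sub_apply, Pi.smul_apply, smul_eq_mul, Pi.zero_apply]
      change u d y * u c z - u c y * u d z = 0
      rw [mul_comm (u d y), this]; ring
    by_contra hne
    have h2 := linearIndependent_iff'.1 hbli {c, d}
      (fun x => if x = c then u d y else -(u c y)) (by
        rw [Finset.sum_pair hne]
        simp only [if_true, if_neg (Ne.symm hne), neg_smul]
        rw [← sub_eq_add_neg]
        exact h1) c (by simp)
    simp only [if_true] at h2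
    exact huy d h2
  -- Bessel's inequality
  let g : C(Y, ℂ) := cx f - ∑ c, ((m : ℂ) / u c y) • u c
  have hpos := D.pos g
  have hfu : ∀ c, D.ω (star (u c) * cx f) = conj (u c y) * m := by
    intro c
    have : D.ω (star (u c) * cx f) = D.ω (conj (u c y) • cx f) := by
      apply D.ω_congr
      intro z hz
      by_cases hzy : z = y
      · subst hzy; simp
      · simp [hfF z hz hzy]
    rw [this, map_smul, D.ω_cx hf0, smul_eq_mul]
  have hff : D.ω (star (cx f) * cx f) = m := by
    rw [← D.ω_cx hf0]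
    apply D.ω_congr
    intro z hz
    by_cases hzy : z = y
    · subst hzy; simp [hfy]
    · simp [hfF z hz hzy]
  have huf : ∀ c, D.ω (star (cx f) * u c) = u c y * m := by
    intro c
    have : D.ω (star (cx f) * u c) = D.ω (u c y • cx f) := by
      apply D.ω_congr
      intro z hz
      by_cases hzy : z = y
      · subst hzy; simp [mul_comm]
      · simp [hfF z hz hzy]
    rw [this, map_smul, D.ω_cx hf0, smul_eq_mul]
  have huu : ∀ c, D.ω (star (u c) * u c) = conj (u c y) * u c y := by
    intro c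
    rw [D.gram hy (huU c) (huU c), if_pos]
    intro z _; ring
  have hval : D.ω (star g * g) = m - M * (m : ℂ) ^ 2 := by
    have e1 : star g * g = star (cx f) * cx f - ∑ c, ((m : ℂ) / u c y) • (star (cx f) * u c)
        - ∑ c, (conj ((m : ℂ) / u c y)) • (star (u c) * cx f)
        + ∑ c, ∑ d, (conj ((m : ℂ) / u c y) * ((m : ℂ) / u d y)) • (star (u c) * u d) := by
      have d1 : star (cx f) * (∑ c, ((m : ℂ) / u c y) • u c) =
          ∑ c, ((m : ℂ) / u c y) • (star (cx f) * u c) := by
        rw [Finset.mul_sum]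
        exact Finset.sum_congr rfl (fun c _ => mul_smul_comm _ _ _)
      have d2 : star (∑ c, ((m : ℂ) / u c y) • u c) * cx f =
          ∑ c, (conj ((m : ℂ) / u c y)) • (star (u c) * cx f) := by
        rw [star_sum, Finset.sum_mul]
        refine Finset.sum_congr rfl (fun c _ => ?_)
        rw [star_smul, smul_mul_assoc]; rfl
      have d3 : star (∑ c, ((m : ℂ) / u c y) • u c) * (∑ c, ((m : ℂ) / u c y) • u c) =
          ∑ c, ∑ d, (conj ((m : ℂ) / u c y) * ((m : ℂ) / u d y)) • (star (u c) * u d) := by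
        rw [star_sum, Finset.sum_mul]
        refine Finset.sum_congr rfl (fun c _ => ?_)
        rw [Finset.mul_sum]
        refine Finset.sum_congr rfl (fun d _ => ?_)
        rw [star_smul, smul_mul_smul_comm]; rfl
      rw [← d1, ← d2, ← d3]
      simp only [g, star_sub]
      ring
    rw [e1]
    simp only [map_add, map_sub, map_sum, map_smul, hff, hfu, huf, smul_eq_mul]
    have e2 : ∀ c, ∑ d, (conj ((m : ℂ) / u c y) * ((m : ℂ) / u d y)) * D.ω (star (u c) * u d) =
        (m : ℂ) ^ 2 := by
      intro c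
      rw [Finset.sum_eq_single c]
      · rw [huu c]
        simp only [map_div₀, Complex.conj_ofReal]
        have h1 := huy c
        have h2 : conj (u c y) ≠ 0 := by simpa using h1
        field_simp
      · intro d _ hd
        rw [horth c d (Ne.symm hd), mul_zero]
      · intro h; exact absurd (mem_univ c) h
    have e3 : ∀ c, (m : ℂ) / u c y * (u c y * m) = (m : ℂ) ^ 2 := by
      intro c
      have h1 := huy c
      field_simp
    have e4 : ∀ c, conj ((m : ℂ) / u c y) * (conj (u c y) * m) = (m : ℂ) ^ 2 := by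
      intro c
      have h2 : conj (u c y) ≠ 0 := by simpa using huy c
      simp only [map_div₀, Complex.conj_ofReal]
      field_simp
    simp only [e2, e3, e4, Finset.sum_const, card_univ, hbcard, nsmul_eq_mul]
    ring
  rw [hval] at hpos
  have h1 : ((m : ℂ) - M * (m : ℂ) ^ 2).re = m - M * m ^ 2 := by
    have : ((m : ℂ) - M * (m : ℂ) ^ 2) = ((m - M * m ^ 2 : ℝ) : ℂ) := by push_cast; ring
    rw [this, Complex.ofReal_re]
  rw [h1] at hpos
  have h2 : 1 < M * m := by
    rw [div_lt_iff₀ hm0] at hM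
    exact hM
  nlinarith

lemma ω_real (f : C(Y, ℝ)) : D.ω (cx f) = (D.R f : ℂ) := by
  have h1 : cx f = cx (f ⊔ 0) - cx ((-f) ⊔ 0) := by
    ext y
    simp only [cx_apply, ContinuousMap.sub_apply, ContinuousMap.sup_apply, ContinuousMap.zero_apply,
      ContinuousMap.neg_apply]
    rw [← Complex.ofReal_sub]
    congr 1
    rcases le_total 0 (f y) with h | h
    · rw [sup_eq_left.2 h, sup_eq_right.2 (by linarith)]; ring
    · rw [sup_eq_right.2 h, sup_eq_left.2 (by linarith)]; ring
  have h2 : D.ω (cx f) = (D.R (f ⊔ 0) : ℂ) - (D.R ((-f) ⊔ 0) : ℂ) := by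
    rw [h1, map_sub, D.ω_cx (by intro z; simp), D.ω_cx (by intro z; simp)]
  apply Complex.ext
  · simp [R]
  · rw [h2]; simp

lemma le_R {f : C(Y, ℝ)} {c : ℝ} (hf : ∀ z ∈ D.F, c ≤ f z) : c ≤ D.R f := by
  have h1 : D.ω (cx f) = D.ω (cx (f ⊔ (c • (1 : C(Y, ℝ))))) := by
    apply D.ω_congr
    intro z hz
    simp [hf z hz]
  have h2 : D.R f = D.R (f ⊔ (c • (1 : C(Y, ℝ)))) := by
    simp only [R, h1]
  rw [h2]
  calc c = D.R (c • (1 : C(Y, ℝ))) := by rw [R_smul, R_one, mul_one]
    _ ≤ _ := D.R_mono (by intro y; simp)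

lemma le_re_ω {g : C(Y, ℂ)} {c : ℝ} (hg : ∀ z ∈ D.F, c ≤ (g z).re) : c ≤ (D.ω g).re := by
  let f1 : C(Y, ℝ) := ⟨fun z => (g z).re, Complex.continuous_re.comp g.continuous⟩
  let f2 : C(Y, ℝ) := ⟨fun z => (g z).im, Complex.continuous_im.comp g.continuous⟩
  have h1 : g = cx f1 + Complex.I • cx f2 := by
    ext z
    simp only [ContinuousMap.add_apply, ContinuousMap.smul_apply, cx_apply, smul_eq_mul, f1, f2,
      ContinuousMap.coe_mk]
    rw [mul_comm, Complex.re_add_im]
  rw [h1, map_add, map_smul, D.ω_real, D.ω_real]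
  simpa using D.le_R (f := f1) hg

end FibreData

end Pool.Agent.H6.TG
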