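import Pool.Agent.H6.TG.Defs

/-!
# Basic facts about groupoids and twists
-/

set_option linter.unusedSectionVars false

open Topology Filter
open scoped ComplexConjugate ENNReal

namespace Pool.Agent.H6.TG

universe u v w

namespace TopGroupoid

variable {X : Type u} {G : Type v} [TopologicalSpace X] [TopologicalSpace G] (Γ : TopGroupoid X G)

lemma inv_mul_cancel_left {a b : G} (h : Γ.s a = Γ.r b) : Γ.mul (Γ.inv a) (Γ.mul a b) = b := by
  rw [← Γ.assoc _ _ _ (by rw [Γ.s_inv]) h, Γ.inv_mul, h, Γ.unit_mul]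

lemma mul_inv_cancel_left {a b : G} (h : Γ.r a = Γ.r b) : Γ.mul a (Γ.mul (Γ.inv a) b) = b := by
  rw [← Γ.assoc _ _ _ (by rw [Γ.r_inv]) (by rw [Γ.s_inv, h]), Γ.mul_inv, h, Γ.unit_mul]

lemma mul_inv_cancel_right {a b : G} (h : Γ.s a = Γ.r b) : Γ.mul (Γ.mul a b) (Γ.inv b) = a := by
  rw [Γ.assoc _ _ _ h (by rw [Γ.r_inv]), Γ.mul_inv, ← h, Γ.mul_unit]

lemma inv_mul_cancel_right {a b : G} (h : Γ.s a = Γ.s b) : Γ.mul (Γ.mul a (Γ.inv b)) b = a := by
  rw [Γ.assoc _ _ _ (by rw [Γ.r_inv, h]) (by rw [Γ.s_inv]), Γ.inv_mul, ← h, Γ.mul_unit]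

lemma mul_left_cancel {a b c : G} (hb : Γ.s a = Γ.r b) (hc : Γ.s a = Γ.r c)
    (h : Γ.mul a b = Γ.mul a c) : b = c := by
  rw [← Γ.inv_mul_cancel_left hb, h, Γ.inv_mul_cancel_left hc]

lemma mul_right_cancel {a b c : G} (hb : Γ.s b = Γ.r a) (hc : Γ.s c = Γ.r a)
    (h : Γ.mul b a = Γ.mul c a) : b = c := by
  rw [← Γ.mul_inv_cancel_right hb, h, Γ.mul_inv_cancel_right hc]

@[simp] lemma inv_inv (a : G) : Γ.inv (Γ.inv a) = a := by
  have h1 : Γ.s (Γ.inv (Γ.inv a)) = Γ.r (Γ.inv a) := by rw [Γ.s_inv]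
  have h2 : Γ.s a = Γ.r (Γ.inv a) := by rw [Γ.r_inv]
  apply Γ.mul_right_cancel h1 h2
  rw [Γ.inv_mul, Γ.mul_inv, Γ.s_inv]

lemma inv_unit (x : X) : Γ.inv (Γ.unit x) = Γ.unit x := by
  have h1 := Γ.mul_unit (Γ.inv (Γ.unit x))
  rw [Γ.s_inv, Γ.r_unit, Γ.inv_mul, Γ.s_unit] at h1
  exact h1.symm

lemma inv_mul_rev {a b : G} (h : Γ.s a = Γ.r b) : Γ.inv (Γ.mul a b) = Γ.mul (Γ.inv b) (Γ.inv a) := by
  have h0 : Γ.s (Γ.inv b) = Γ.r (Γ.inv a) := by rw [Γ.s_inv, Γ.r_inv, h]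
  have h1 : Γ.s (Γ.inv (Γ.mul a b)) = Γ.r (Γ.mul a b) := Γ.s_inv _
  have h2 : Γ.s (Γ.mul (Γ.inv b) (Γ.inv a)) = Γ.r (Γ.mul a b) := by
    rw [Γ.s_mul _ _ h0, Γ.s_inv, Γ.r_mul _ _ h]
  apply Γ.mul_right_cancel h1 h2
  rw [Γ.inv_mul, Γ.s_mul _ _ h, Γ.assoc _ _ _ h0 (by rw [Γ.s_inv, Γ.r_mul _ _ h]),
    Γ.inv_mul_cancel_left h, Γ.inv_mul]

/-- an idempotent arrow is a unit -/
lemma eq_unit_of_mul_self {a : G} (h : Γ.s a = Γ.r a) (h2 : Γ.mul a a = a) : a = Γ.unit (Γ.s a) := by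
  have := Γ.inv_mul_cancel_left h
  rw [h2, Γ.inv_mul] at this
  exact this.symm

/-- two arrows with `a⁻¹ b` a unit are equal -/
lemma eq_of_inv_mul {a b : G} (h : Γ.r a = Γ.r b) {x : X} (hx : Γ.mul (Γ.inv a) b = Γ.unit x) :
    a = b := by
  have h1 := Γ.mul_inv_cancel_left h
  rw [hx] at h1
  have h2 : Γ.r (Γ.mul (Γ.inv a) b) = Γ.r (Γ.unit x) := by rw [hx]
  rw [Γ.r_mul _ _ (by rw [Γ.s_inv, h]), Γ.r_inv, Γ.r_unit] at h2
  rw [← h2, Γ.mul_unit] at h1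
  exact h1

lemma unit_injective : Function.Injective Γ.unit := by
  intro x y h
  rw [← Γ.s_unit x, h, Γ.s_unit]

lemma isEmbedding_unit : IsEmbedding Γ.unit :=
  IsEmbedding.of_leftInverse (f := Γ.s) Γ.s_unit Γ.continuous_s Γ.continuous_unit

lemma isClosed_range_unit [T2Space G] : IsClosed (Set.range Γ.unit) := by
  have : Set.range Γ.unit = {g | Γ.unit (Γ.s g) = g} := by
    ext g
    constructor
    · rintro ⟨x, rfl⟩
      rw [Set.mem_ofPred_eq, Γ.s_unit]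
    · intro h
      exact ⟨Γ.s g, h⟩
  rw [this]
  exact isClosed_eq (Γ.continuous_unit.comp Γ.continuous_s) continuous_id

lemma t2Space (Γ : TopGroupoid X G) [T2Space G] : T2Space X := Γ.isEmbedding_unit.t2Space

lemma locallyCompactSpace (Γ : TopGroupoid X G) [T2Space G] [LocallyCompactSpace G] : LocallyCompactSpace X :=
  (Topology.IsClosedEmbedding.mk Γ.isEmbedding_unit Γ.isClosed_range_unit).locallyCompactSpace

/-- around each arrow there is an open bisection -/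
lemma exists_bisection (h : Γ.IsEtale) (g : G) : ∃ U : Set G, IsOpen U ∧ g ∈ U ∧ Set.InjOn Γ.s U ∧
    Set.InjOn Γ.r U := by
  obtain ⟨e1, h1, h1'⟩ := h.1 g
  obtain ⟨e2, h2, h2'⟩ := h.2 g
  refine ⟨e1.source ∩ e2.source, e1.open_source.inter e2.open_source, ⟨h1, h2⟩, ?_, ?_⟩
  · rw [h1']
    exact e1.injOn.mono Set.inter_subset_left
  · rw [h2']
    exact e2.injOn.mono Set.inter_subset_right

lemma isOpen_range_unit (h : Γ.IsEtale) : IsOpen (Set.range Γ.unit) := by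
  rw [isOpen_iff_mem_nhds]
  rintro _ ⟨x, rfl⟩
  obtain ⟨U, hU, hx, hs, -⟩ := Γ.exists_bisection h (Γ.unit x)
  have h1 : Continuous (fun g => Γ.unit (Γ.s g)) := Γ.continuous_unit.comp Γ.continuous_s
  have h2 : U ∩ (fun g => Γ.unit (Γ.s g)) ⁻¹' U ∈ 𝓝 (Γ.unit x) := by
    apply Filter.inter_mem (hU.mem_nhds hx)
    apply (hU.preimage h1).mem_nhds
    change Γ.unit (Γ.s (Γ.unit x)) ∈ U
    rw [Γ.s_unit]; exact hx
  filter_upwards [h2] with g hg
  refine ⟨Γ.s g, hs hg.2 hg.1 ?_⟩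
  rw [Γ.s_unit]

end TopGroupoid

namespace Twist

variable {X : Type u} {G : Type v} {S : Type w} [TopologicalSpace X] [TopologicalSpace G]
  [TopologicalSpace S] {𝒢 : TopGroupoid X G} (T : Twist 𝒢 S)

/-- The vector space of the continuous compactly supported functions `f : Σ → ℂ` with
`f (z · σ) = conj z * f σ`. -/
def CcS : Submodule ℂ (S → ℂ) where
  carrier := T.Cc
  add_mem' := fun {f g} hf hg => ⟨hf.1.add hg.1, hf.2.1.add hg.2.1, fun z σ => by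
    rw [Pi.add_apply, Pi.add_apply, hf.2.2, hg.2.2, mul_add]⟩
  zero_mem' := ⟨continuous_zero, HasCompactSupport.zero, fun z σ => by simp⟩
  smul_mem' := fun c f hf => ⟨hf.1.const_smul c, hf.2.1.smul_left (f := fun _ => c), fun z σ => by
    rw [Pi.smul_apply, Pi.smul_apply, hf.2.2, smul_eq_mul, smul_eq_mul, mul_left_comm]⟩

@[simp] lemma p_lift (γ : G) : T.p (T.lift γ) = γ := Function.surjInv_eq T.surjective_p γ

lemma s_lift (γ : G) : T.E.s (T.lift γ) = 𝒢.s γ := by rw [← T.s_p, p_lift]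

lemma r_lift (γ : G) : T.E.r (T.lift γ) = 𝒢.r γ := by rw [← T.r_p, p_lift]

lemma p_unit (x : X) : T.p (T.E.unit x) = 𝒢.unit x := by
  have h1 : 𝒢.s (T.p (T.E.unit x)) = x := by rw [T.s_p, T.E.s_unit]
  have h2 : 𝒢.r (T.p (T.E.unit x)) = x := by rw [T.r_p, T.E.r_unit]
  have h3 : T.E.mul (T.E.unit x) (T.E.unit x) = T.E.unit x := by
    have := T.E.unit_mul (T.E.unit x)
    rwa [T.E.r_unit] at this
  have h4 : 𝒢.mul (T.p (T.E.unit x)) (T.p (T.E.unit x)) = T.p (T.E.unit x) := by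
    rw [← T.p_mul _ _ (by rw [T.E.s_unit, T.E.r_unit]), h3]
  rw [𝒢.eq_unit_of_mul_self (by rw [h1, h2]) h4, h1]

lemma p_inv (σ : S) : T.p (T.E.inv σ) = 𝒢.inv (T.p σ) := by
  have h0 : 𝒢.s (T.p σ) = 𝒢.r (T.p (T.E.inv σ)) := by rw [T.s_p, T.r_p, T.E.r_inv]
  have h1 : 𝒢.mul (T.p σ) (T.p (T.E.inv σ)) = 𝒢.mul (T.p σ) (𝒢.inv (T.p σ)) := by
    rw [← T.p_mul _ _ (by rw [T.E.r_inv]), T.E.mul_inv, p_unit, 𝒢.mul_inv, T.r_p]
  exact 𝒢.mul_left_cancel h0 (by rw [𝒢.r_inv]) h1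

lemma i_one (x : X) : T.i (x, 1) = T.E.unit x := by
  have h := T.i_mul x 1 1
  rw [mul_one] at h
  rw [T.E.eq_unit_of_mul_self (a := T.i (x, 1)) (by rw [T.s_i, T.r_i]) h.symm, T.s_i]

lemma p_i (x : X) (z : Circle) : T.p (T.i (x, z)) = 𝒢.unit x := by
  have h : T.i (x, z) ∈ T.p ⁻¹' (Set.range 𝒢.unit) := by
    rw [← T.range_i]; exact ⟨_, rfl⟩
  obtain ⟨y, hy⟩ := h
  have h2 : 𝒢.s (T.p (T.i (x, z))) = x := by rw [T.s_p, T.s_i]
  rw [← hy, 𝒢.s_unit] at h2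
  rw [← hy, h2]

lemma i_injective : Function.Injective T.i := T.isEmbedding_i.injective

@[simp] lemma s_act (z : Circle) (σ : S) : T.E.s (T.act z σ) = T.E.s σ := by
  rw [act, T.E.s_mul _ _ (T.s_i _ _)]

@[simp] lemma r_act (z : Circle) (σ : S) : T.E.r (T.act z σ) = T.E.r σ := by
  rw [act, T.E.r_mul _ _ (T.s_i _ _), T.r_i]

@[simp] lemma p_act (z : Circle) (σ : S) : T.p (T.act z σ) = T.p σ := by
  rw [act, T.p_mul _ _ (T.s_i _ _), p_i, ← T.r_p, 𝒢.unit_mul]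

@[simp] lemma act_one (σ : S) : T.act 1 σ = σ := by
  rw [act, i_one, T.E.unit_mul]

lemma act_mul (z w : Circle) (σ : S) : T.act (z * w) σ = T.act z (T.act w σ) := by
  rw [act, T.i_mul, act, r_act, act, T.E.assoc _ _ _ (by rw [T.s_i, T.r_i]) (T.s_i _ _)]

lemma act_mul_left (z : Circle) {σ τ : S} (h : T.E.s σ = T.E.r τ) :
    T.E.mul (T.act z σ) τ = T.act z (T.E.mul σ τ) := by
  rw [act, act, T.E.assoc _ _ _ (T.s_i _ _) h, T.E.r_mul _ _ h]

lemma act_mul_right (z : Circle) {σ τ : S} (h : T.E.s σ = T.E.r τ) :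
    T.E.mul σ (T.act z τ) = T.act z (T.E.mul σ τ) := by
  rw [← T.act_mul_left z h, act, act, T.central σ z, ← h,
    T.E.assoc _ _ _ (by rw [T.r_i]) (by rw [T.s_i, h])]

lemma mul_act_act {z w : Circle} {σ τ : S} (h : T.E.s σ = T.E.r τ) :
    T.E.mul (T.act z σ) (T.act w τ) = T.act (z * w) (T.E.mul σ τ) := by
  rw [T.act_mul_left z (by rw [h, r_act]), T.act_mul_right w h, act_mul]

lemma i_eq_act (x : X) (z : Circle) : T.i (x, z) = T.act z (T.E.unit x) := by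
  rw [act, T.E.r_unit]
  have := T.E.mul_unit (T.i (x, z))
  rw [T.s_i] at this
  exact this.symm

lemma inv_act (z : Circle) (σ : S) : T.E.inv (T.act z σ) = T.act z⁻¹ (T.E.inv σ) := by
  have h1 : T.E.s (T.act z σ) = T.E.r (T.E.inv (T.act z σ)) := by rw [T.E.r_inv]
  have h2 : T.E.s (T.act z σ) = T.E.r (T.act z⁻¹ (T.E.inv σ)) := by
    rw [s_act, r_act, T.E.r_inv]
  apply T.E.mul_left_cancel h1 h2
  rw [T.E.mul_inv, T.mul_act_act (by rw [T.E.r_inv]), mul_inv_cancel, act_one, T.E.mul_inv, r_act]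

/-- elements of the twist above the same arrow differ by the action -/
lemma exists_act {σ τ : S} (h : T.p σ = T.p τ) : ∃ z : Circle, τ = T.act z σ := by
  have hs : T.E.s σ = T.E.s τ := by rw [← T.s_p, h, T.s_p]
  have hr : T.E.r σ = T.E.r τ := by rw [← T.r_p, h, T.r_p]
  have h1 : T.E.mul τ (T.E.inv σ) ∈ Set.range T.i := by
    rw [T.range_i]
    change T.p (T.E.mul τ (T.E.inv σ)) ∈ Set.range 𝒢.unit
    rw [T.p_mul _ _ (by rw [T.E.r_inv, hs]), p_inv, h, 𝒢.mul_inv]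
    exact ⟨_, rfl⟩
  obtain ⟨⟨x, z⟩, hz⟩ := h1
  refine ⟨z, ?_⟩
  have h2 : T.E.r (T.i (x, z)) = T.E.r τ := by
    rw [hz, T.E.r_mul _ _ (by rw [T.E.r_inv, hs])]
  rw [T.r_i] at h2
  rw [act, hr, ← h2, hz, T.E.inv_mul_cancel_right hs.symm]

lemma exists_act_lift (σ : S) : ∃ z : Circle, σ = T.act z (T.lift (T.p σ)) :=
  T.exists_act (by rw [p_lift])

section Top

lemma continuous_act : Continuous (fun q : Circle × S => T.act q.1 q.2) := by
  have h := T.E.continuousOn_mul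
  rw [continuousOn_iff_continuous_domRestrict] at h
  let F : Circle × S → {q : S × S | T.E.s q.1 = T.E.r q.2} := fun q =>
    ⟨(T.i (T.E.r q.2, q.1), q.2), T.s_i _ _⟩
  have hF : Continuous F := by
    apply Continuous.subtype_mk
    exact (T.isEmbedding_i.continuous.comp ((T.E.continuous_r.comp continuous_snd).prodMk
      continuous_fst)).prodMk continuous_snd
  exact h.comp hF

end Top

section Equi

variable {T} {f g : S → ℂ}

lemma Equivariant.add (hf : T.Equivariant f) (hg : T.Equivariant g) : T.Equivariant (f + g) := by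
  intro z σ
  rw [Pi.add_apply, Pi.add_apply, hf, hg, mul_add]

lemma Equivariant.norm_eq (hf : T.Equivariant f) {σ τ : S} (h : T.p σ = T.p τ) : ‖f σ‖ = ‖f τ‖ := by
  obtain ⟨z, rfl⟩ := T.exists_act h
  rw [hf, norm_mul, Complex.norm_conj, Circle.norm_coe, one_mul]

lemma Equivariant.ne_zero_iff (hf : T.Equivariant f) {σ τ : S} (h : T.p σ = T.p τ) :
    f σ ≠ 0 ↔ f τ ≠ 0 := by
  rw [← norm_ne_zero_iff, hf.norm_eq h, norm_ne_zero_iff]

lemma Equivariant.invol (hf : T.Equivariant f) : T.Equivariant (T.invol f) := by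
  intro z σ
  rw [Twist.invol, T.inv_act, hf, map_mul, Twist.invol, Complex.conj_conj, Circle.coe_inv_eq_conj]

/-- the terms of a convolution do not depend on the lift -/
lemma term_eq (hf : T.Equivariant f) (hg : T.Equivariant g) {τ τ' σ : S} (h : T.p τ = T.p τ')
    (hr : T.E.r τ = T.E.r σ) :
    f τ' * g (T.E.mul (T.E.inv τ') σ) = f τ * g (T.E.mul (T.E.inv τ) σ) := by
  obtain ⟨z, rfl⟩ := T.exists_act h
  rw [hf, T.inv_act, T.act_mul_left _ (by rw [T.E.s_inv, hr]), hg, Circle.coe_inv_eq_conj,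
    Complex.conj_conj]
  have : conj (z : ℂ) * (z : ℂ) = 1 := by
    rw [Complex.conj_mul', Circle.norm_coe]; simp
  linear_combination (f τ * g (T.E.mul (T.E.inv τ) σ)) * this

lemma Equivariant.conv (hg : T.Equivariant g) : T.Equivariant (T.conv f g) := by
  intro z σ
  rw [Twist.conv, Twist.conv, ← smul_eq_mul, smul_finsum]
  have e : ∀ γ : G, 𝒢.r γ = T.E.r (T.act z σ) ↔ 𝒢.r γ = T.E.r σ := by
    intro γ; rw [r_act]
  apply finsum_eq_of_bijective (fun γ => (⟨γ.1, (e γ.1).1 γ.2⟩ : {γ : G // 𝒢.r γ = T.E.r σ}))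
  · constructor
    · intro a b h
      exact Subtype.ext (by simpa using h)
    · intro b
      exact ⟨⟨b.1, (e b.1).2 b.2⟩, rfl⟩
  · rintro ⟨γ, hγ⟩
    simp only [smul_eq_mul]
    rw [T.act_mul_right z (by rw [T.E.s_inv, r_lift]; exact (e γ).1 hγ), hg]
    ring

/-- a convolution with only one nonzero term -/
lemma conv_eq_of_unique (hf : T.Equivariant f) (hg : T.Equivariant g) {τ σ : S}
    (hr : T.E.r τ = T.E.r σ)
    (h : ∀ τ', T.E.r τ' = T.E.r σ → T.p τ' ≠ T.p τ → f τ' * g (T.E.mul (T.E.inv τ') σ) = 0) :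
    T.conv f g σ = f τ * g (T.E.mul (T.E.inv τ) σ) := by
  rw [Twist.conv, finsum_eq_single _ (⟨T.p τ, by rw [T.r_p, hr]⟩ : {γ : G // 𝒢.r γ = T.E.r σ})]
  · exact term_eq hf hg (by rw [p_lift]) hr
  · rintro ⟨γ, hγ⟩ hne
    apply h
    · rw [r_lift, hγ]
    · rw [p_lift]
      intro h'
      exact hne (Subtype.ext h')

lemma exists_of_conv_ne_zero {σ : S} (h : T.conv f g σ ≠ 0) :
    ∃ τ, T.E.r τ = T.E.r σ ∧ f τ ≠ 0 ∧ g (T.E.mul (T.E.inv τ) σ) ≠ 0 := by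
  by_contra hcon
  apply h
  rw [Twist.conv]
  apply finsum_eq_zero_of_forall_eq_zero
  intro γ
  by_contra hγ
  exact hcon ⟨T.lift γ, by rw [r_lift, γ.2], left_ne_zero_of_mul hγ, right_ne_zero_of_mul hγ⟩

end Equi

end Twist

end Pool.Agent.H6.TG
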