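import Mathlib

/-!
# The closure of the finite rank operators
-/

set_option linter.unusedSectionVars false

open ContinuousLinearMap InnerProductSpace Topology Filter TopologicalSpace
open scoped ComplexConjugate Classical InnerProductSpace

namespace Pool.Agent.H6.TG

variable {E F G : Type*} [NormedAddCommGroup E] [InnerProductSpace ℂ E] [CompleteSpace E]
  [NormedAddCommGroup F] [InnerProductSpace ℂ F] [CompleteSpace F]
  [NormedAddCommGroup G] [InnerProductSpace ℂ G] [CompleteSpace G]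

/-- the closure of the finite rank operators -/
noncomputable def Kc (E F : Type*) [NormedAddCommGroup E] [InnerProductSpace ℂ E]
    [NormedAddCommGroup F] [InnerProductSpace ℂ F] : Submodule ℂ (E →L[ℂ] F) :=
  (Submodule.span ℂ (Set.range (fun p : F × E => (rankOne ℂ p.1 p.2 : E →L[ℂ] F)))).topologicalClosure

lemma rankOne_mem_Kc (x : F) (y : E) : rankOne ℂ x y ∈ Kc E F :=
  Submodule.le_topologicalClosure _ (Submodule.subset_span ⟨(x, y), rfl⟩)

lemma isClosed_Kc : IsClosed (Kc E F : Set (E →L[ℂ] F)) := Submodule.isClosed_topologicalClosure _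

lemma Kc_induction (V : Submodule ℂ (E →L[ℂ] F))
    (hV : IsClosed (V : Set (E →L[ℂ] F))) (h : ∀ x y, rankOne ℂ x y ∈ V) : Kc E F ≤ V := by
  apply Submodule.topologicalClosure_minimal _ _ hV
  rw [Submodule.span_le]
  rintro _ ⟨⟨x, y⟩, rfl⟩
  exact h x y

lemma comp_mem_Kc (T : F →L[ℂ] G) {k : E →L[ℂ] F} (hk : k ∈ Kc E F) : T ∘L k ∈ Kc E G := by
  have : Kc E F ≤ (Kc E G).comap (ContinuousLinearMap.postcomp E T).toLinearMap := by
    apply Kc_induction
    · exact isClosed_Kc.preimage (ContinuousLinearMap.postcomp E T).continuous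
    · intro x y
      rw [Submodule.mem_comap]
      change T ∘L (rankOne ℂ x y) ∈ Kc E G
      rw [comp_rankOne]
      exact rankOne_mem_Kc _ _
  exact this hk

lemma mem_Kc_comp (T : G →L[ℂ] E) {k : E →L[ℂ] F} (hk : k ∈ Kc E F) : k ∘L T ∈ Kc G F := by
  have : Kc E F ≤ (Kc G F).comap (ContinuousLinearMap.precomp F T).toLinearMap := by
    apply Kc_induction
    · exact isClosed_Kc.preimage (ContinuousLinearMap.precomp F T).continuous
    · intro x y
      rw [Submodule.mem_comap]
      change (rankOne ℂ x y) ∘L T ∈ Kc G F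
      rw [rankOne_comp]
      exact rankOne_mem_Kc _ _
  exact this hk

lemma adjoint_mem_Kc {k : E →L[ℂ] F} (hk : k ∈ Kc E F) : adjoint k ∈ Kc F E := by
  have h1 : k ∈ closure ((Submodule.span ℂ (Set.range (fun p : F × E => (rankOne ℂ p.1 p.2 : E →L[ℂ] F))) :
      Submodule ℂ (E →L[ℂ] F)) : Set (E →L[ℂ] F)) := hk
  have h2 : ∀ k ∈ (Submodule.span ℂ (Set.range (fun p : F × E => (rankOne ℂ p.1 p.2 : E →L[ℂ] F)))),
      adjoint k ∈ Kc F E := by
    intro k hk
    induction hk using Submodule.span_induction with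
    | mem x h =>
      obtain ⟨⟨x, y⟩, rfl⟩ := h
      rw [adjoint_rankOne]
      exact rankOne_mem_Kc _ _
    | zero => rw [map_zero]; exact Submodule.zero_mem _
    | add x y _ _ hx hy => rw [map_add]; exact Submodule.add_mem _ hx hy
    | smul a x _ hx => rw [map_smulₛₗ]; exact Submodule.smul_mem _ _ hx
  have h3 : IsClosed {k : E →L[ℂ] F | adjoint k ∈ Kc F E} :=
    isClosed_Kc.preimage (adjoint : (E →L[ℂ] F) ≃ₗᵢ⋆[ℂ] (F →L[ℂ] E)).continuous
  exact closure_minimal h2 h3 h1

lemma isCompactOperator_of_mem_Kc {k : E →L[ℂ] F} (hk : k ∈ Kc E F) : IsCompactOperator k := by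
  have h1 : k ∈ closure ((Submodule.span ℂ (Set.range (fun p : F × E => (rankOne ℂ p.1 p.2 : E →L[ℂ] F))) :
      Submodule ℂ (E →L[ℂ] F)) : Set (E →L[ℂ] F)) := hk
  have h2 : ∀ k ∈ (Submodule.span ℂ (Set.range (fun p : F × E => (rankOne ℂ p.1 p.2 : E →L[ℂ] F)))),
      IsCompactOperator k := by
    intro k hk
    induction hk using Submodule.span_induction with
    | mem x h =>
      obtain ⟨⟨x, y⟩, rfl⟩ := h
      have h1 : IsCompactOperator (innerSL ℂ y : E →L[ℂ] ℂ) :=
        isCompactOperator_of_locallyCompactSpace_dom _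
      exact h1.clm_comp (toSpanSingleton ℂ x)
    | zero => exact isCompactOperator_zero
    | add x y _ _ hx hy => exact hx.add hy
    | smul a x _ hx => exact hx.smul a
  exact closure_minimal h2 isClosed_setOfPred_isCompactOperator h1

/-- compact operators send bounded weakly null sequences to null sequences -/
lemma tendsto_of_mem_Kc {k : E →L[ℂ] F} (hk : k ∈ Kc E F) {ξ : ℕ → E} {C : ℝ} (hC : ∀ n, ‖ξ n‖ ≤ C)
    (hw : ∀ η, Tendsto (fun n => ⟪η, ξ n⟫_ℂ) atTop (𝓝 0)) : Tendsto (fun n => k (ξ n)) atTop (𝓝 0) := by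
  have h1 : k ∈ closure ((Submodule.span ℂ (Set.range (fun p : F × E => (rankOne ℂ p.1 p.2 : E →L[ℂ] F))) :
      Submodule ℂ (E →L[ℂ] F)) : Set (E →L[ℂ] F)) := hk
  have h2 : ∀ k ∈ (Submodule.span ℂ (Set.range (fun p : F × E => (rankOne ℂ p.1 p.2 : E →L[ℂ] F)))),
      Tendsto (fun n => k (ξ n)) atTop (𝓝 0) := by
    intro k hk
    induction hk using Submodule.span_induction with
    | mem x h =>
      obtain ⟨⟨x, y⟩, rfl⟩ := h
      simp only [rankOne_apply]
      have := (hw y).smul_const x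
      rwa [zero_smul] at this
    | zero => simp
    | add x y _ _ hx hy => simpa using hx.add hy
    | smul a x _ hx => simpa using hx.const_smul a
  rw [Metric.tendsto_atTop]
  intro ε hε
  have hC0 : 0 ≤ C := (norm_nonneg _).trans (hC 0)
  rw [Metric.mem_closure_iff] at h1
  obtain ⟨k', hk', hd⟩ := h1 (ε / 2 / (C + 1)) (by positivity)
  obtain ⟨N, hN⟩ := (Metric.tendsto_atTop.1 (h2 k' hk')) (ε / 2) (by positivity)
  refine ⟨N, fun n hn => ?_⟩
  have h3 := hN n hn
  rw [dist_zero_right] at h3 ⊢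
  have h4 : k (ξ n) = (k - k') (ξ n) + k' (ξ n) := by simp
  rw [h4]
  have h5 : ‖(k - k') (ξ n)‖ ≤ ε / 2 := by
    calc ‖(k - k') (ξ n)‖ ≤ ‖k - k'‖ * ‖ξ n‖ := le_opNorm _ _
      _ ≤ (ε / 2 / (C + 1)) * (C + 1) := by
        rw [dist_eq_norm] at hd
        gcongr
        linarith [hC n]
      _ = ε / 2 := by field_simp
  calc _ ≤ ‖(k - k') (ξ n)‖ + ‖k' (ξ n)‖ := norm_add_le _ _
    _ < ε := by linarith

/-- The Fredholm alternative in the form we need. -/
lemma isUnit_of_injective [Nontrivial E] {B k : E →L[ℂ] E} (hB : IsUnit B) (hk : k ∈ Kc E E)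
    (hinj : Function.Injective (B + k)) : IsUnit (B + k) := by
  obtain ⟨u, rfl⟩ := hB
  have h1 : (u : E →L[ℂ] E) + k = u * (1 + (↑u⁻¹ : E →L[ℂ] E) * k) := by
    rw [mul_add, mul_one, ← mul_assoc, Units.mul_inv, one_mul]
  rw [h1]
  apply IsUnit.mul u.isUnit
  set k' : E →L[ℂ] E := (↑u⁻¹ : E →L[ℂ] E) * k with hk'
  have h2 : k' ∈ Kc E E := comp_mem_Kc _ hk
  have h3 := isCompactOperator_of_mem_Kc h2
  have h4 := h3.hasEigenvalue_or_mem_resolventSet (μ := (-1 : ℂ)) (by norm_num)
  rcases h4 with h4 | h4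
  · exfalso
    obtain ⟨v, hv⟩ := h4.exists_hasEigenvector
    apply hv.2
    apply hinj
    rw [h1, map_zero]
    change (u : E →L[ℂ] E) ((1 + k') v) = 0
    have : (1 + k') v = 0 := by
      have := hv.apply_eq_smul
      simp at this
      simp [this]
    rw [this, map_zero]
  · rw [spectrum.mem_resolventSet_iff] at h4
    have : (1 + k') = -(algebraMap ℂ (E →L[ℂ] E) (-1) - k') := by
      rw [map_neg, map_one]; abel
    rw [this]
    exact h4.neg

lemma isSeparable_Kc [SeparableSpace E] [SeparableSpace F] :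
    IsSeparable (Kc E F : Set (E →L[ℂ] F)) := by
  have h1 : IsSeparable (Set.range (fun p : F × E => (rankOne ℂ p.1 p.2 : E →L[ℂ] F))) := by
    apply isSeparable_range
    exact ((smulRightL ℂ E F).continuous.comp ((innerSL ℂ (E := E)).continuous.comp
      continuous_snd)).clm_apply continuous_fst
  exact (h1.span (R := ℂ)).closure

end Pool.Agent.H6.TG
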