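import Pool.Agent.H6.TG.Example

/-!
# The example algebra carries no diagonal data
-/

set_option linter.unusedSectionVars false

open ContinuousLinearMap InnerProductSpace Topology Filter TopologicalSpace
open scoped ComplexConjugate Classical InnerProductSpace ENNReal lp

namespace Pool.Agent.H6.TG

lemma Lo_coord_injective : Function.Injective (Lo coord) := by
  rw [injective_iff_map_eq_zero]
  intro ξ h
  ext i
  have h1 : ∀ i, Lo coord ξ i = 0 := by intro i; rw [h]; rfl
  rcases i with n | x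
  · have h2 := h1 (Sum.inl (n + 1))
    rw [Lo_apply, psi_coord, Rr_apply, emb_inl, Ww_inl] at h2
    have h3 := Vv_emb ξ (Sum.inl n)
    rw [emb_inl] at h3
    have h4 : ((n + 1 : ℕ) : ℤ) - 1 = n := by push_cast; ring
    rw [h4] at h2
    rw [← h3]
    exact h2
  · have h2 := h1 (Sum.inr x)
    rw [Lo_apply, psi_coord, Rr_apply, emb_inr, Ww_inr] at h2
    have h3 := Vv_emb ξ (Sum.inr x)
    rw [emb_inr] at h3
    rw [h3] at h2
    rcases mul_eq_zero.1 h2 with h4 | h4
    · exfalso
      have := one_lt_norm_pts x.1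
      rw [h4, norm_zero] at this
      linarith
    · exact h4

lemma not_isUnit_Lo_coord : ¬ IsUnit (Lo coord) := by
  intro h
  obtain ⟨u, hu⟩ := h
  have h1 : Lo coord ((↑u⁻¹ : HI →L[ℂ] HI) (e (Sum.inl 0))) = e (Sum.inl 0) := by
    rw [← hu]
    change ((u : HI →L[ℂ] HI) * (↑u⁻¹ : HI →L[ℂ] HI)) (e (Sum.inl 0)) = _
    rw [Units.mul_inv]; rfl
  have h2 : Lo coord ((↑u⁻¹ : HI →L[ℂ] HI) (e (Sum.inl 0))) (Sum.inl 0) = 0 := by
    rw [Lo_apply, psi_coord, Rr_apply, emb_inl, Ww_inl, Vv_out]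
    rintro ⟨i, hi⟩
    rcases i with m | x
    · rw [emb_inl] at hi
      have := Sum.inl.inj hi
      simp at this
    · rw [emb_inr] at hi
      cases hi
  rw [h1, e_apply, if_pos rfl] at h2
  exact one_ne_zero h2

instance : Nontrivial HI := ⟨⟨e (Sum.inl 0), 0, by
  intro h
  have := norm_e (I := II) (Sum.inl 0)
  rw [h, norm_zero] at this
  exact zero_ne_one this⟩⟩

/-- A normal operator cannot be a compact perturbation of `Lo g`, when `g` is bounded below and is the
coordinate on the circle. -/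
lemma no_normal (g : C(Y0, ℂ)) {c : ℝ} (hc : 0 < c) (hg : ∀ y, c ≤ ‖g y‖)
    (hcirc : ∀ y : Y0, ‖(y : ℂ)‖ = 1 → g y = y) (T : HI →L[ℂ] HI) (hT : IsStarNormal T)
    (hk : T - Lo g ∈ Kc HI HI) : False := by
  have hg0 : ∀ y, g y ≠ 0 := by
    intro y h
    have := hg y
    rw [h, norm_zero] at this
    linarith
  have hy0 : ∀ y : Y0, (y : ℂ) ≠ 0 := by
    intro y h
    rcases norm_eq_one_or (y := y) with h1 | h1
    · rw [h, norm_zero] at h1; exact zero_ne_one h1
    · rw [h, norm_zero] at h1; linarith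
  -- the projection onto the kernel of `T`
  let Kr : Submodule ℂ HI := LinearMap.ker T.toLinearMap
  have hKc : IsClosed (Kr : Set HI) := isClosed_singleton.preimage T.continuous
  have : CompleteSpace Kr := hKc.completeSpace_coe
  let P0 : HI →L[ℂ] HI := Kr.starProjection
  have hP0s : star P0 = P0 := by
    rw [star_eq_adjoint]
    symm
    rw [eq_adjoint_iff]
    intro x y
    exact Submodule.inner_starProjection_left_eq_right _ _ _
  have hP0P0 : P0 * P0 = P0 := Kr.isIdempotentElem_starProjection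
  have hTP0 : T * P0 = 0 := by
    ext1 x
    exact Kr.starProjection_apply_mem x
  have hTsP0 : star T * P0 = 0 := by
    ext1 x
    have h1 : T (P0 x) = 0 := Kr.starProjection_apply_mem x
    have h2 := (isStarNormal_iff_norm_eq_adjoint.1 hT) (P0 x)
    rw [h1, norm_zero] at h2
    exact norm_eq_zero.1 h2.symm
  have hP0T : P0 * T = 0 := by
    have := congrArg star hTsP0
    rwa [star_mul, star_star, hP0s, star_zero] at this
  have hP0Ts : P0 * star T = 0 := by
    have := congrArg star hTP0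
    rwa [star_mul, hP0s, star_zero] at this
  -- compact remainders
  have hks : star T - Lo (star g) ∈ Kc HI HI := by
    have := adjoint_mem_Kc hk
    rw [map_sub, ← Lo_star] at this
    exact this
  have hU : IsUnit (Lo (star g * g)) := isUnit_Lo_star_mul hc hg
  have hP0c : P0 ∈ Kc HI HI := by
    have h1 : Lo (star g * g) * P0 ∈ Kc HI HI := by
      have e1 : Lo (star g * g) * P0 = (Lo (star g * g) - Lo (star g) * Lo g) * P0
          - (Lo (star g) * (T - Lo g)) * P0 + Lo (star g) * (T * P0) := by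
        noncomm_ring
      rw [e1, hTP0, mul_zero, add_zero]
      exact Submodule.sub_mem _ (mem_Kc_comp _ (Lo_mul_mem _ _))
        (mem_Kc_comp _ (comp_mem_Kc _ hk))
    obtain ⟨u, hu⟩ := hU
    have h2 : P0 = (↑u⁻¹ : HI →L[ℂ] HI) * (Lo (star g * g) * P0) := by
      rw [← hu, ← mul_assoc, Units.inv_mul, one_mul]
    rw [h2]
    exact comp_mem_Kc _ h1
  -- the modified operator
  let T' : HI →L[ℂ] HI := T + P0
  have e1 : star T' * T' = star T * T + P0 := by
    change star (T + P0) * (T + P0) = _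
    rw [star_add, hP0s, add_mul, mul_add, mul_add, hTsP0, hP0T, hP0P0, add_zero, zero_add]
  have e2 : T' * star T' = star T * T + P0 := by
    change (T + P0) * star (T + P0) = _
    rw [star_add, hP0s, add_mul, mul_add, mul_add, hTP0, hP0Ts, hP0P0, add_zero, zero_add,
      hT.star_comm_self.eq]
  have hinj : Function.Injective (star T * T + P0) := by
    rw [injective_iff_map_eq_zero]
    intro ξ h
    have h1 : ⟪T ξ, T ξ⟫_ℂ + ⟪P0 ξ, P0 ξ⟫_ℂ = 0 := by
      have h2 : ⟪(star T * T + P0) ξ, ξ⟫_ℂ = 0 := by rw [h, inner_zero_left]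
      rw [add_apply, inner_add_left, mul_apply_eq_comp, star_eq_adjoint, adjoint_inner_left] at h2
      have h3 : ⟪P0 ξ, ξ⟫_ℂ = ⟪P0 ξ, P0 ξ⟫_ℂ := by
        have h4 : P0 (P0 ξ) = P0 ξ := by
          rw [← mul_apply_eq_comp, hP0P0]
        calc ⟪P0 ξ, ξ⟫_ℂ = ⟪P0 (P0 ξ), ξ⟫_ℂ := by rw [h4]
          _ = ⟪P0 ξ, P0 ξ⟫_ℂ := Submodule.inner_starProjection_left_eq_right _ _ _
      rwa [h3] at h2
    rw [inner_self_eq_norm_sq_to_K, inner_self_eq_norm_sq_to_K] at h1
    have h2 : ‖T ξ‖ ^ 2 + ‖P0 ξ‖ ^ 2 = 0 := by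
      have h3 : ((‖T ξ‖ ^ 2 + ‖P0 ξ‖ ^ 2 : ℝ) : ℂ) = 0 := by push_cast; exact h1
      exact_mod_cast h3
    have h3 : ‖T ξ‖ = 0 := by nlinarith [sq_nonneg ‖T ξ‖, sq_nonneg ‖P0 ξ‖]
    have h4 : ‖P0 ξ‖ = 0 := by nlinarith [sq_nonneg ‖T ξ‖, sq_nonneg ‖P0 ξ‖]
    have h5 : ξ ∈ Kr := norm_eq_zero.1 h3
    have h6 : P0 ξ = ξ := Submodule.starProjection_eq_self_iff.2 h5
    rw [← h6]
    exact norm_eq_zero.1 h4
  have hU2 : IsUnit (star T * T + P0) := by
    have e3 : star T * T + P0 = Lo (star g * g) + (star T * T + P0 - Lo (star g * g)) := by abel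
    rw [e3]
    apply isUnit_of_injective hU
    · have e4 : star T * T + P0 - Lo (star g * g) = star T * (T - Lo g) +
          (star T - Lo (star g)) * Lo g - (Lo (star g * g) - Lo (star g) * Lo g) + P0 := by
        noncomm_ring
      rw [e4]
      exact Submodule.add_mem _ (Submodule.sub_mem _ (Submodule.add_mem _ (comp_mem_Kc _ hk)
        (mem_Kc_comp _ hks)) (Lo_mul_mem _ _)) hP0c
    · rw [← e3]; exact hinj
  have hU3 : IsUnit T' := by
    have hcomm : Commute (star T') T' := by
      change star T' * T' = T' * star T'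
      rw [e1, e2]
    rw [← e1] at hU2
    exact (hcomm.isUnit_mul_iff.1 hU2).2
  -- the function `h`
  let h : C(Y0, ℂ) := ⟨fun y => (y : ℂ) / g y, continuous_subtype_val.div₀ g.continuous hg0⟩
  let h' : C(Y0, ℂ) := ⟨fun y => g y / (y : ℂ), g.continuous.div₀ continuous_subtype_val hy0⟩
  have hh : ∀ y : Y0, ‖(y : ℂ)‖ = 1 → h y = 1 := by
    intro y hy
    change (y : ℂ) / g y = 1
    rw [hcirc y hy, div_self (hy0 y)]
  have hh' : ∀ y : Y0, ‖(y : ℂ)‖ = 1 → h' y = 1 := by
    intro y hy
    change g y / (y : ℂ) = 1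
    rw [hcirc y hy, div_self (hy0 y)]
  have hhh : h * h' = 1 := by
    ext y
    change ((y : ℂ) / g y) * (g y / (y : ℂ)) = 1
    have := hg0 y
    have := hy0 y
    field_simp
  have hgh : g * h = coord := by
    ext y
    change g y * ((y : ℂ) / g y) = y
    have := hg0 y
    field_simp
  have hUh : IsUnit (Lo h) := isUnit_Lo_of_circle hh hh' hhh
  have e5 : Lo coord = Lo g * Lo h := by
    rw [← hgh, Lo_mul, Hk_of_circle_one hh, comp_zero, add_zero]
  have e6 : Lo coord = T' * Lo h + (-(T - Lo g) - P0) * Lo h := by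
    rw [e5]
    change _ = (T + P0) * Lo h + _
    noncomm_ring
  apply not_isUnit_Lo_coord
  rw [e6]
  apply isUnit_of_injective (hU3.mul hUh)
  · exact mem_Kc_comp _ (Submodule.sub_mem _ (Submodule.neg_mem _ hk) hP0c)
  · rw [← e6]; exact Lo_coord_injective

theorem no_diag {X : Type*} [TopologicalSpace X] [CompactSpace X] [T2Space X]
    (D : DiagData AA X) : False := by
  let s : AA := lift coord
  have hs : AAext.π s = coord := rfl
  let d : AA := D.ι (D.E s)
  have hd : AAext.π d = Ebar AAext D coord := by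
    rw [← hs, Ebar_π]
  apply no_normal (Ebar AAext D coord) (c := 1 / 2) (by norm_num) (half_le_norm_Ebar AAext D)
    (fun y hy => Ebar_circle AAext D hy coord) (AAext.ρ d)
  · constructor
    change star (AAext.ρ d) * AAext.ρ d = AAext.ρ d * star (AAext.ρ d)
    rw [← map_star, ← map_mul, ← map_mul]
    change AAext.ρ (star (D.ι (D.E s)) * D.ι (D.E s)) = AAext.ρ (D.ι (D.E s) * star (D.ι (D.E s)))
    rw [← map_star, ← map_mul, ← map_mul, mul_comm]
  · rw [← hd]
    exact (mem_AAset _).1 d.2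

end Pool.Agent.H6.TG
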