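import Pool.Agent.H6.TG.ToDiag
import Pool.Agent.H6.TG.NoDiag

/-!
# The example algebra is not a reduced twisted groupoid C*-algebra
-/

namespace Pool.Agent.H6.TG

universe u v w

theorem not_reduced {X : Type u} {G : Type v} {S : Type w} [TopologicalSpace X]
    [TopologicalSpace G] [TopologicalSpace S] [T2Space G] [LocallyCompactSpace G] [T2Space S]
    (𝒢 : TopGroupoid X G) (hG : 𝒢.IsEtale) (T : Twist 𝒢 S) : ¬ T.IsReducedCStarAlgebra AA := by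
  rintro ⟨Φ, h0, h1, h2, h3, h4⟩
  have hadd : ∀ f g : T.CcS, Φ ⟨(f + g).1, (f + g).2⟩ = Φ ⟨f.1, f.2⟩ + Φ ⟨g.1, g.2⟩ := by
    intro f g
    have := h0 1 ⟨f.1, f.2⟩ ⟨g.1, g.2⟩ ⟨(f + g).1, (f + g).2⟩ (fun σ => by
      rw [one_mul]; rfl)
    rwa [one_smul] at this
  have hzero : Φ ⟨0, T.CcS.zero_mem⟩ = 0 := by
    have := h0 1 ⟨0, T.CcS.zero_mem⟩ ⟨0, T.CcS.zero_mem⟩ ⟨0, T.CcS.zero_mem⟩ (fun σ => by simp)
    rw [one_smul] at this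
    exact left_eq_add.1 this
  have hsmul : ∀ (c : ℂ) (f : T.CcS), Φ ⟨(c • f).1, (c • f).2⟩ = c • Φ ⟨f.1, f.2⟩ := by
    intro c f
    have := h0 c ⟨f.1, f.2⟩ ⟨0, T.CcS.zero_mem⟩ ⟨(c • f).1, (c • f).2⟩ (fun σ =>
      (add_zero (c * f.1 σ)).symm)
    rwa [hzero, add_zero] at this
  let Φ' : T.CcS →ₗ[ℂ] AA :=
    { toFun := fun f => Φ ⟨f.1, f.2⟩
      map_add' := hadd
      map_smul' := hsmul }
  let R : Rlz T AA := ⟨Φ', fun f g h e => h1 ⟨f.1, f.2⟩ ⟨g.1, g.2⟩ ⟨h.1, h.2⟩ e,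
    fun f g e => h2 ⟨f.1, f.2⟩ ⟨g.1, g.2⟩ e, fun f c hc => h3 ⟨f.1, f.2⟩ c hc, h4, hG⟩
  have : T2Space X := 𝒢.t2Space
  have : CompactSpace X := R.compactSpace
  exact no_diag R.diag

theorem main : ∃ (A : Type) (_ : CStarAlgebra A), TopologicalSpace.SeparableSpace A ∧
    ∀ (X : Type u) (G : Type v) (S : Type w) [TopologicalSpace X] [TopologicalSpace G]
      [TopologicalSpace S] [T2Space G] [LocallyCompactSpace G] [T2Space S] [LocallyCompactSpace S]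
      (𝒢 : TopGroupoid X G) (T : Twist 𝒢 S), 𝒢.IsEtale → ¬ T.IsReducedCStarAlgebra A :=
  ⟨AA, inferInstance, separable_AA, fun _ _ _ _ _ _ _ _ _ _ 𝒢 T hG => not_reduced 𝒢 hG T⟩

end Pool.Agent.H6.TG
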