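import Pool.Agent.H6.TG.Data

/-!
# Diagonal data on a C*-algebra of operators containing the compact operators

We show that the conditional expectation maps the compact operators to themselves.
-/

set_option linter.unusedSectionVars false

open ContinuousLinearMap InnerProductSpace Topology Filter
open scoped ComplexConjugate Classical InnerProductSpace

namespace Pool.Agent.H6.TG

/-- A faithful representation of a C*-algebra whose image contains all operators of rank one. -/
structure RepData (A : Type*) [CStarAlgebra A] (H : Type*) [NormedAddCommGroup H]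
    [InnerProductSpace ℂ H] [CompleteSpace H] where
  ρ : A →⋆ₐ[ℂ] (H →L[ℂ] H)
  inj : Function.Injective ρ
  th : H → H → A
  ρ_th : ∀ ξ η, ρ (th ξ η) = rankOne ℂ ξ η

namespace RepData

variable {A : Type*} [CStarAlgebra A] {H : Type*} [NormedAddCommGroup H]
    [InnerProductSpace ℂ H] [CompleteSpace H] (P : RepData A H)

lemma norm_ρ (a : A) : ‖P.ρ a‖ = ‖a‖ := NonUnitalStarAlgHom.norm_map P.ρ P.inj a

lemma norm_th (ξ η : H) : ‖P.th ξ η‖ = ‖ξ‖ * ‖η‖ := by
  rw [← P.norm_ρ, P.ρ_th, norm_rankOne]

lemma mul_th (a : A) (ξ η : H) : a * P.th ξ η = P.th (P.ρ a ξ) η := by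
  apply P.inj
  rw [map_mul, P.ρ_th, P.ρ_th, mul_def, comp_rankOne]

lemma star_th (ξ η : H) : star (P.th ξ η) = P.th η ξ := by
  apply P.inj
  rw [map_star, P.ρ_th, P.ρ_th, star_eq_adjoint, adjoint_rankOne]

lemma th_mul (a : A) (ξ η : H) : P.th ξ η * a = P.th ξ (P.ρ (star a) η) := by
  have h := P.mul_th (star a) η ξ
  have h2 := congrArg star h
  rw [star_mul, star_star, P.star_th, P.star_th] at h2
  exact h2

lemma th_mul_th (ξ η ζ χ : H) : P.th ξ η * P.th ζ χ = ⟪η, ζ⟫_ℂ • P.th ξ χ := by
  apply P.inj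
  rw [map_mul, map_smul, P.ρ_th, P.ρ_th, P.ρ_th, mul_def, rankOne_comp_rankOne]

/-- the ideal of compact operators -/
noncomputable def K : Submodule ℂ A := (Submodule.span ℂ (Set.range (fun p : H × H => P.th p.1 p.2))).topologicalClosure

lemma th_mem_K (ξ η : H) : P.th ξ η ∈ P.K :=
  Submodule.le_topologicalClosure _ (Submodule.subset_span ⟨(ξ, η), rfl⟩)

lemma isClosed_K : IsClosed (P.K : Set A) := Submodule.isClosed_topologicalClosure _

/-- To prove that a continuous linear map sends `K` to a closed submodule it is enough to look at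
the operators `th ξ ξ`. -/
lemma K_le_of_diag {B : Type*} [NormedAddCommGroup B] [NormedSpace ℂ B] (T : A →L[ℂ] B)
    (V : Submodule ℂ B) (hV : IsClosed (V : Set B)) (h : ∀ ξ, T (P.th ξ ξ) ∈ V) :
    ∀ a ∈ P.K, T a ∈ V := by
  have hpol : ∀ ξ η, T (P.th ξ η) ∈ V := by
    intro ξ η
    have e : P.th ξ η = (1 / 4 : ℂ) • (P.th (ξ + η) (ξ + η) - P.th (ξ - η) (ξ - η)
        + Complex.I • P.th (ξ + Complex.I • η) (ξ + Complex.I • η)
        - Complex.I • P.th (ξ - Complex.I • η) (ξ - Complex.I • η)) := by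
      apply P.inj
      simp only [map_smul, map_sub, map_add, P.ρ_th]
      ext z
      simp only [rankOne_apply, add_apply, sub_apply,
        smul_apply, inner_add_left, inner_sub_left, inner_smul_left, Complex.conj_I]
      match_scalars
      · linear_combination ((1 / 2 : ℂ) * ⟪η, z⟫_ℂ) * Complex.I_sq
      · linear_combination (-(1 / 2 : ℂ) * ⟪ξ, z⟫_ℂ) * Complex.I_sq
    rw [e, map_smul, map_sub, map_add, map_sub, map_smul, map_smul]
    apply V.smul_mem
    apply V.sub_mem
    apply V.add_mem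
    apply V.sub_mem (h _) (h _)
    apply V.smul_mem _ (h _)
    apply V.smul_mem _ (h _)
  intro a ha
  have h1 : (Submodule.span ℂ (Set.range (fun p : H × H => P.th p.1 p.2))) ≤
      V.comap T.toLinearMap := by
    rw [Submodule.span_le]
    rintro _ ⟨⟨ξ, η⟩, rfl⟩
    exact hpol ξ η
  have h2 : P.K ≤ V.comap T.toLinearMap := by
    apply Submodule.topologicalClosure_minimal _ h1
    exact hV.preimage T.continuous
  exact h2 ha

lemma mul_mem_K (a : A) {k : A} (hk : k ∈ P.K) : a * k ∈ P.K := by
  have : ∀ a, ∀ k ∈ P.K, (ContinuousLinearMap.mul ℂ A a) k ∈ P.K := by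
    intro a
    apply P.K_le_of_diag _ _ P.isClosed_K
    intro ξ
    rw [ContinuousLinearMap.mul_apply', P.mul_th]
    exact P.th_mem_K _ _
  exact this a k hk

lemma mem_K_mul (a : A) {k : A} (hk : k ∈ P.K) : k * a ∈ P.K := by
  have : ∀ a, ∀ k ∈ P.K, ((ContinuousLinearMap.mul ℂ A).flip a) k ∈ P.K := by
    intro a
    apply P.K_le_of_diag _ _ P.isClosed_K
    intro ξ
    rw [ContinuousLinearMap.flip_apply, ContinuousLinearMap.mul_apply', P.th_mul]
    exact P.th_mem_K _ _
  exact this a k hk

end RepData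

end Pool.Agent.H6.TG
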