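import Pool.Agent.H6.TG.Op
import Pool.Agent.H6.TG.Fibre

/-!
# The conditional expectation of a compact operator is compact
-/

set_option linter.unusedSectionVars false

open ContinuousLinearMap InnerProductSpace Topology Filter
open scoped ComplexConjugate Classical InnerProductSpace

namespace Pool.Agent.H6.TG

variable {A : Type*} [CStarAlgebra A] {X : Type*} [TopologicalSpace X]
    [CompactSpace X] [T2Space X] {H : Type*} [NormedAddCommGroup H]
    [InnerProductSpace ℂ H] [CompleteSpace H] (P : RepData A H) (D : DiagData A X)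

lemma norm_apply_sq (a : A) (ξ : H) : ‖P.ρ a ξ‖ ^ 2 = (⟪ξ, P.ρ (star a * a) ξ⟫_ℂ).re := by
  rw [map_mul, map_star, star_eq_adjoint, mul_def, comp_apply, adjoint_inner_right,
    inner_self_eq_norm_sq_to_K]
  norm_cast

lemma star_cx (h : C(X, ℝ)) : star (cx h) = cx h := by
  ext y; simp

/-- a level set of the expectation of a rank one operator is small -/
lemma card_le_of_lt (ξ : H) {c : ℝ} (F : Finset X)
    (hF : ∀ x ∈ F, c < (D.E (P.th ξ ξ) x).re) : (F.card : ℝ) * c ≤ ‖ξ‖ ^ 2 := by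
  obtain ⟨U, hU, hdis⟩ := F.finite_toSet.t2_separation
  have hbump : ∀ x : X, ∃ h : C(X, ℝ), h x = 1 ∧ (∀ y, y ∉ U x → h y = 0) ∧
      ∀ y, h y ∈ Set.Icc (0 : ℝ) 1 := by
    intro x
    obtain ⟨h, h0, h1, h2⟩ := exists_continuous_zero_one_of_isClosed
      (hU x).2.isClosed_compl (isClosed_singleton (x := x))
      (Set.disjoint_singleton_right.2 (fun hh => hh (hU x).1))
    exact ⟨h, h1 (Set.mem_singleton _), fun y hy => h0 hy, h2⟩
  choose h hx h0 h1 using hbump
  -- pointwise lower bound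
  have hlow : ∀ x ∈ F, c ≤ ‖P.ρ (D.ι (cx (h x))) ξ‖ ^ 2 := by
    intro x hxF
    have e1 : D.ι (cx (h x)) * P.th ξ ξ * D.ι (cx (h x)) =
        P.th (P.ρ (D.ι (cx (h x))) ξ) (P.ρ (D.ι (cx (h x))) ξ) := by
      rw [P.mul_th, P.th_mul, ← map_star, star_cx]
    have e2 : D.E (D.ι (cx (h x)) * P.th ξ ξ * D.ι (cx (h x))) x = D.E (P.th ξ ξ) x := by
      rw [D.E_right, D.E_left]
      simp [hx]
    have e3 : ‖D.E (P.th ξ ξ) x‖ ≤ ‖P.ρ (D.ι (cx (h x))) ξ‖ ^ 2 := by
      rw [← e2]
      refine (ContinuousMap.norm_coe_le_norm _ _).trans ((D.norm_E_le _).trans ?_)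
      rw [e1, P.norm_th, sq]
    exact (hF x hxF).le.trans ((Complex.re_le_norm _).trans e3)
  -- sum
  have hsum : ∑ x ∈ F, ‖P.ρ (D.ι (cx (h x))) ξ‖ ^ 2 ≤ ‖ξ‖ ^ 2 := by
    have e1 : ∑ x ∈ F, ‖P.ρ (D.ι (cx (h x))) ξ‖ ^ 2 =
        (⟪ξ, P.ρ (D.ι (∑ x ∈ F, cx (h x) * cx (h x))) ξ⟫_ℂ).re := by
      rw [map_sum, map_sum, sum_apply, inner_sum, Complex.re_sum]
      apply Finset.sum_congr rfl
      intro x _
      rw [norm_apply_sq, ← map_star, star_cx, ← map_mul]
    rw [e1]
    have e2 : ‖∑ x ∈ F, cx (h x) * cx (h x)‖ ≤ 1 := by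
      rw [ContinuousMap.norm_le _ zero_le_one]
      intro y
      rw [ContinuousMap.sum_apply]
      have e3 : ∀ x ∈ F, (cx (h x) * cx (h x)) y = ((h x y * h x y : ℝ) : ℂ) := by
        intro x _; simp
      rw [Finset.sum_congr rfl e3, ← Complex.ofReal_sum, Complex.norm_real,
        Real.norm_of_nonneg (Finset.sum_nonneg fun x _ => mul_self_nonneg _)]
      by_cases hy : ∃ x ∈ F, y ∈ U x
      · obtain ⟨x, hxF, hyx⟩ := hy
        rw [Finset.sum_eq_single x]
        · have := h1 x y
          nlinarith [this.1, this.2]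
        · intro z hz hzx
          have : y ∉ U z := fun hyz =>
            Set.disjoint_left.1 (hdis hz hxF hzx) hyz hyx
          rw [h0 z y this]; ring
        · intro hh; exact absurd hxF hh
      · push Not at hy
        rw [Finset.sum_eq_zero]
        · exact zero_le_one
        · intro x hxF
          rw [h0 x y (hy x hxF)]; ring
    calc (⟪ξ, P.ρ (D.ι (∑ x ∈ F, cx (h x) * cx (h x))) ξ⟫_ℂ).re
        ≤ ‖⟪ξ, P.ρ (D.ι (∑ x ∈ F, cx (h x) * cx (h x))) ξ⟫_ℂ‖ := Complex.re_le_norm _
      _ ≤ ‖ξ‖ * ‖P.ρ (D.ι (∑ x ∈ F, cx (h x) * cx (h x))) ξ‖ := norm_inner_le_norm _ _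
      _ ≤ ‖ξ‖ * (‖P.ρ (D.ι (∑ x ∈ F, cx (h x) * cx (h x)))‖ * ‖ξ‖) := by
          gcongr; exact le_opNorm _ _
      _ ≤ ‖ξ‖ * (1 * ‖ξ‖) := by
          gcongr
          rw [P.norm_ρ]
          exact (D.norm_ι_le _).trans e2
      _ = ‖ξ‖ ^ 2 := by ring
  calc (F.card : ℝ) * c = ∑ x ∈ F, c := by rw [Finset.sum_const, nsmul_eq_mul]
    _ ≤ ∑ x ∈ F, ‖P.ρ (D.ι (cx (h x))) ξ‖ ^ 2 := Finset.sum_le_sum hlow
    _ ≤ _ := hsum

lemma finite_level (ξ : H) {c : ℝ} (hc : 0 < c) : {x | c < (D.E (P.th ξ ξ) x).re}.Finite := by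
  by_contra hinf
  obtain ⟨n, hn⟩ := exists_nat_gt (‖ξ‖ ^ 2 / c)
  obtain ⟨F, hFs, hFc⟩ := Set.Infinite.exists_subset_card_eq hinf n
  have := card_le_of_lt P D ξ F (fun x hx => hFs hx)
  rw [hFc] at this
  rw [div_lt_iff₀ hc] at hn
  linarith

lemma isOpen_singleton_of_level (ξ : H) {c : ℝ} (hc : 0 < c) {x : X}
    (hx : c < (D.E (P.th ξ ξ) x).re) : IsOpen ({x} : Set X) := by
  have hf := finite_level P D ξ hc
  have ho : IsOpen {x | c < (D.E (P.th ξ ξ) x).re} := by
    apply isOpen_lt continuous_const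
    exact Complex.continuous_re.comp (D.E (P.th ξ ξ)).continuous
  have h2 : ({x} : Set X) = {x | c < (D.E (P.th ξ ξ) x).re} \
      ({x | c < (D.E (P.th ξ ξ) x).re} \ {x}) := by
    ext z
    simp only [Set.mem_singleton_iff, Set.mem_sdiff, Set.mem_ofPred_eq, not_and, not_not]
    constructor
    · rintro rfl; exact ⟨hx, fun _ => rfl⟩
    · rintro ⟨h1, h2⟩; exact h2 h1
  rw [h2]
  exact ho.sdiff (hf.subset Set.sdiff_subset).isClosed

/-- the indicator function of an isolated point -/
noncomputable def dl (x : X) (hx : IsOpen ({x} : Set X)) : C(X, ℂ) where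
  toFun := fun y => if y = x then 1 else 0
  continuous_toFun := by
    rw [continuous_iff_continuousAt]
    intro y
    by_cases hy : y = x
    · subst hy
      apply ContinuousAt.congr (f := fun _ => (1 : ℂ)) continuousAt_const
      filter_upwards [hx.mem_nhds (Set.mem_singleton _)] with z hz
      rw [Set.mem_singleton_iff] at hz
      simp [hz]
    · apply ContinuousAt.congr (f := fun _ => (0 : ℂ)) continuousAt_const
      filter_upwards [isClosed_singleton.isOpen_compl.mem_nhds (show y ∈ ({x} : Set X)ᶜ from hy)]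
        with z hz
      have : z ≠ x := hz
      simp [this]

lemma dl_apply (x : X) (hx : IsOpen ({x} : Set X)) (y : X) :
    dl x hx y = if y = x then 1 else 0 := rfl

lemma dl_mul (x : X) (hx : IsOpen ({x} : Set X)) (f : C(X, ℂ)) :
    dl x hx * f = f x • dl x hx := by
  ext y
  simp only [ContinuousMap.mul_apply, dl_apply, ContinuousMap.smul_apply, smul_eq_mul]
  split_ifs with h
  · rw [h]; ring
  · ring

lemma mul_dl (x : X) (hx : IsOpen ({x} : Set X)) (f : C(X, ℂ)) :
    f * dl x hx = f x • dl x hx := by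
  rw [mul_comm, dl_mul]

lemma star_dl (x : X) (hx : IsOpen ({x} : Set X)) : star (dl x hx) = dl x hx := by
  ext y
  simp only [ContinuousMap.star_apply, dl_apply]
  split_ifs <;> simp

section atom

variable (x : X) (hx : IsOpen ({x} : Set X))

/-- the projection at an isolated point -/
noncomputable def pr : A := D.ι (dl x hx)

lemma star_pr : star (pr D x hx) = pr D x hx := by
  rw [pr, ← map_star, star_dl]

lemma pr_mul_pr : pr D x hx * pr D x hx = pr D x hx := by
  rw [pr, ← map_mul, dl_mul]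
  simp [dl_apply]

lemma E_pr : D.E (pr D x hx) = dl x hx := D.E_ι _

lemma E_corner (a : A) : D.E (pr D x hx * a * pr D x hx) = D.E a x • dl x hx := by
  rw [pr, D.E_right, D.E_left, dl_mul, smul_mul_assoc, dl_mul]
  simp [dl_apply]

/-- Elements of the corner supported on a bisection. -/
lemma corner_star_mul {n : A} (hn : n ∈ D.N) :
    ∃ c : ℂ, star (pr D x hx * n * pr D x hx) * (pr D x hx * n * pr D x hx) = c • pr D x hx := by
  set p := pr D x hx with hp
  have hpN : p ∈ D.N := D.N_ι _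
  have hm : p * n * p ∈ D.N := D.N_mul _ _ (D.N_mul _ _ hpN hn) hpN
  obtain ⟨h, hh⟩ := D.N_star_mul _ hm
  refine ⟨h x, ?_⟩
  have e1 : p * (star (p * n * p) * (p * n * p)) * p = star (p * n * p) * (p * n * p) := by
    have hs : star p = p := star_pr D x hx
    have hpp : p * p = p := pr_mul_pr D x hx
    simp only [star_mul, hs]
    calc p * (p * (star n * p) * (p * n * p)) * p = (p * p) * (star n * p) * (p * n) * (p * p) := by
          simp only [mul_assoc]
      _ = _ := by rw [hpp]; simp only [mul_assoc]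
  rw [hh] at e1 ⊢
  rw [← e1, hp, pr, ← map_mul, ← map_mul, dl_mul, smul_mul_assoc, dl_mul, map_smul]
  simp [dl_apply]

lemma corner_eq {n : A} (hn : n ∈ D.N) (hne : D.E n x ≠ 0) :
    pr D x hx * n * pr D x hx = D.E n x • pr D x hx := by
  set p := pr D x hx with hp
  have hs : star p = p := star_pr D x hx
  have hpp : p * p = p := pr_mul_pr D x hx
  have hpN : p ∈ D.N := D.N_ι _
  have hm : p * n * p ∈ D.N := D.N_mul _ _ (D.N_mul _ _ hpN hn) hpN
  have h1 := D.N_E _ hm
  rw [E_corner, star_smul, star_dl, map_smul, smul_mul_smul_comm, map_smul, smul_mul_assoc,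
    dl_mul] at h1
  have h2 : D.ι (dl x hx) * (p * n * p) = p * n * p := by
    change p * (p * n * p) = _
    rw [← mul_assoc, ← mul_assoc, hpp]
  rw [h2] at h1
  have h3 : D.ι (dl x hx x • dl x hx) = p := by
    rw [dl_apply, if_pos rfl, one_smul]; rfl
  rw [h3, mul_smul] at h1
  have hne' : star (D.E n x) ≠ 0 := star_ne_zero.2 hne
  exact smul_right_injective A hne' h1

lemma pr_ne_zero : pr D x hx ≠ 0 := by
  intro h
  have := E_pr D x hx
  rw [h, map_zero] at this
  have h2 := congrArg (fun f : C(X, ℂ) => f x) this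
  simp [dl_apply] at h2

/-- the trace property of the corner, on bisections -/
lemma trace_N {m n : A} (hm : m ∈ D.N) (hn : n ∈ D.N) (hne : D.E (m * pr D x hx * n) x ≠ 0) :
    D.E (n * pr D x hx * m) x = D.E (m * pr D x hx * n) x := by
  set p := pr D x hx with hp
  have hs : star p = p := star_pr D x hx
  have hpp : p * p = p := pr_mul_pr D x hx
  have hpN : p ∈ D.N := D.N_ι _
  set m' := p * m * p with hm'
  set n' := p * n * p with hn'
  set l := D.E (m * p * n) x with hl
  have h1 : m' * n' = l • p := by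
    have := corner_eq D x hx (D.N_mul _ _ (D.N_mul _ _ hm hpN) hn) hne
    rw [← hp, ← hl] at this
    rw [← this, hm', hn']
    calc p * m * p * (p * n * p) = p * m * (p * p) * n * p := by simp only [mul_assoc]
      _ = _ := by rw [hpp]; simp only [mul_assoc]
  obtain ⟨c, hc⟩ := corner_star_mul D x hx hm
  rw [← hp, ← hm'] at hc
  have h2 : c • n' = l • star m' := by
    have e1 : star m' * (m' * n') = c • n' := by
      rw [← mul_assoc, hc, smul_mul_assoc]
      congr 1
      rw [hn', ← mul_assoc, ← mul_assoc, hpp]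
    rw [h1, mul_smul_comm] at e1
    rw [← e1]
    congr 1
    rw [hm']
    simp only [star_mul, hs]
    simp only [mul_assoc, hpp]
  have hc0 : c ≠ 0 := by
    rintro rfl
    rw [zero_smul] at hc
    have hm0 : m' = 0 := by
      have := CStarRing.norm_star_mul_self (x := m')
      rw [hc, norm_zero] at this
      exact norm_eq_zero.1 (mul_self_eq_zero.1 this.symm)
    rw [hm0, zero_mul] at h1
    have := smul_eq_zero.1 h1.symm
    rcases this with h | h
    · exact hne h
    · exact pr_ne_zero D x hx h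
  have h3 : n' * m' = l • p := by
    have : c • (n' * m') = c • (l • p) := by
      rw [← smul_mul_assoc, h2, smul_mul_assoc, hc, smul_smul, smul_smul, mul_comm]
    exact smul_right_injective _ hc0 this
  have h4 : D.E (p * (n * p * m) * p) = D.E (l • p) := by
    rw [← h3, hm', hn']
    congr 1
    calc p * (n * p * m) * p = p * n * p * m * p := by simp only [mul_assoc]
      _ = p * n * (p * p) * m * p := by rw [hpp]
      _ = _ := by simp only [mul_assoc]
  rw [E_corner, map_smul, E_pr] at h4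
  have h5 := congrArg (fun f : C(X, ℂ) => f x) h4
  simpa [dl_apply] using h5

lemma trace_N' {m n : A} (hm : m ∈ D.N) (hn : n ∈ D.N) :
    D.E (n * pr D x hx * m) x = D.E (m * pr D x hx * n) x := by
  by_cases h1 : D.E (m * pr D x hx * n) x = 0
  · by_cases h2 : D.E (n * pr D x hx * m) x = 0
    · rw [h1, h2]
    · exact (trace_N D x hx hn hm h2).symm
  · exact trace_N D x hx hm hn h1

/-- the trace property of the corner -/
lemma trace (a b : A) : D.E (a * pr D x hx * b) x = D.E (b * pr D x hx * a) x := by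
  -- for fixed `m ∈ N`
  have key : ∀ (f g : A →L[ℂ] ℂ), (∀ n ∈ D.N, f n = g n) → ∀ a, f a = g a := by
    intro f g hfg a
    have h1 : (Submodule.span ℂ D.N : Set A) ⊆ {a | f a = g a} := by
      have : Submodule.span ℂ D.N ≤ LinearMap.eqLocus f.toLinearMap g.toLinearMap :=
        Submodule.span_le.2 hfg
      exact this
    have h2 : IsClosed {a | f a = g a} := isClosed_eq f.continuous g.continuous
    have h3 := h2.closure_subset_iff.2 h1
    exact h3 (D.N_dense a)
  let ev : C(X, ℂ) →L[ℂ] ℂ := ContinuousMap.evalCLM ℂ x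
  have h1 : ∀ n ∈ D.N, ∀ a, D.E (a * pr D x hx * n) x = D.E (n * pr D x hx * a) x := by
    intro n hn a
    refine key (ev.comp (D.E.comp (((ContinuousLinearMap.mul ℂ A).flip n).comp
      ((ContinuousLinearMap.mul ℂ A).flip (pr D x hx)))))
      (ev.comp (D.E.comp (ContinuousLinearMap.mul ℂ A (n * pr D x hx)))) ?_ a
    intro m hm
    exact trace_N' D x hx hn hm
  refine key (ev.comp (D.E.comp (((ContinuousLinearMap.mul ℂ A).flip b).comp
      ((ContinuousLinearMap.mul ℂ A).flip (pr D x hx)))))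
      (ev.comp (D.E.comp (ContinuousLinearMap.mul ℂ A (b * pr D x hx)))) ?_ a
  intro n hn
  exact (h1 n hn b).symm

lemma trace' (a b : A) (ha : a * pr D x hx = a)
    (hb : b * pr D x hx = b) : D.E (a * b) x = D.E (b * a) x := by
  have := trace D x hx a b
  rwa [ha, hb] at this

/-- The value of the expectation at unit vectors of the corner is constant. -/
lemma E_th_eq {ξ η : H} (hξ : ‖ξ‖ = 1) (hη : ‖η‖ = 1) (hξp : P.ρ (pr D x hx) ξ = ξ)
    (hηp : P.ρ (pr D x hx) η = η) : D.E (P.th ξ ξ) x = D.E (P.th η η) x := by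
  have e1 : P.th ξ η * P.th η ξ = P.th ξ ξ := by
    rw [P.th_mul_th, inner_self_eq_norm_sq_to_K, hη]; simp
  have e2 : P.th η ξ * P.th ξ η = P.th η η := by
    rw [P.th_mul_th, inner_self_eq_norm_sq_to_K, hξ]; simp
  rw [← e1, ← e2]
  apply trace' D x hx
  · rw [P.th_mul, star_pr, hηp]
  · rw [P.th_mul, star_pr, hξp]

lemma E_th_ne_zero {ξ : H} (hξ : ‖ξ‖ = 1) (hξp : P.ρ (pr D x hx) ξ = ξ) :
    D.E (P.th ξ ξ) x ≠ 0 := by
  intro h0
  have e1 : P.th ξ ξ = pr D x hx * P.th ξ ξ * pr D x hx := by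
    rw [P.mul_th, P.th_mul, star_pr, hξp]
  have e2 : D.E (P.th ξ ξ) = 0 := by
    rw [e1, E_corner, h0, zero_smul]
  have e3 : star (P.th ξ ξ) * P.th ξ ξ = P.th ξ ξ := by
    rw [P.star_th, P.th_mul_th, inner_self_eq_norm_sq_to_K, hξ]; simp
  rw [← e3] at e2
  have e4 := D.E_faithful _ e2
  have e5 := P.norm_th ξ ξ
  rw [e4, norm_zero, hξ] at e5
  norm_num at e5

/-- an orthonormal family in the corner has bounded cardinality -/
lemma card_le_of_orthonormal {n : ℕ} (v : Fin n → H) (hv : Orthonormal ℂ v)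
    (hvp : ∀ i, P.ρ (pr D x hx) (v i) = v i) {ξ : H} (hξ : ‖ξ‖ = 1)
    (hξp : P.ρ (pr D x hx) ξ = ξ) : (n : ℝ) * ‖D.E (P.th ξ ξ) x‖ ≤ 1 := by
  have h1 : ∀ i, D.E (P.th (v i) (v i)) x = D.E (P.th ξ ξ) x := fun i =>
    E_th_eq P D x hx (hv.1 i) hξ (hvp i) hξp
  have h2 : ‖∑ i, P.th (v i) (v i)‖ ≤ 1 := by
    rw [← P.norm_ρ]
    apply opNorm_le_bound _ zero_le_one
    intro z
    rw [one_mul, map_sum, sum_apply]
    simp only [P.ρ_th, rankOne_apply]
    have h3 : ‖∑ i, ⟪v i, z⟫_ℂ • v i‖ ^ 2 = ∑ i, ‖⟪v i, z⟫_ℂ‖ ^ 2 := by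
      have h5 := hv.inner_sum (fun i => ⟪v i, z⟫_ℂ) (fun i => ⟪v i, z⟫_ℂ) Finset.univ
      have h6 := inner_self_eq_norm_sq_to_K (𝕜 := ℂ) (∑ i, ⟪v i, z⟫_ℂ • v i)
      rw [h5] at h6
      simp only [Complex.conj_mul'] at h6
      have h7 : (((‖∑ i, ⟪v i, z⟫_ℂ • v i‖ ^ 2 : ℝ)) : ℂ) = ((∑ i, ‖⟪v i, z⟫_ℂ‖ ^ 2 : ℝ) : ℂ) := by
        push_cast; exact h6.symm
      exact Complex.ofReal_injective h7
    have h4 : ∑ i, ‖⟪v i, z⟫_ℂ‖ ^ 2 ≤ ‖z‖ ^ 2 := hv.sum_inner_products_le z
    rw [← h3] at h4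
    exact le_of_sq_le_sq h4 (norm_nonneg _)
  have h3 : D.E (∑ i, P.th (v i) (v i)) x = n * D.E (P.th ξ ξ) x := by
    rw [map_sum, ContinuousMap.sum_apply, Finset.sum_congr rfl (fun i _ => h1 i)]
    simp
  calc (n : ℝ) * ‖D.E (P.th ξ ξ) x‖ = ‖D.E (∑ i, P.th (v i) (v i)) x‖ := by
        rw [h3, norm_mul, Complex.norm_natCast]
    _ ≤ _ := (ContinuousMap.norm_coe_le_norm _ _).trans ((D.norm_E_le _).trans h2)

/-- the projection at an isolated point is compact -/
lemma pr_mem_K : pr D x hx ∈ P.K := by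
  set p := pr D x hx with hp
  have hs : star p = p := star_pr D x hx
  have hpp : p * p = p := pr_mul_pr D x hx
  have hidem : ∀ z, P.ρ p (P.ρ p z) = P.ρ p z := by
    intro z
    change (P.ρ p * P.ρ p) z = _
    rw [← map_mul, hpp]
  let V : Submodule ℂ H := (P.ρ p).toLinearMap.range
  have hV : ∀ z ∈ V, P.ρ p z = z := by
    rintro _ ⟨z, rfl⟩
    exact hidem z
  have hfin : FiniteDimensional ℂ V := by
    by_contra hnf
    -- there is a unit vector
    have hne : ∃ ξ ∈ V, ‖ξ‖ = 1 := by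
      by_contra hcon
      push Not at hcon
      apply hnf
      have : V = ⊥ := by
        rw [Submodule.eq_bot_iff]
        intro z hz
        by_contra hz0
        apply hcon ((‖z‖ : ℂ)⁻¹ • z) (V.smul_mem _ hz)
        rw [norm_smul, norm_inv, Complex.norm_real, norm_norm, inv_mul_cancel₀ (norm_ne_zero_iff.2 hz0)]
      rw [this]
      infer_instance
    obtain ⟨ξ, hξV, hξ1⟩ := hne
    have hτ := E_th_ne_zero P D x hx hξ1 (hV ξ hξV)
    obtain ⟨n, hn⟩ := exists_nat_gt (1 / ‖D.E (P.th ξ ξ) x‖)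
    -- a linearly independent family of size n
    have hli : ∃ w : Fin n → V, LinearIndependent ℂ w := by
      have h1 : ((n : ℕ) : Cardinal) ≤ Module.rank ℂ V := by
        have : Cardinal.aleph0 ≤ Module.rank ℂ V := by
          by_contra hlt
          exact hnf (Module.rank_lt_aleph0_iff.1 (not_le.1 hlt))
        exact (Cardinal.natCast_lt_aleph0).le.trans this
      exact (le_rank_iff_exists_linearIndependent_finset).1 h1 |> fun ⟨s, hs, hli⟩ =>
        ⟨fun i => (s.equivFin.symm (Fin.cast hs.symm i) : V), hli.comp _ (by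
          intro a b hab
          simpa using hab)⟩
    obtain ⟨w, hw⟩ := hli
    let v : Fin n → H := fun i => ((gramSchmidtNormed ℂ w i : V) : H)
    have hv : Orthonormal ℂ v := by
      have := gramSchmidtNormed_orthonormal (𝕜 := ℂ) hw
      exact this.comp_linearIsometry V.subtypeₗᵢ
    have := card_le_of_orthonormal P D x hx v hv (fun i => hV _ (gramSchmidtNormed ℂ w i).2)
      hξ1 (hV ξ hξV)
    rw [div_lt_iff₀ (norm_pos_iff.2 hτ)] at hn
    linarith
  let b := stdOrthonormalBasis ℂ V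
  have hsum : p = ∑ i, P.th (b i) (b i) := by
    apply P.inj
    rw [map_sum]
    ext z
    rw [sum_apply]
    simp only [P.ρ_th, rankOne_apply]
    let z' : V := ⟨P.ρ p z, z, rfl⟩
    have h1 := b.sum_repr' z'
    have h2 := congrArg (fun u : V => (u : H)) h1
    simp only [Submodule.coe_sum, Submodule.coe_smul] at h2
    have h3 : P.ρ p z = (z' : H) := rfl
    rw [h3, ← h2]
    apply Finset.sum_congr rfl
    intro i _
    congr 1
    rw [Submodule.coe_inner]
    change ⟪(b i : H), P.ρ p z⟫_ℂ = _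
    rw [← adjoint_inner_left, ← star_eq_adjoint, ← map_star, hs, hV _ (b i).2]
  rw [hsum]
  exact P.K.sum_mem (fun i _ => P.th_mem_K _ _)

end atom

/-- **The expectation of a compact operator is compact.** -/
theorem E_mem_K {a : A} (ha : a ∈ P.K) : D.ι (D.E a) ∈ P.K := by
  let T : A →L[ℂ] A := (⟨D.ι.toAlgHom.toLinearMap, D.continuous_ι⟩ : C(X, ℂ) →L[ℂ] A).comp D.E
  have hT : ∀ a, T a = D.ι (D.E a) := fun a => rfl
  have : ∀ a ∈ P.K, T a ∈ P.K := by
    apply P.K_le_of_diag T P.K P.isClosed_K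
    intro ξ
    rw [hT]
    set e := D.E (P.th ξ ξ) with he
    -- `e` is nonnegative
    have hnn : ∀ x, 0 ≤ (e x).re ∧ (e x).im = 0 := by
      intro x
      by_cases hξ : ξ = 0
      · have : P.th ξ ξ = 0 := by
          rw [← norm_eq_zero, P.norm_th, hξ]; simp
        rw [he, this]; simp
      have h1 := D.E_nonneg (P.th ξ ξ) x
      have h2 : star (P.th ξ ξ) * P.th ξ ξ = ((‖ξ‖ ^ 2 : ℝ) : ℂ) • P.th ξ ξ := by
        rw [P.star_th, P.th_mul_th, inner_self_eq_norm_sq_to_K]; norm_cast
      rw [h2, map_smul, ContinuousMap.smul_apply, smul_eq_mul, Complex.re_ofReal_mul,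
        Complex.im_ofReal_mul, ← he] at h1
      have h3 : 0 < ‖ξ‖ ^ 2 := by positivity
      exact ⟨nonneg_of_mul_nonneg_right h1.1 h3, (mul_eq_zero.1 h1.2).resolve_left h3.ne'⟩
    have hcl := P.isClosed_K.closure_eq
    rw [← SetLike.mem_coe, ← hcl, Metric.mem_closure_iff]
    intro ε hε
    have hfin := finite_level P D ξ (half_pos hε)
    have hopen : ∀ x ∈ {x | ε / 2 < (e x).re}, IsOpen ({x} : Set X) := fun x hx =>
      isOpen_singleton_of_level P D ξ (half_pos hε) hx
    let g : C(X, ℂ) := ∑ x ∈ hfin.toFinset.attach, e x • dl (x : X)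
      (hopen x (hfin.mem_toFinset.1 x.2))
    refine ⟨D.ι g, ?_, ?_⟩
    · simp only [g, map_sum, map_smul]
      apply P.K.sum_mem
      intro x _
      apply P.K.smul_mem
      exact pr_mem_K P D x _
    · rw [dist_eq_norm, ← map_sub, D.norm_ι]
      refine lt_of_le_of_lt ?_ (half_lt_self hε)
      rw [ContinuousMap.norm_le _ (half_pos hε).le]
      intro y
      rw [ContinuousMap.sub_apply]
      have hg : g y = if ε / 2 < (e y).re then e y else 0 := by
        simp only [g, ContinuousMap.sum_apply, ContinuousMap.smul_apply, smul_eq_mul, dl_apply]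
        split_ifs with hy
        · rw [Finset.sum_eq_single ⟨y, hfin.mem_toFinset.2 hy⟩]
          · simp
          · intro z _ hz
            rw [if_neg, mul_zero]
            intro h
            exact hz (Subtype.ext h.symm)
          · intro h; exact absurd (Finset.mem_attach _ _) h
        · apply Finset.sum_eq_zero
          intro z _
          rw [if_neg, mul_zero]
          intro h
          apply hy
          rw [h]
          exact hfin.mem_toFinset.1 z.2
      rw [hg]
      split_ifs with hy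
      · rw [sub_self, norm_zero]; exact (half_pos hε).le
      · rw [sub_zero]
        have h1 : e y = ((e y).re : ℂ) := by
          apply Complex.ext
          · simp
          · simp [(hnn y).2]
        rw [h1, Complex.norm_real, Real.norm_of_nonneg (hnn y).1]
        exact not_lt.1 hy
  exact this a ha

end Pool.Agent.H6.TG
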