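import Pool.Agent.H6.TG.Shift

/-!
# The functional calculus and its compression
-/

set_option linter.unusedSectionVars false

open ContinuousLinearMap InnerProductSpace Topology Filter
open scoped ComplexConjugate Classical InnerProductSpace ENNReal lp

namespace Pool.Agent.H6.TG

/-- functional calculus -/
noncomputable def psi : C(Y0, ℂ) →⋆ₐ[ℂ] (HJ →L[ℂ] HJ) :=
  cfcHomSuperset (p := IsStarNormal) (a := Ww) inferInstance spectrum_Ww

lemma psi_coord : psi coord = Ww := cfcHomSuperset_id (p := IsStarNormal) (a := Ww) inferInstance spectrum_Ww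

lemma continuous_psi : Continuous psi :=
  AddMonoidHomClass.continuous_of_bound psi 1 (by
    intro x
    rw [one_mul]
    exact NonUnitalStarAlgHom.norm_apply_le psi x)

lemma psi_const (c : ℂ) : psi (ContinuousMap.const Y0 c) = algebraMap ℂ (HJ →L[ℂ] HJ) c := by
  have : ContinuousMap.const Y0 c = algebraMap ℂ C(Y0, ℂ) c := rfl
  rw [this, AlgHomClass.commutes]

/-- compression -/
noncomputable def Lo (f : C(Y0, ℂ)) : HI →L[ℂ] HI := Rr ∘L psi f ∘L Vv

lemma Lo_apply (f : C(Y0, ℂ)) (ξ : HI) : Lo f ξ = Rr (psi f (Vv ξ)) := rfl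

lemma continuous_Lo : Continuous Lo := by
  unfold Lo
  have := continuous_psi
  fun_prop

lemma Lo_add (f g : C(Y0, ℂ)) : Lo (f + g) = Lo f + Lo g := by
  ext1 ξ
  simp [Lo_apply]

lemma Lo_sub (f g : C(Y0, ℂ)) : Lo (f - g) = Lo f - Lo g := by
  ext1 ξ
  simp [Lo_apply]

lemma Lo_smul (c : ℂ) (f : C(Y0, ℂ)) : Lo (c • f) = c • Lo f := by
  ext1 ξ
  simp [Lo_apply]

lemma Lo_one : Lo 1 = 1 := by
  ext1 ξ
  simp [Lo_apply, Rr_Vv_apply]

lemma Lo_zero : Lo 0 = 0 := by
  ext1 ξ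
  simp [Lo_apply]

lemma Lo_star (f : C(Y0, ℂ)) : Lo (star f) = adjoint (Lo f) := by
  rw [Lo, Lo, adjoint_comp, adjoint_comp, map_star, star_eq_adjoint, adjoint_Vv, Vv]
  rfl

/-- the Hankel part -/
noncomputable def Hk (f : C(Y0, ℂ)) : HI →L[ℂ] HJ := (1 - Vv ∘L Rr) ∘L psi f ∘L Vv

lemma Hk_apply (f : C(Y0, ℂ)) (ξ : HI) : Hk f ξ = psi f (Vv ξ) - Vv (Rr (psi f (Vv ξ))) := rfl

lemma continuous_Hk : Continuous Hk := by
  unfold Hk
  have := continuous_psi
  fun_prop

lemma Hk_add (f g : C(Y0, ℂ)) : Hk (f + g) = Hk f + Hk g := by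
  ext1 ξ
  simp [Hk_apply]
  abel

lemma Hk_const (c : ℂ) : Hk (ContinuousMap.const Y0 c) = 0 := by
  ext1 ξ
  simp [Hk_apply, psi_const, Rr_Vv_apply, Algebra.algebraMap_eq_smul_one]

lemma Lo_mul (f g : C(Y0, ℂ)) : Lo (f * g) = Lo f * Lo g + (Rr ∘L psi f) ∘L Hk g := by
  ext1 ξ
  simp [Lo_apply, Hk_apply]

lemma Hk_mul (f g : C(Y0, ℂ)) : Hk (f * g) = Hk f ∘L Lo g + ((1 - Vv ∘L Rr) ∘L psi f) ∘L Hk g := by
  ext1 ξ
  simp [Lo_apply, Hk_apply]
  abel

lemma VR_apply_emb (g : HJ) (i : II) : Vv (Rr g) (emb i) = g (emb i) := by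
  rw [Vv_emb, Rr_apply]

lemma emb_or (j : JJ) : (∃ i, j = emb i) ∨ ∃ n : ℤ, n < 0 ∧ j = Sum.inl n ∧ j ∉ Set.range emb := by
  rcases j with n | x
  · by_cases h : 0 ≤ n
    · left
      refine ⟨Sum.inl n.toNat, ?_⟩
      rw [emb_inl, Int.toNat_of_nonneg h]
    · right
      refine ⟨n, not_le.1 h, rfl, ?_⟩
      rintro ⟨i, hi⟩
      rcases i with m | x
      · rw [emb_inl] at hi
        have := Sum.inl.inj hi
        omega
      · rw [emb_inr] at hi
        cases hi
  · left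
    exact ⟨Sum.inr x, rfl⟩

lemma Hk_coord : Hk coord = 0 := by
  ext1 ξ
  ext j
  rw [Hk_apply, psi_coord, lp.coeFn_sub, Pi.sub_apply]
  rcases emb_or j with ⟨i, rfl⟩ | ⟨n, hn, rfl, hj⟩
  · rw [VR_apply_emb, sub_self]; rfl
  · rw [Vv_out _ _ hj, Ww_inl, Vv_out, sub_zero]
    · rfl
    · rintro ⟨i, hi⟩
      rcases i with m | x
      · rw [emb_inl] at hi
        have := Sum.inl.inj hi
        omega
      · rw [emb_inr] at hi
        cases hi

lemma Hk_star_coord : Hk (star coord) = rankOne ℂ (e (Sum.inl (-1)) : HJ) (e (Sum.inl 0) : HI) := by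
  ext1 ξ
  ext j
  rw [Hk_apply, map_star, psi_coord, lp.coeFn_sub, Pi.sub_apply, star_Ww, rankOne_apply,
    inner_e_left, lp.coeFn_smul, Pi.smul_apply, e_apply, smul_eq_mul]
  rcases emb_or j with ⟨i, rfl⟩ | ⟨n, hn, rfl, hj⟩
  · rw [VR_apply_emb, sub_self, if_neg, mul_zero]
    intro h
    rcases i with m | x
    · rw [emb_inl] at h
      have := Sum.inl.inj h
      omega
    · rw [emb_inr] at h
      cases h
  · rw [Vv_out _ _ hj, Ws_inl, sub_zero]
    by_cases h : n = -1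
    · subst h
      rw [if_pos rfl, mul_one]
      have := Vv_emb ξ (Sum.inl 0)
      rw [← this]
      rfl
    · rw [if_neg (fun h' => h (Sum.inl.inj h')), mul_zero, Vv_out]
      rintro ⟨i, hi⟩
      rcases i with m | x
      · rw [emb_inl] at hi
        have := Sum.inl.inj hi
        omega
      · rw [emb_inr] at hi
        cases hi

lemma Hk_mem (f : C(Y0, ℂ)) : Hk f ∈ Kc HI HJ := by
  induction f using ContinuousMap.induction_on_of_compact with
  | const r =>
    have := Hk_const r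
    rw [this]; exact Submodule.zero_mem _
  | id =>
    have : Hk coord ∈ Kc HI HJ := by rw [Hk_coord]; exact Submodule.zero_mem _
    exact this
  | star_id =>
    have : Hk (star coord) ∈ Kc HI HJ := by rw [Hk_star_coord]; exact rankOne_mem_Kc _ _
    exact this
  | add f g hf hg => rw [Hk_add]; exact Submodule.add_mem _ hf hg
  | mul f g hf hg =>
    rw [Hk_mul]
    exact Submodule.add_mem _ (mem_Kc_comp _ hf) (comp_mem_Kc _ hg)
  | frequently f hf =>
    have hc : IsClosed {f : C(Y0, ℂ) | Hk f ∈ Kc HI HJ} := isClosed_Kc.preimage continuous_Hk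
    exact hc.mem_of_frequently_of_tendsto hf tendsto_id

lemma Lo_mul_mem (f g : C(Y0, ℂ)) : Lo (f * g) - Lo f * Lo g ∈ Kc HI HI := by
  rw [Lo_mul, add_sub_cancel_left]
  exact comp_mem_Kc _ (Hk_mem g)

/-- functions vanishing on the circle annihilate the basis vectors `e (inl n)` -/
lemma psi_e_of_circle {f : C(Y0, ℂ)} (hf : ∀ y : Y0, ‖(y : ℂ)‖ = 1 → f y = 0) (n : ℤ) :
    psi f (e (Sum.inl n)) = 0 := by
  let I : Ideal C(Y0, ℂ) :=
    { carrier := {f | psi f (e (Sum.inl n)) = 0}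
      add_mem' := by
        intro a b ha hb
        simp only [Set.mem_ofPred_eq] at ha hb ⊢
        rw [map_add, add_apply, ha, hb, add_zero]
      zero_mem' := by
        simp
      smul_mem' := by
        intro c a ha
        simp only [Set.mem_ofPred_eq] at ha ⊢
        rw [smul_eq_mul, map_mul, mul_apply_eq_comp, ha, map_zero] }
  have hI : IsClosed (I : Set C(Y0, ℂ)) := by
    have h1 : Continuous (fun f : C(Y0, ℂ) => psi f (e (Sum.inl n))) := by
      have := continuous_psi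
      fun_prop
    exact isClosed_singleton.preimage h1
  have hq : star coord * coord - 1 ∈ I := by
    change psi (star coord * coord - 1) (e (Sum.inl n)) = 0
    rw [map_sub, map_mul, map_star, psi_coord, star_Ww, map_one, sub_apply, mul_apply_eq_comp,
      Ww_e_inl, sub_eq_zero]
    ext j
    rcases j with m | x
    · rw [Ws_inl, e_apply]
      simp [e_apply]
    · rw [Ws_inr, e_apply]
      simp [e_apply]
  have h2 : f ∈ ContinuousMap.idealOfSet ℂ (ContinuousMap.setOfIdeal I) := by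
    rw [ContinuousMap.mem_idealOfSet]
    intro y hy
    apply hf
    have h3 := (ContinuousMap.notMem_setOfIdeal.1 hy) hq
    simp only [ContinuousMap.sub_apply, ContinuousMap.mul_apply, ContinuousMap.star_apply,
      ContinuousMap.one_apply, RCLike.star_def, Complex.conj_mul'] at h3
    rw [sub_eq_zero] at h3
    have h4 : ‖(coord y)‖ ^ 2 = 1 := by exact_mod_cast h3
    have h5 : ‖(y : ℂ)‖ ^ 2 = 1 := h4
    nlinarith [norm_nonneg (y : ℂ)]
  rw [ContinuousMap.idealOfSet_ofIdeal_isClosed hI] at h2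
  exact h2

lemma Hk_of_circle {f : C(Y0, ℂ)} (hf : ∀ y : Y0, ‖(y : ℂ)‖ = 1 → f y = 0) : Hk f = 0 := by
  ext1 ξ
  ext j
  rw [Hk_apply, lp.coeFn_sub, Pi.sub_apply]
  rcases emb_or j with ⟨i, rfl⟩ | ⟨n, hn, rfl, hj⟩
  · rw [VR_apply_emb, sub_self]; rfl
  · rw [Vv_out _ _ hj, sub_zero, ← inner_e_left, ← adjoint_inner_left, ← star_eq_adjoint,
      ← map_star, psi_e_of_circle, inner_zero_left]
    · rfl
    · intro y hy
      rw [ContinuousMap.star_apply, hf y hy, star_zero]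

lemma Hk_of_circle_one {f : C(Y0, ℂ)} (hf : ∀ y : Y0, ‖(y : ℂ)‖ = 1 → f y = 1) : Hk f = 0 := by
  have h1 : f = ContinuousMap.const Y0 1 + (f - 1) := by
    have : ContinuousMap.const Y0 (1 : ℂ) = 1 := rfl
    rw [this]; abel
  rw [h1, Hk_add, Hk_const, Hk_of_circle, add_zero]
  intro y hy
  rw [ContinuousMap.sub_apply, hf y hy, ContinuousMap.one_apply, sub_self]

lemma isUnit_Lo_of_circle {f g : C(Y0, ℂ)} (hf : ∀ y : Y0, ‖(y : ℂ)‖ = 1 → f y = 1)
    (hg : ∀ y : Y0, ‖(y : ℂ)‖ = 1 → g y = 1) (hfg : f * g = 1) : IsUnit (Lo f) := by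
  rw [isUnit_iff_exists]
  refine ⟨Lo g, ?_, ?_⟩
  · have := Lo_mul f g
    rw [hfg, Lo_one, Hk_of_circle_one hg, comp_zero, add_zero] at this
    exact this.symm
  · have := Lo_mul g f
    rw [mul_comm, hfg, Lo_one, Hk_of_circle_one hf, comp_zero, add_zero] at this
    exact this.symm

end Pool.Agent.H6.TG
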