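import Pool.Agent.H6.TG.OpDiag

/-!
# The expectation on the commutative quotient
-/

set_option linter.unusedSectionVars false

open ContinuousLinearMap InnerProductSpace Topology Filter
open scoped ComplexConjugate Classical InnerProductSpace

namespace Pool.Agent.H6.TG

/-- A C*-algebra of operators containing the compact operators, with commutative quotient. -/
structure ExtData (A : Type*) [CStarAlgebra A] (H : Type*) [NormedAddCommGroup H]
    [InnerProductSpace ℂ H] [CompleteSpace H] (Y : Type*) [TopologicalSpace Y] [CompactSpace Y]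
    [T2Space Y] extends RepData A H where
  π : A →⋆ₐ[ℂ] C(Y, ℂ)
  surj : Function.Surjective π
  ker : ∀ a, π a = 0 ↔ a ∈ toRepData.K

variable {A : Type*} [CStarAlgebra A] {X : Type*} [TopologicalSpace X]
    [CompactSpace X] [T2Space X] {H : Type*} [NormedAddCommGroup H]
    [InnerProductSpace ℂ H] [CompleteSpace H] {Y : Type*} [TopologicalSpace Y] [CompactSpace Y]
    [T2Space Y] (P : ExtData A H Y) (D : DiagData A X)

/-- a section of `π` -/
noncomputable def sec (f : C(Y, ℂ)) : A := Function.surjInv P.surj f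

lemma π_sec (f : C(Y, ℂ)) : P.π (sec P f) = f := Function.surjInv_eq P.surj f

lemma π_ι_E_eq {a b : A} (h : P.π a = P.π b) : P.π (D.ι (D.E a)) = P.π (D.ι (D.E b)) := by
  rw [← sub_eq_zero, ← map_sub, ← map_sub, ← map_sub, P.ker]
  apply E_mem_K P.toRepData D
  rw [← P.ker, map_sub, h, sub_self]

/-- the expectation on the quotient -/
noncomputable def Ebar : C(Y, ℂ) →ₗ[ℂ] C(Y, ℂ) where
  toFun := fun f => P.π (D.ι (D.E (sec P f)))
  map_add' := by
    intro f g
    rw [← map_add P.π, ← map_add D.ι, ← map_add D.E]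
    apply π_ι_E_eq
    rw [map_add, π_sec, π_sec, π_sec]
  map_smul' := by
    intro c f
    rw [RingHom.id_apply, ← map_smul P.π, ← map_smul D.ι, ← map_smul D.E]
    apply π_ι_E_eq
    rw [map_smul, π_sec, π_sec]

lemma Ebar_π (a : A) : Ebar P D (P.π a) = P.π (D.ι (D.E a)) :=
  π_ι_E_eq P D (π_sec P (P.π a))

lemma Ebar_one : Ebar P D 1 = 1 := by
  have h1 : Ebar P D (P.π 1) = P.π (D.ι (D.E 1)) := Ebar_π P D 1
  have h2 : D.E 1 = 1 := by
    rw [← map_one D.ι, D.E_ι]
  rwa [h2, map_one D.ι, map_one P.π] at h1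

lemma π_nonneg {h : C(X, ℂ)} (hh : ∀ x, 0 ≤ (h x).re ∧ (h x).im = 0) (y : Y) :
    0 ≤ (P.π (D.ι h) y).re ∧ (P.π (D.ι h) y).im = 0 := by
  let k : C(X, ℂ) := ⟨fun x => ((Real.sqrt (h x).re : ℝ) : ℂ),
    Complex.continuous_ofReal.comp (Real.continuous_sqrt.comp
      (Complex.continuous_re.comp h.continuous))⟩
  have e : h = star k * k := by
    ext x
    simp only [ContinuousMap.mul_apply, ContinuousMap.star_apply, k, ContinuousMap.coe_mk,
      RCLike.star_def, Complex.conj_ofReal]
    rw [← Complex.ofReal_mul, Real.mul_self_sqrt (hh x).1]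
    apply Complex.ext
    · simp
    · simp [(hh x).2]
  rw [e, map_mul, map_mul, map_star, map_star]
  simp only [ContinuousMap.mul_apply, ContinuousMap.star_apply, RCLike.star_def]
  rw [Complex.conj_mul', ← Complex.ofReal_pow, Complex.ofReal_re, Complex.ofReal_im]
  exact ⟨by positivity, rfl⟩

lemma Ebar_star_mul (g : C(Y, ℂ)) (y : Y) :
    0 ≤ (Ebar P D (star g * g) y).re ∧ (Ebar P D (star g * g) y).im = 0 := by
  obtain ⟨a, rfl⟩ := P.surj g
  rw [← map_star, ← map_mul, Ebar_π]
  exact π_nonneg P D (D.E_nonneg a) y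

lemma Ebar_cx {f : C(Y, ℝ)} (hf : ∀ z, 0 ≤ f z) (y : Y) :
    0 ≤ (Ebar P D (cx f) y).re ∧ (Ebar P D (cx f) y).im = 0 := by
  let g : C(Y, ℂ) := ⟨fun y => ((Real.sqrt (f y) : ℝ) : ℂ), by fun_prop⟩
  have : cx f = star g * g := by
    ext y
    simp only [cx_apply, ContinuousMap.mul_apply, ContinuousMap.star_apply, g,
      ContinuousMap.coe_mk, RCLike.star_def, Complex.conj_ofReal]
    rw [← Complex.ofReal_mul, Real.mul_self_sqrt (hf y)]
  rw [this]
  exact Ebar_star_mul P D g y

/-- the relation defined by the diagonal -/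
def rel (y z : Y) : Prop := ∀ h : C(X, ℂ), P.π (D.ι h) y = P.π (D.ι h) z

lemma Ebar_eq_of_rel {y z : Y} (h : rel P D y z) (f : C(Y, ℂ)) : Ebar P D f y = Ebar P D f z := by
  obtain ⟨a, rfl⟩ := P.surj f
  rw [Ebar_π]
  exact h _

/-- the square of the distance in the quotient, as an element of the diagonal -/
noncomputable def Gf (y : Y) (h : C(X, ℂ)) : C(X, ℂ) :=
  star (h - P.π (D.ι h) y • 1) * (h - P.π (D.ι h) y • 1)

lemma Gf_apply (y : Y) (h : C(X, ℂ)) (z : Y) :
    P.π (D.ι (Gf P D y h)) z = ((‖P.π (D.ι h) z - P.π (D.ι h) y‖ ^ 2 : ℝ) : ℂ) := by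
  simp only [Gf, map_mul, map_star, map_sub, map_smul, map_one, ContinuousMap.mul_apply,
    ContinuousMap.star_apply, ContinuousMap.sub_apply, ContinuousMap.smul_apply,
    ContinuousMap.one_apply, smul_eq_mul, mul_one, RCLike.star_def]
  rw [← map_sub, Complex.conj_mul']
  push_cast
  rfl

lemma Ebar_supp_aux {f : C(Y, ℝ)} (hf : ∀ z, 0 ≤ f z) {y : Y} (hy : ∀ z, rel P D y z → f z = 0) :
    Ebar P D (cx f) y = 0 := by
  have hnn := Ebar_cx P D hf y
  suffices hle : ∀ ε > 0, (Ebar P D (cx f) y).re ≤ ε by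
    apply Complex.ext
    · exact le_antisymm (le_of_forall_pos_le_add (by intro ε hε; simpa using hle ε hε)) hnn.1
    · exact hnn.2
  intro ε hε
  have hK : IsCompact {z | ε ≤ f z} := (isClosed_le continuous_const f.continuous).isCompact
  -- the cover
  have hcov : ∀ z, ∃ h : C(X, ℂ), z ∈ {z | ε ≤ f z} → 0 < ‖P.π (D.ι h) z - P.π (D.ι h) y‖ := by
    intro z
    by_contra hcon
    push Not at hcon
    have h1 : rel P D y z := by
      intro h
      have := le_antisymm (hcon h).2 (norm_nonneg _)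
      exact (sub_eq_zero.1 (norm_eq_zero.1 this)).symm
    have h2 := hy z h1
    have hz := (hcon 0).1
    rw [Set.mem_ofPred_eq, h2] at hz
    linarith
  choose hh hhpos using hcov
  obtain ⟨t, -, hcovt⟩ := hK.elim_nhds_subcover
    (fun z => {w | 0 < ‖P.π (D.ι (hh z)) w - P.π (D.ι (hh z)) y‖}) (by
      intro z hz
      apply IsOpen.mem_nhds
      · apply isOpen_lt continuous_const
        exact ((P.π (D.ι (hh z))).continuous.sub continuous_const).norm
      · exact hhpos z hz)
  let G : C(Y, ℝ) := ⟨fun w => ∑ z ∈ t, ‖P.π (D.ι (hh z)) w - P.π (D.ι (hh z)) y‖ ^ 2, by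
    apply continuous_finsetSum
    intro z _
    exact (((P.π (D.ι (hh z))).continuous.sub continuous_const).norm).pow 2⟩
  have hG0 : ∀ w, 0 ≤ G w := fun w => Finset.sum_nonneg (fun z _ => by positivity)
  have hGy : G y = 0 := by
    change ∑ z ∈ t, _ = _
    apply Finset.sum_eq_zero
    intro z _
    rw [sub_self, norm_zero]; ring
  have hGpos : ∀ w ∈ {z | ε ≤ f z}, 0 < G w := by
    intro w hw
    have h1 := hcovt hw
    simp only [Set.mem_iUnion, exists_prop] at h1
    obtain ⟨z, hz, hzw⟩ := h1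
    refine lt_of_lt_of_le (b := ‖P.π (D.ι (hh z)) w - P.π (D.ι (hh z)) y‖ ^ 2) (pow_pos hzw 2) ?_
    exact Finset.single_le_sum (f := fun z => ‖P.π (D.ι (hh z)) w - P.π (D.ι (hh z)) y‖ ^ 2)
      (fun z _ => by positivity) hz
  have hGE : Ebar P D (cx G) = cx G := by
    have h1 : cx G = P.π (D.ι (∑ z ∈ t, Gf P D y (hh z))) := by
      rw [map_sum, map_sum]
      ext w
      rw [ContinuousMap.sum_apply]
      simp only [Gf_apply]
      rw [← Complex.ofReal_sum]
      rfl
    rw [h1, Ebar_π, D.E_ι]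
  obtain ⟨C, hC⟩ : ∃ C : ℝ, 0 ≤ C ∧ ∀ w, f w ≤ ε + C * G w := by
    have hcont : ContinuousOn (fun w => f w / G w) {z | ε ≤ f z} :=
      f.continuous.continuousOn.div G.continuous.continuousOn (fun w hw => (hGpos w hw).ne')
    obtain ⟨C, hC⟩ := hK.exists_bound_of_continuousOn hcont
    refine ⟨|C|, abs_nonneg _, fun w => ?_⟩
    by_cases hw : ε ≤ f w
    · have h1 := hC w hw
      have h2 := hGpos w hw
      rw [Real.norm_eq_abs, abs_of_nonneg (div_nonneg (hf w) h2.le), div_le_iff₀ h2] at h1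
      have h3 : C * G w ≤ |C| * G w := by gcongr; exact le_abs_self C
      linarith
    · have : 0 ≤ |C| * G w := mul_nonneg (abs_nonneg _) (hG0 w)
      linarith [not_le.1 hw]
  have h1 := Ebar_cx P D (f := ε • (1 : C(Y, ℝ)) + C • G - f) (by
    intro w
    simp only [ContinuousMap.sub_apply, ContinuousMap.add_apply, ContinuousMap.smul_apply,
      ContinuousMap.one_apply, smul_eq_mul, mul_one]
    linarith [hC.2 w]) y
  have h2 : cx (ε • (1 : C(Y, ℝ)) + C • G - f) = (ε : ℂ) • (1 : C(Y, ℂ)) + (C : ℂ) • cx G - cx f := by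
    ext w; simp
  rw [h2, map_sub, map_add, map_smul, map_smul, Ebar_one, hGE] at h1
  simp only [ContinuousMap.sub_apply, ContinuousMap.add_apply, ContinuousMap.smul_apply,
    ContinuousMap.one_apply, smul_eq_mul, mul_one, cx_apply, hGy] at h1
  simp at h1
  linarith [h1.1]

lemma Ebar_supp {f : C(Y, ℂ)} {y : Y} (hy : ∀ z, rel P D y z → f z = 0) : Ebar P D f y = 0 := by
  let f1 : C(Y, ℝ) := ⟨fun z => (f z).re, Complex.continuous_re.comp f.continuous⟩
  let f2 : C(Y, ℝ) := ⟨fun z => (f z).im, Complex.continuous_im.comp f.continuous⟩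
  have hreal : ∀ g : C(Y, ℝ), (∀ z, rel P D y z → g z = 0) → Ebar P D (cx g) y = 0 := by
    intro g hg
    have h1 : cx g = cx (g ⊔ 0) - cx ((-g) ⊔ 0) := by
      ext y
      simp only [cx_apply, ContinuousMap.sub_apply, ContinuousMap.sup_apply,
        ContinuousMap.zero_apply, ContinuousMap.neg_apply]
      rw [← Complex.ofReal_sub]
      congr 1
      rcases le_total 0 (g y) with h | h
      · rw [sup_eq_left.2 h, sup_eq_right.2 (by linarith)]; ring
      · rw [sup_eq_right.2 h, sup_eq_left.2 (by linarith)]; ring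
    rw [h1, map_sub, ContinuousMap.sub_apply,
      Ebar_supp_aux P D (f := g ⊔ 0) (by intro z; simp) (by intro z hz; simp [hg z hz]),
      Ebar_supp_aux P D (f := (-g) ⊔ 0) (by intro z; simp) (by intro z hz; simp [hg z hz]), sub_zero]
  have h1 : f = cx f1 + Complex.I • cx f2 := by
    ext z
    simp only [ContinuousMap.add_apply, ContinuousMap.smul_apply, cx_apply, smul_eq_mul, f1, f2,
      ContinuousMap.coe_mk]
    rw [mul_comm, Complex.re_add_im]
  rw [h1, map_add, map_smul, ContinuousMap.add_apply, ContinuousMap.smul_apply,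
    hreal f1 (by intro z hz; simp [f1, hy z hz]), hreal f2 (by intro z hz; simp [f2, hy z hz])]
  simp

lemma continuous_π : Continuous P.π :=
  AddMonoidHomClass.continuous_of_bound P.π 1 (by
    intro x; simpa using NonUnitalStarAlgHom.norm_apply_le P.π x)

/-- the fibre data of a point -/
noncomputable def fibre (y : Y) : FibreData Y where
  ω :=
    { toFun := fun f => Ebar P D f y
      map_add' := by intro f g; rw [map_add]; rfl
      map_smul' := by intro c f; rw [map_smul]; rfl }
  F := {z | rel P D y z}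
  U := P.π '' D.N
  pos := fun g => (Ebar_star_mul P D g y).1
  real := fun g => (Ebar_star_mul P D g y).2
  one := by
    change Ebar P D 1 y = 1
    rw [Ebar_one]; rfl
  supp := fun f hf => Ebar_supp P D hf
  dense := by
    have h1 := P.surj.denseRange.dense_image (continuous_π P) D.N_dense
    have h2 : Submodule.span ℂ (P.π '' D.N) =
        (Submodule.span ℂ D.N).map (P.π.toAlgHom.toLinearMap) := by
      rw [Submodule.map_span]; rfl
    rw [h2]
    exact h1
  one_mem := ⟨1, by rw [← map_one D.ι]; exact D.N_ι 1, map_one _⟩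
  mul_mem := by
    rintro _ _ ⟨m, hm, rfl⟩ ⟨n, hn, rfl⟩
    exact ⟨m * n, D.N_mul _ _ hm hn, map_mul _ _ _⟩
  smul_mem := by
    rintro c _ ⟨m, hm, rfl⟩
    exact ⟨c • m, D.N_smul c hm, map_smul _ _ _⟩
  star_mem := by
    rintro _ ⟨m, hm, rfl⟩
    exact ⟨star m, D.N_star _ hm, map_star _ _⟩
  absconst := by
    rintro _ ⟨n, hn, rfl⟩ z hz w hw
    obtain ⟨h, hh⟩ := D.N_star_mul n hn
    have h1 : ∀ z, (starRingEnd ℂ) (P.π n z) * P.π n z = P.π (D.ι h) z := by
      intro z
      rw [← hh, map_mul, map_star]; rfl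
    have h2 : P.π (D.ι h) z = P.π (D.ι h) w := by rw [← hz h, ← hw h]
    rw [← h1, ← h1, Complex.conj_mul', Complex.conj_mul'] at h2
    have h3 : ‖P.π n z‖ ^ 2 = ‖P.π n w‖ ^ 2 := by exact_mod_cast h2
    exact (pow_left_inj₀ (norm_nonneg _) (norm_nonneg _) two_ne_zero).1 h3
  const := by
    rintro _ ⟨n, hn, rfl⟩ hne z hz
    change Ebar P D (P.π n) y ≠ 0 at hne
    change P.π n z = Ebar P D (P.π n) y
    rw [Ebar_π] at hne ⊢
    have h1 := congrArg (fun a => P.π a z) (D.N_E n hn)
    simp only [map_mul, map_star, ContinuousMap.mul_apply, ContinuousMap.star_apply] at h1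
    rw [← hz (D.E n)] at h1
    exact mul_left_cancel₀ (star_ne_zero.2 hne) h1

end Pool.Agent.H6.TG
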