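import Pool.Agent.H6.TG.UnitFun

/-!
# The reduced norm in terms of matrix coefficients
-/

set_option linter.unusedSectionVars false

open Topology Filter
open scoped ComplexConjugate ENNReal

namespace Pool.Agent.H6.TG

universe u v w

namespace Twist

variable {X : Type u} {G : Type v} {S : Type w} [TopologicalSpace X] [TopologicalSpace G]
  [TopologicalSpace S] {𝒢 : TopGroupoid X G} (T : Twist 𝒢 S)

lemma act_free {z w : Circle} {σ : S} (h : T.act z σ = T.act w σ) : z = w := by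
  rw [act, act] at h
  have := T.E.mul_right_cancel (by rw [T.s_i]) (by rw [T.s_i]) h
  exact (Prod.mk.inj (T.i_injective this)).2

/-- the phase of an element relative to the chosen lift -/
noncomputable def phase (σ : S) : Circle := (T.exists_act_lift σ).choose

lemma act_phase (σ : S) : T.act (T.phase σ) (T.lift (T.p σ)) = σ :=
  (T.exists_act_lift σ).choose_spec.symm

lemma phase_act (z : Circle) (σ : S) : T.phase (T.act z σ) = z * T.phase σ := by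
  apply T.act_free (σ := T.lift (T.p σ))
  have h1 := T.act_phase (T.act z σ)
  rw [p_act] at h1
  rw [h1, act_mul, act_phase]

lemma phase_lift (γ : G) : T.phase (T.lift γ) = 1 := by
  apply T.act_free (σ := T.lift γ)
  have h1 := T.act_phase (T.lift γ)
  rw [p_lift] at h1
  rw [h1, act_one]

/-- the equivariant function with given values at the chosen lifts -/
noncomputable def ofFun (v : G → ℂ) (σ : S) : ℂ := conj (T.phase σ : ℂ) * v (T.p σ)

lemma equivariant_ofFun (v : G → ℂ) : T.Equivariant (T.ofFun v) := by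
  intro z σ
  rw [ofFun, ofFun, phase_act, p_act, Circle.coe_mul, map_mul, mul_assoc]

@[simp] lemma ofFun_lift (v : G → ℂ) (γ : G) : T.ofFun v (T.lift γ) = v γ := by
  rw [ofFun, phase_lift, p_lift, Circle.coe_one, map_one, one_mul]

/-- the coefficient of `f` between two arrows -/
noncomputable def co (α β : G) : S := T.E.mul (T.lift α) (T.E.inv (T.lift β))

lemma p_co {α β : G} (h : 𝒢.s α = 𝒢.s β) : T.p (T.co α β) = 𝒢.mul α (𝒢.inv β) := by
  rw [co, T.p_mul _ _ (by rw [T.E.r_inv, s_lift, s_lift, h]), p_lift, T.p_inv, p_lift]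

variable {T} in
lemma conv_lift {f ξ : S → ℂ} (hf : T.Equivariant f) (hξ : T.Equivariant ξ) {x : X} {α : G}
    (hα : 𝒢.s α = x) :
    T.conv f ξ (T.lift α) = ∑ᶠ β : {β : G // 𝒢.s β = x}, f (T.co α β) * ξ (T.lift β) := by
  rw [Twist.conv]
  symm
  have hmul : ∀ β : {β : G // 𝒢.s β = x}, 𝒢.s α = 𝒢.r (𝒢.inv β) := by
    intro β; rw [𝒢.r_inv, β.2, hα]
  apply finsum_eq_of_bijective (fun β : {β : G // 𝒢.s β = x} =>
    (⟨𝒢.mul α (𝒢.inv β), by rw [𝒢.r_mul _ _ (hmul β), r_lift]⟩ :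
      {γ : G // 𝒢.r γ = T.E.r (T.lift α)}))
  · constructor
    · intro β β' h
      have h1 : 𝒢.mul α (𝒢.inv β) = 𝒢.mul α (𝒢.inv β') := congrArg Subtype.val h
      have h2 := 𝒢.mul_left_cancel (hmul β) (hmul β') h1
      apply Subtype.ext
      rw [← 𝒢.inv_inv β, h2, 𝒢.inv_inv]
    · rintro ⟨γ, hγ⟩
      rw [r_lift] at hγ
      refine ⟨⟨𝒢.mul (𝒢.inv γ) α, by rw [𝒢.s_mul _ _ (by rw [𝒢.s_inv, hγ]), hα]⟩, ?_⟩
      apply Subtype.ext
      simp only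
      rw [𝒢.inv_mul_rev (by rw [𝒢.s_inv, hγ]), 𝒢.inv_inv,
        𝒢.mul_inv_cancel_left hγ.symm]
  · intro β
    have h1 : T.E.s (T.lift α) = T.E.r (T.E.inv (T.lift β)) := by
      rw [T.E.r_inv, s_lift, s_lift, hα, β.2]
    have h2 := term_eq hf hξ (τ := T.co α β) (τ' := T.lift (𝒢.mul α (𝒢.inv β))) (σ := T.lift α)
      (by rw [T.p_co (by rw [hα, β.2]), p_lift])
      (by rw [co, T.E.r_mul _ _ h1])
    rw [h2]
    congr 2
    rw [co, T.E.inv_mul_rev h1, T.E.inv_inv]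
    symm
    apply T.E.inv_mul_cancel_right
    rw [s_lift, s_lift, β.2, hα]

/-- the sesquilinear form of a function -/
noncomputable def form {x : X} (f : S → ℂ) (F F' : Finset {γ : G // 𝒢.s γ = x})
    (η ξ : {γ : G // 𝒢.s γ = x} → ℂ) : ℂ :=
  ∑ α ∈ F, ∑ β ∈ F', conj (η α) * (f (T.co α β) * ξ β)

/-- the bound of the sesquilinear form -/
def FormBound (f : S → ℂ) (c : ℝ) : Prop := ∀ (x : X) (F F' : Finset {γ : G // 𝒢.s γ = x})
    (η ξ : {γ : G // 𝒢.s γ = x} → ℂ),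
    ‖T.form f F F' η ξ‖ ^ 2 ≤ c ^ 2 * (∑ α ∈ F, ‖η α‖ ^ 2) * ∑ β ∈ F', ‖ξ β‖ ^ 2

lemma ofReal_sum_sq {ι : Type*} (F : Finset ι) (a : ι → ℂ) :
    ENNReal.ofReal (∑ i ∈ F, ‖a i‖ ^ 2) = ∑ i ∈ F, ‖a i‖ₑ ^ 2 := by
  rw [ENNReal.ofReal_sum_of_nonneg (fun i _ => by positivity)]
  apply Finset.sum_congr rfl
  intro i _
  rw [ENNReal.ofReal_pow (norm_nonneg _), ofReal_norm]

lemma formBound_of_reducedNormLE {f : S → ℂ} (hf : T.Equivariant f) {c : ℝ} (hc : 0 ≤ c)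
    (h : T.ReducedNormLE f c) : T.FormBound f c := by
  classical
  intro x F F' η ξ
  let v : G → ℂ := fun γ => if hγ : ∃ h : 𝒢.s γ = x, (⟨γ, h⟩ : {γ : G // 𝒢.s γ = x}) ∈ F' then
    ξ ⟨γ, hγ.1⟩ else 0
  have hv1 : ∀ β ∈ F', v (β : G) = ξ β := by
    intro β hβ
    have : ∃ h : 𝒢.s (β : G) = x, (⟨β, h⟩ : {γ : G // 𝒢.s γ = x}) ∈ F' := ⟨β.2, hβ⟩
    simp only [v]
    rw [dif_pos this]
  have hv2 : ∀ β : {γ : G // 𝒢.s γ = x}, β ∉ F' → v (β : G) = 0 := by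
    intro β hβ
    have : ¬ ∃ h : 𝒢.s (β : G) = x, (⟨β, h⟩ : {γ : G // 𝒢.s γ = x}) ∈ F' := by
      rintro ⟨h, h'⟩; exact hβ h'
    simp only [v]
    rw [dif_neg this]
  let u : {γ : G // 𝒢.s γ = x} → ℂ := fun α => ∑ β ∈ F', f (T.co α β) * ξ β
  have hu : ∀ α : {γ : G // 𝒢.s γ = x}, T.conv f (T.ofFun v) (T.lift α) = u α := by
    intro α
    rw [conv_lift hf (T.equivariant_ofFun v) α.2, finsum_eq_sum_of_support_subset (s := F')]
    · apply Finset.sum_congr rfl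
      intro β hβ
      rw [ofFun_lift, hv1 β hβ]
    · intro β hβ
      by_contra h0
      apply hβ
      simp only [ofFun_lift]
      rw [hv2 β h0, mul_zero]
  have hN : T.normSq x (T.ofFun v) = ENNReal.ofReal (∑ β ∈ F', ‖ξ β‖ ^ 2) := by
    rw [normSq, tsum_eq_sum (s := F'), ofReal_sum_sq]
    · apply Finset.sum_congr rfl
      intro β hβ
      rw [ofFun_lift, hv1 β hβ]
    · intro β hβ
      rw [ofFun_lift, hv2 β hβ]
      simp
  have h1 := h x (T.ofFun v) (T.equivariant_ofFun v) (by rw [hN]; exact ENNReal.ofReal_ne_top)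
  have h2 : ∑ α ∈ F, ‖T.conv f (T.ofFun v) (T.lift α)‖ₑ ^ 2 ≤ T.normSq x (T.conv f (T.ofFun v)) :=
    ENNReal.sum_le_tsum F
  have h3 : ∑ α ∈ F, ‖u α‖ ^ 2 ≤ c ^ 2 * ∑ β ∈ F', ‖ξ β‖ ^ 2 := by
    have h4 := h2.trans h1
    simp only [hu] at h4
    rw [hN, ← ofReal_sum_sq, ← ENNReal.ofReal_pow hc, ← ENNReal.ofReal_mul (by positivity)] at h4
    exact (ENNReal.ofReal_le_ofReal_iff (by positivity)).1 h4
  have h5 : T.form f F F' η ξ = ∑ α ∈ F, conj (η α) * u α := by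
    rw [form]
    apply Finset.sum_congr rfl
    intro α _
    rw [Finset.mul_sum]
  calc ‖T.form f F F' η ξ‖ ^ 2 ≤ (∑ α ∈ F, ‖η α‖ * ‖u α‖) ^ 2 := by
        rw [h5]
        gcongr
        refine (norm_sum_le _ _).trans (le_of_eq ?_)
        apply Finset.sum_congr rfl
        intro α _
        rw [norm_mul, Complex.norm_conj]
    _ ≤ (∑ α ∈ F, ‖η α‖ ^ 2) * ∑ α ∈ F, ‖u α‖ ^ 2 := Finset.sum_mul_sq_le_sq_mul_sq _ _ _
    _ ≤ (∑ α ∈ F, ‖η α‖ ^ 2) * (c ^ 2 * ∑ β ∈ F', ‖ξ β‖ ^ 2) := by gcongr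
    _ = _ := by ring

lemma reducedNormLE_of_formBound [T2Space G] [LocallyCompactSpace G] (hG : 𝒢.IsEtale) {f : S → ℂ}
    (hf : f ∈ T.CcS) {c : ℝ} (hc : 0 ≤ c) (h : T.FormBound f c) : T.ReducedNormLE f c := by
  classical
  intro x ξ hξ _
  rw [normSq, ENNReal.tsum_eq_iSup_sum]
  apply iSup_le
  intro F
  -- finitely many relevant columns
  have hfin : ∀ α : {γ : G // 𝒢.s γ = x}, {β : {γ : G // 𝒢.s γ = x} | f (T.co α β) ≠ 0}.Finite := by
    intro α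
    have hmul : ∀ β : {β : G // 𝒢.s β = x}, 𝒢.s α = 𝒢.r (𝒢.inv β) := by
      intro β; rw [𝒢.r_inv, β.2, α.2]
    let m : {γ : G // 𝒢.s γ = x} → {γ : G // 𝒢.r γ = 𝒢.r (α : G)} := fun β =>
      ⟨𝒢.mul α (𝒢.inv β), by rw [𝒢.r_mul _ _ (hmul β)]⟩
    have hm : Function.Injective m := by
      intro β β' h
      have h1 : 𝒢.mul α (𝒢.inv β) = 𝒢.mul α (𝒢.inv β') := congrArg Subtype.val h
      have h2 := 𝒢.mul_left_cancel (hmul β) (hmul β') h1
      apply Subtype.ext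
      rw [← 𝒢.inv_inv β, h2, 𝒢.inv_inv]
    refine ((T.finite_of_mem hG hf (𝒢.r (α : G))).preimage (f := m) hm.injOn).subset ?_
    intro β hβ
    change f (T.lift (m β)) ≠ 0
    rw [hf.2.2.ne_zero_iff (τ := T.co α β)]
    · exact hβ
    · rw [T.p_co (by rw [α.2, β.2]), p_lift]
  let F' : Finset {γ : G // 𝒢.s γ = x} := F.biUnion (fun α => (hfin α).toFinset)
  let u : {γ : G // 𝒢.s γ = x} → ℂ := fun α => ∑ β ∈ F', f (T.co α β) * ξ (T.lift β)
  have hu : ∀ α ∈ F, T.conv f ξ (T.lift α) = u α := by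
    intro α hα
    rw [conv_lift hf.2.2 hξ α.2, finsum_eq_sum_of_support_subset (s := F')]
    intro β hβ
    have h1 : f (T.co α β) ≠ 0 := left_ne_zero_of_mul hβ
    rw [Finset.mem_coe, Finset.mem_biUnion]
    exact ⟨α, hα, (hfin α).mem_toFinset.2 h1⟩
  have h1 := h x F F' u (fun β => ξ (T.lift β))
  have h2 : T.form f F F' u (fun β => ξ (T.lift β)) = ((∑ α ∈ F, ‖u α‖ ^ 2 : ℝ) : ℂ) := by
    rw [form, Complex.ofReal_sum]
    apply Finset.sum_congr rfl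
    intro α _
    rw [← Finset.mul_sum]
    change conj (u α) * u α = _
    rw [Complex.conj_mul']
    push_cast
    rfl
  rw [h2, Complex.norm_real, Real.norm_of_nonneg (by positivity)] at h1
  have h3 : ∑ α ∈ F, ‖u α‖ ^ 2 ≤ c ^ 2 * ∑ β ∈ F', ‖ξ (T.lift β)‖ ^ 2 := by
    set A := ∑ α ∈ F, ‖u α‖ ^ 2 with hA
    have hA0 : 0 ≤ A := by positivity
    rcases hA0.eq_or_lt with h0 | h0
    · rw [← h0]; positivity
    · have h4 : A * A ≤ A * (c ^ 2 * ∑ β ∈ F', ‖ξ (T.lift β)‖ ^ 2) := by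
        calc A * A = A ^ 2 := by ring
          _ ≤ _ := h1
          _ = _ := by ring
      exact le_of_mul_le_mul_left h4 h0
  calc ∑ α ∈ F, ‖T.conv f ξ (T.lift α)‖ₑ ^ 2 = ∑ α ∈ F, ‖u α‖ₑ ^ 2 := by
        apply Finset.sum_congr rfl
        intro α hα
        rw [hu α hα]
    _ = ENNReal.ofReal (∑ α ∈ F, ‖u α‖ ^ 2) := (ofReal_sum_sq _ _).symm
    _ ≤ ENNReal.ofReal (c ^ 2 * ∑ β ∈ F', ‖ξ (T.lift β)‖ ^ 2) := ENNReal.ofReal_le_ofReal h3
    _ = ENNReal.ofReal c ^ 2 * ∑ β ∈ F', ‖ξ (T.lift β)‖ₑ ^ 2 := by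
        rw [ENNReal.ofReal_mul (by positivity), ENNReal.ofReal_pow hc, ofReal_sum_sq]
    _ ≤ ENNReal.ofReal c ^ 2 * T.normSq x ξ := by
        gcongr
        exact ENNReal.sum_le_tsum F'

lemma norm_le_of_reducedNormLE {f : S → ℂ} (hf : T.Equivariant f) {c : ℝ} (hc : 0 ≤ c)
    (h : T.ReducedNormLE f c) (σ : S) : ‖f σ‖ ≤ c := by
  have h1 := T.formBound_of_reducedNormLE hf hc h (T.E.s σ)
    {(⟨T.p σ, T.s_p σ⟩ : {γ : G // 𝒢.s γ = T.E.s σ})}
    {(⟨𝒢.unit (T.E.s σ), 𝒢.s_unit _⟩ : {γ : G // 𝒢.s γ = T.E.s σ})} (fun _ => 1) (fun _ => 1)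
  simp only [form, Finset.sum_singleton, map_one, one_mul, mul_one, norm_one, one_pow] at h1
  have h2 : ‖f σ‖ = ‖f (T.co (T.p σ) (𝒢.unit (T.E.s σ)))‖ := by
    apply hf.norm_eq
    rw [T.p_co (by rw [T.s_p, 𝒢.s_unit]), 𝒢.inv_unit]
    have := 𝒢.mul_unit (T.p σ)
    rw [T.s_p] at this
    exact this.symm
  rw [h2]
  exact (sq_le_sq₀ (norm_nonneg _) hc).1 h1

end Twist

end Pool.Agent.H6.TG
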