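import Pool.Agent.H6.TG.Wc
import Pool.Agent.H6.TG.Kc
import Pool.Agent.H6.TG.CircleCase

/-!
# The shift operators
-/

set_option linter.unusedSectionVars false

open ContinuousLinearMap InnerProductSpace Topology Filter
open scoped ComplexConjugate Classical InnerProductSpace ENNReal lp

namespace Pool.Agent.H6.TG

abbrev II : Type := ℕ ⊕ ((ℕ × ℕ) × ℕ)
abbrev JJ : Type := ℤ ⊕ ((ℕ × ℕ) × ℕ)
abbrev HI : Type := L2 II
abbrev HJ : Type := L2 JJ

def emb : II → JJ := Sum.map (fun n => (n : ℤ)) id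

lemma emb_injective : Function.Injective emb := by
  apply Function.Injective.sumMap
  · exact fun a b h => by exact_mod_cast h
  · exact Function.injective_id

@[simp] lemma emb_inl (n : ℕ) : emb (Sum.inl n) = Sum.inl (n : ℤ) := rfl
@[simp] lemma emb_inr (x : (ℕ × ℕ) × ℕ) : emb (Sum.inr x) = Sum.inr x := rfl

/-- restriction -/
noncomputable def Rr : HJ →L[ℂ] HI :=
  wc emb (fun _ => 1) 1 (by simp) (fun _ _ _ _ h => emb_injective h)

/-- inclusion -/
noncomputable def Vv : HI →L[ℂ] HJ := adjoint Rr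

lemma Rr_apply (g : HJ) (i : II) : Rr g i = g (emb i) := by
  simp [Rr]

lemma Rr_e_emb (i : II) : Rr (e (emb i)) = e i := by
  ext j
  rw [Rr_apply, e_apply, e_apply]
  by_cases h : j = i
  · rw [if_pos h, if_pos (by rw [h])]
  · rw [if_neg h, if_neg (fun h' => h (emb_injective h'))]

lemma Vv_emb (f : HI) (i : II) : Vv f (emb i) = f i := by
  rw [Vv, ← inner_e_left, adjoint_inner_right, Rr_e_emb, inner_e_left]

lemma Vv_out (f : HI) (j : JJ) (hj : j ∉ Set.range emb) : Vv f j = 0 := by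
  rw [Vv, ← inner_e_left, adjoint_inner_right]
  have : Rr (e j) = 0 := by
    ext i
    rw [Rr_apply, e_apply, if_neg]
    · rfl
    · rintro rfl; exact hj ⟨i, rfl⟩
  rw [this, inner_zero_left]

lemma Rr_Vv_apply (f : HI) : Rr (Vv f) = f := by
  ext i
  rw [Rr_apply, Vv_emb]

lemma Rr_Vv : Rr ∘L Vv = 1 := by
  ext1 f
  exact Rr_Vv_apply f

lemma adjoint_Vv : adjoint Vv = Rr := by rw [Vv, adjoint_adjoint]

/-- weights of the bilateral shift -/
noncomputable def cW : JJ → ℂ := Sum.elim (fun _ => 1) (fun x => pts x.1)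

lemma norm_pts_le (p : ℕ × ℕ) : ‖pts p‖ ≤ 2 := by
  rw [norm_pts]
  have : 1 / ((p.1 : ℝ) + p.2 + 1) ≤ 1 := by
    rw [div_le_one (by positivity)]
    have h1 : (0 : ℝ) ≤ p.1 := Nat.cast_nonneg _
    have h2 : (0 : ℝ) ≤ p.2 := Nat.cast_nonneg _
    linarith
  linarith

lemma norm_cW_le (j : JJ) : ‖cW j‖ ≤ 2 := by
  rcases j with n | x
  · simp [cW]
  · exact norm_pts_le _

def sh (k : ℤ) : JJ → JJ := Sum.map (fun n => n - k) id

lemma sh_injective (k : ℤ) : Function.Injective (sh k) := by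
  apply Function.Injective.sumMap
  · exact fun a b h => by simpa using h
  · exact Function.injective_id

@[simp] lemma sh_inl (k n : ℤ) : sh k (Sum.inl n) = Sum.inl (n - k) := rfl
@[simp] lemma sh_inr (k : ℤ) (x : (ℕ × ℕ) × ℕ) : sh k (Sum.inr x) = Sum.inr x := rfl

/-- the direct sum of the bilateral shift and a diagonal operator -/
noncomputable def Ww : HJ →L[ℂ] HJ :=
  wc (sh 1) cW 2 norm_cW_le (fun _ _ _ _ h => sh_injective _ h)

/-- its adjoint -/
noncomputable def Ws : HJ →L[ℂ] HJ :=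
  wc (sh (-1)) (fun j => conj (cW j)) 2 (by simpa using norm_cW_le)
    (fun _ _ _ _ h => sh_injective _ h)

@[simp] lemma Ww_inl (g : HJ) (n : ℤ) : Ww g (Sum.inl n) = g (Sum.inl (n - 1)) := by
  simp [Ww, cW]

@[simp] lemma Ww_inr (g : HJ) (x : (ℕ × ℕ) × ℕ) : Ww g (Sum.inr x) = pts x.1 * g (Sum.inr x) := by
  simp [Ww, cW]

@[simp] lemma Ws_inl (g : HJ) (n : ℤ) : Ws g (Sum.inl n) = g (Sum.inl (n + 1)) := by
  simp [Ws, cW]

@[simp] lemma Ws_inr (g : HJ) (x : (ℕ × ℕ) × ℕ) :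
    Ws g (Sum.inr x) = conj (pts x.1) * g (Sum.inr x) := by
  simp [Ws, cW]

lemma Ww_e_inl (n : ℤ) : Ww (e (Sum.inl n)) = e (Sum.inl (n + 1)) := by
  ext j
  rcases j with m | x
  · rw [Ww_inl, e_apply, e_apply]
    simp only [Sum.inl.injEq]
    congr 1
    apply propext
    constructor <;> intro h <;> omega
  · rw [Ww_inr, e_apply, e_apply]
    simp

lemma Ww_e_inr (x : (ℕ × ℕ) × ℕ) : Ww (e (Sum.inr x)) = pts x.1 • e (Sum.inr x) := by
  ext j
  rcases j with m | y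
  · rw [Ww_inl, lp.coeFn_smul, Pi.smul_apply, e_apply, e_apply]
    simp
  · rw [Ww_inr, lp.coeFn_smul, Pi.smul_apply, e_apply, smul_eq_mul]
    by_cases h : y = x
    · subst h; rfl
    · simp [h]

lemma adjoint_Ww : adjoint Ww = Ws := by
  ext1 g
  ext j
  rw [adjoint_coord]
  rcases j with m | y
  · rw [Ww_e_inl, inner_e_left, Ws_inl]
  · rw [Ww_e_inr, inner_smul_left, inner_e_left, Ws_inr]

lemma star_Ww : star Ww = Ws := adjoint_Ww

lemma Ws_Ww : Ws * Ww = Ww * Ws := by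
  ext1 g
  ext j
  rw [mul_apply_eq_comp, mul_apply_eq_comp]
  rcases j with m | y
  · simp
  · simp; ring

instance : IsStarNormal Ww := ⟨by rw [star_Ww]; exact Ws_Ww⟩

/-- the projection onto the bilateral part -/
noncomputable def Pj : HJ →L[ℂ] HJ :=
  wc id (Sum.elim (fun _ => 1) (fun _ => 0)) 1 (by rintro (n | x) <;> simp) (fun _ _ _ _ h => h)

@[simp] lemma Pj_inl (g : HJ) (n : ℤ) : Pj g (Sum.inl n) = g (Sum.inl n) := by
  simp [Pj]

@[simp] lemma Pj_inr (g : HJ) (x : (ℕ × ℕ) × ℕ) : Pj g (Sum.inr x) = 0 := by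
  simp [Pj]

/-- a unitary operator extending the bilateral shift -/
noncomputable def U1 (k : ℤ) : HJ →L[ℂ] HJ :=
  wc (sh k) (fun _ => 1) 1 (by simp) (fun _ _ _ _ h => sh_injective _ h)

@[simp] lemma U1_inl (k : ℤ) (g : HJ) (n : ℤ) : U1 k g (Sum.inl n) = g (Sum.inl (n - k)) := by
  simp [U1]

@[simp] lemma U1_inr (k : ℤ) (g : HJ) (x : (ℕ × ℕ) × ℕ) : U1 k g (Sum.inr x) = g (Sum.inr x) := by
  simp [U1]

lemma U1_e_inl (k n : ℤ) : U1 k (e (Sum.inl n)) = e (Sum.inl (n + k)) := by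
  ext j
  rcases j with m | x
  · rw [U1_inl, e_apply, e_apply]
    simp only [Sum.inl.injEq]
    congr 1
    apply propext
    constructor <;> intro h <;> omega
  · rw [U1_inr, e_apply, e_apply]
    simp

lemma U1_e_inr (k : ℤ) (x : (ℕ × ℕ) × ℕ) : U1 k (e (Sum.inr x)) = e (Sum.inr x) := by
  ext j
  rcases j with m | y
  · rw [U1_inl, e_apply, e_apply]
    simp
  · rw [U1_inr]

lemma star_U1 : star (U1 1) = U1 (-1) := by
  rw [star_eq_adjoint]
  ext1 g
  ext j
  rw [adjoint_coord]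
  rcases j with m | y
  · rw [U1_e_inl, inner_e_left, U1_inl, sub_neg_eq_add]
  · rw [U1_e_inr, inner_e_left, U1_inr]

lemma U1_mem_unitary : U1 1 ∈ unitary (HJ →L[ℂ] HJ) := by
  rw [Unitary.mem_iff, star_U1]
  constructor
  · ext1 g
    ext j
    rw [mul_apply_eq_comp]
    rcases j with m | y <;> simp
  · ext1 g
    ext j
    rw [mul_apply_eq_comp]
    rcases j with m | y <;> simp

lemma dist_pos {l : ℂ} (hl : l ∉ Yset) : ∃ c > 0, ∀ p, c ≤ ‖l - pts p‖ := by
  have h := isClosed_Yset.isOpen_compl.mem_nhds hl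
  obtain ⟨c, hc, hb⟩ := Metric.mem_nhds_iff.1 h
  refine ⟨c, hc, fun p => ?_⟩
  by_contra hcon
  push Not at hcon
  have : pts p ∈ Yset := Or.inr ⟨p, rfl⟩
  exact hb (by rw [Metric.mem_ball, dist_comm, dist_eq_norm]; exact hcon) this

lemma isUnit_sub {l : ℂ} (hl : l ∉ Yset) : IsUnit (algebraMap ℂ (HJ →L[ℂ] HJ) l - Ww) := by
  have h1 : l ∉ spectrum ℂ (U1 1) := by
    intro h
    apply hl
    left
    have := spectrum.subset_circle_of_unitary U1_mem_unitary h
    simpa using this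
  rw [spectrum.notMem_iff] at h1
  obtain ⟨u, hu⟩ := h1
  obtain ⟨c, hc, hd⟩ := dist_pos hl
  let d : JJ → ℂ := Sum.elim (fun _ => 0) (fun x => (l - pts x.1)⁻¹)
  let D : HJ →L[ℂ] HJ := wc id d c⁻¹ (by
    rintro (n | x)
    · simp [d, hc.le]
    · simp only [d, Sum.elim_inr, norm_inv]
      exact inv_anti₀ hc (hd _)) (fun _ _ _ _ h => h)
  have hD1 : ∀ (g : HJ) (n : ℤ), D g (Sum.inl n) = 0 := by intro g n; simp [D, d]
  have hD2 : ∀ (g : HJ) x, D g (Sum.inr x) = (l - pts x.1)⁻¹ * g (Sum.inr x) := by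
    intro g n; simp [D, d]
  have e1 : (algebraMap ℂ (HJ →L[ℂ] HJ) l - Ww) * Pj = (u : HJ →L[ℂ] HJ) * Pj := by
    rw [hu]
    ext1 g
    ext j
    rw [mul_apply_eq_comp, mul_apply_eq_comp]
    rcases j with m | y <;> simp [Algebra.algebraMap_eq_smul_one]
  have e2 : (u : HJ →L[ℂ] HJ) * Pj = Pj * u := by
    rw [hu]
    ext1 g
    ext j
    rw [mul_apply_eq_comp, mul_apply_eq_comp]
    rcases j with m | y <;> simp [Algebra.algebraMap_eq_smul_one]
  have e2' : (algebraMap ℂ (HJ →L[ℂ] HJ) l - Ww) * Pj = Pj * (algebraMap ℂ (HJ →L[ℂ] HJ) l - Ww) := by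
    ext1 g
    ext j
    rw [mul_apply_eq_comp, mul_apply_eq_comp]
    rcases j with m | y <;> simp [Algebra.algebraMap_eq_smul_one]
  have e3 : (algebraMap ℂ (HJ →L[ℂ] HJ) l - Ww) * D = 1 - Pj := by
    ext1 g
    ext j
    rw [mul_apply_eq_comp]
    rcases j with m | y
    · simp [Algebra.algebraMap_eq_smul_one, hD1]
    · have h3 : l - pts y.1 ≠ 0 := by
        intro h0
        have := hd y.1
        rw [h0, norm_zero] at this
        linarith
      simp [Algebra.algebraMap_eq_smul_one, hD2]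
      field_simp
  have e4 : D * (algebraMap ℂ (HJ →L[ℂ] HJ) l - Ww) = 1 - Pj := by
    ext1 g
    ext j
    rw [mul_apply_eq_comp]
    rcases j with m | y
    · simp [Algebra.algebraMap_eq_smul_one, hD1]
    · have h3 : l - pts y.1 ≠ 0 := by
        intro h0
        have := hd y.1
        rw [h0, norm_zero] at this
        linarith
      simp [Algebra.algebraMap_eq_smul_one, hD2]
      field_simp
  rw [isUnit_iff_exists]
  refine ⟨Pj * (↑u⁻¹ : HJ →L[ℂ] HJ) + D, ?_, ?_⟩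
  · rw [mul_add, e3, ← mul_assoc, e1, e2, mul_assoc, Units.mul_inv]
    simp
  · have e5 : Pj * (↑u⁻¹ : HJ →L[ℂ] HJ) = (↑u⁻¹ : HJ →L[ℂ] HJ) * Pj := by
      calc Pj * (↑u⁻¹ : HJ →L[ℂ] HJ) = (↑u⁻¹ : HJ →L[ℂ] HJ) * (u * Pj) * (↑u⁻¹ : HJ →L[ℂ] HJ) := by
            rw [← mul_assoc, Units.inv_mul, one_mul]
        _ = (↑u⁻¹ : HJ →L[ℂ] HJ) * Pj := by
            rw [e2, mul_assoc, mul_assoc, Units.mul_inv, mul_one]
    rw [add_mul, e4, e5, mul_assoc, ← e2', e1, ← mul_assoc, Units.inv_mul]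
    simp

lemma spectrum_Ww : spectrum ℂ Ww ⊆ Yset := by
  intro l hl
  by_contra h
  rw [spectrum.mem_iff] at hl
  exact hl (isUnit_sub h)

end Pool.Agent.H6.TG
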