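import Mathlib

/-!
# The space `Y`: a circle and isolated points accumulating at `1` and `e^{i/k}`

A closed equivalence relation on `Y` with lower semicontinuous classes, in which classes with an
isolated point are finite, has trivial classes on the circle.
-/

open Filter Topology Complex Set

namespace Pool.Agent.H6.TG

/-- the isolated points -/
noncomputable def pts (p : ℕ × ℕ) : ℂ :=
  ((1 + 1 / ((p.1 : ℝ) + p.2 + 1) : ℝ) : ℂ) * exp (((1 / ((p.1 : ℝ) + 1) : ℝ) : ℂ) * I)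

/-- the circle together with the points `pts p` -/
def Yset : Set ℂ := {z | ‖z‖ = 1} ∪ range pts

lemma norm_pts (p : ℕ × ℕ) : ‖pts p‖ = 1 + 1 / ((p.1 : ℝ) + p.2 + 1) := by
  rw [pts, norm_mul, norm_exp_ofReal_mul_I, mul_one, norm_real, Real.norm_of_nonneg]
  positivity

lemma one_lt_norm_pts (p : ℕ × ℕ) : 1 < ‖pts p‖ := by
  rw [norm_pts]
  have : 0 < 1 / ((p.1 : ℝ) + p.2 + 1) := by positivity
  linarith

/-- `Y` as a type -/
abbrev Y0 : Type := Yset

/-- the point `e^{iθ}` -/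
noncomputable def cp (θ : ℝ) : Y0 := ⟨exp (θ * I), Or.inl (norm_exp_ofReal_mul_I θ)⟩

noncomputable def ip (p : ℕ × ℕ) : Y0 := ⟨pts p, Or.inr ⟨p, rfl⟩⟩

noncomputable def qp (k : ℕ) : Y0 := cp (1 / ((k : ℝ) + 1))

lemma continuous_cp : Continuous cp := by
  unfold cp; fun_prop

@[simp] lemma norm_cp (θ : ℝ) : ‖(cp θ : ℂ)‖ = 1 := norm_exp_ofReal_mul_I θ

lemma cp_two_pi : cp (2 * Real.pi) = cp 0 := by
  apply Subtype.ext
  simp [cp]

lemma finite_norm_gt {ε : ℝ} (hε : 0 < ε) : {y : Y0 | 1 + ε < ‖(y : ℂ)‖}.Finite := by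
  obtain ⟨n, hn⟩ := exists_nat_gt (1 / ε)
  have : {y : Y0 | 1 + ε < ‖(y : ℂ)‖} ⊆ ip '' ((Finset.range n ×ˢ Finset.range n : Finset _) : Set _) := by
    rintro ⟨y, hy⟩ h
    simp only [Set.mem_ofPred_eq] at h
    rcases hy with hy | ⟨p, rfl⟩
    · simp only [Set.mem_ofPred_eq] at hy
      rw [hy] at h; linarith
    · rw [norm_pts] at h
      have h1 : ε < 1 / ((p.1 : ℝ) + p.2 + 1) := by linarith
      have h2 : (p.1 : ℝ) + p.2 + 1 < n := by
        rw [lt_div_iff₀ (by positivity)] at h1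
        have : (p.1 : ℝ) + p.2 + 1 < 1 / ε := by
          rw [lt_div_iff₀ hε]; linarith
        linarith
      have h3 : p.1 + p.2 + 1 < n := by exact_mod_cast h2
      refine ⟨p, ?_, rfl⟩
      simp only [Finset.coe_product, Finset.coe_range, mem_prod, mem_Iio]
      omega
  exact (Finset.finite_toSet _).image _ |>.subset this

lemma isOpen_singleton_of_norm {y : Y0} (hy : 1 < ‖(y : ℂ)‖) : IsOpen ({y} : Set Y0) := by
  obtain ⟨ε, hε, h⟩ : ∃ ε > 0, 1 + ε < ‖(y : ℂ)‖ := ⟨(‖(y : ℂ)‖ - 1) / 2, by linarith, by linarith⟩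
  have hf := finite_norm_gt hε
  have ho : IsOpen {y : Y0 | 1 + ε < ‖(y : ℂ)‖} := isOpen_lt (by fun_prop) (by fun_prop)
  have h2 : ({y} : Set Y0) = {y : Y0 | 1 + ε < ‖(y : ℂ)‖} \ ({y : Y0 | 1 + ε < ‖(y : ℂ)‖} \ {y}) := by
    ext z
    simp only [mem_singleton_iff, Set.mem_sdiff, Set.mem_ofPred_eq, not_and, not_not]
    constructor
    · rintro rfl; exact ⟨h, fun _ => rfl⟩
    · rintro ⟨h1, h2⟩; exact h2 h1
  rw [h2]
  exact ho.sdiff (hf.subset sdiff_subset).isClosed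

lemma norm_eq_one_or {y : Y0} : ‖(y : ℂ)‖ = 1 ∨ 1 < ‖(y : ℂ)‖ := by
  obtain ⟨y, hy | ⟨p, rfl⟩⟩ := y
  · exact Or.inl hy
  · exact Or.inr (one_lt_norm_pts p)

lemma exists_cp {y : Y0} (hy : ‖(y : ℂ)‖ = 1) : ∃ θ ∈ Ico (0 : ℝ) (2 * Real.pi), cp θ = y := by
  have h1 : (y : ℂ) = exp (arg y * I) := by
    have := norm_mul_exp_arg_mul_I (y : ℂ)
    rw [hy] at this
    simpa using this.symm
  by_cases h : 0 ≤ arg (y : ℂ)
  · refine ⟨arg y, ⟨h, ?_⟩, Subtype.ext h1.symm⟩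
    have := arg_le_pi (y : ℂ)
    have := Real.pi_pos
    linarith
  · refine ⟨arg y + 2 * Real.pi, ⟨?_, ?_⟩, ?_⟩
    · have := neg_pi_lt_arg (y : ℂ)
      have := Real.pi_pos
      linarith
    · push Not at h; linarith
    · apply Subtype.ext
      simp only [cp]
      push_cast
      rw [add_mul, exp_add, exp_two_pi_mul_I, mul_one, ← h1]

lemma cp_inj {θ θ' : ℝ} (h : θ ∈ Ico (0 : ℝ) (2 * Real.pi)) (h' : θ' ∈ Ico (0 : ℝ) (2 * Real.pi))
    (he : cp θ = cp θ') : θ = θ' := by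
  have h1 : exp (θ * I) = exp (θ' * I) := congrArg Subtype.val he
  rw [exp_eq_exp_iff_exists_int] at h1
  obtain ⟨n, hn⟩ := h1
  have h2 : θ = θ' + n * (2 * Real.pi) := by
    have h3 : (θ : ℂ) * I = ((θ' + n * (2 * Real.pi) : ℝ) : ℂ) * I := by
      rw [hn]; push_cast; ring
    have h4 := mul_right_cancel₀ I_ne_zero h3
    exact_mod_cast h4
  have hpi := Real.pi_pos
  have h5 : (n : ℝ) < 1 := by
    by_contra hc
    push Not at hc
    nlinarith [h.1, h.2, h'.1, h'.2]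
  have h6 : (-1 : ℝ) < n := by
    by_contra hc
    push Not at hc
    nlinarith [h.1, h.2, h'.1, h'.2]
  have h7 : n = 0 := by
    have : n < 1 := by exact_mod_cast h5
    have : -1 < n := by exact_mod_cast h6
    omega
  rw [h2, h7]; simp

lemma tendsto_qp : Tendsto qp atTop (𝓝 (cp 0)) := by
  have h1 : Tendsto (fun k : ℕ => 1 / ((k : ℝ) + 1)) atTop (𝓝 0) :=
    tendsto_one_div_add_atTop_nhds_zero_nat
  exact (continuous_cp.tendsto 0).comp h1

lemma tendsto_ip (k : ℕ) : Tendsto (fun j => ip (k, j)) atTop (𝓝 (qp k)) := by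
  rw [tendsto_subtype_rng]
  simp only [ip, qp, cp, pts]
  have h1 : Tendsto (fun j : ℕ => (1 + 1 / ((k : ℝ) + j + 1))) atTop (𝓝 (1 + 0)) := by
    apply tendsto_const_nhds.add
    have h2 : Tendsto (fun j : ℕ => ((k : ℝ) + j + 1)) atTop atTop := by
      apply tendsto_atTop_add_const_right
      apply tendsto_atTop_add_const_left
      exact tendsto_natCast_atTop_atTop
    simp only [one_div]
    exact tendsto_inv_atTop_zero.comp h2
  have h3 := ((continuous_ofReal.tendsto _).comp h1).mul_const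
    (exp (((1 / ((k : ℝ) + 1) : ℝ) : ℂ) * I))
  simpa using h3

/-- the accumulation points of the isolated points -/
def Qset : Set Y0 := insert (cp 0) (range qp)

lemma isCompact_Qset : IsCompact Qset := tendsto_qp.isCompact_insert_range

lemma exists_ip_mem {p : Y0} (hp : p ∈ Qset) {O : Set Y0} (hO : O ∈ 𝓝 p) : ∃ r, ip r ∈ O := by
  have h1 : ∀ k, ∀ O ∈ 𝓝 (qp k), ∃ r, ip r ∈ O := by
    intro k O hO
    obtain ⟨j, hj⟩ := ((tendsto_ip k).eventually hO).exists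
    exact ⟨_, hj⟩
  rcases hp with rfl | ⟨k, rfl⟩
  · obtain ⟨U, hUO, hU, hU0⟩ := mem_nhds_iff.1 hO
    obtain ⟨k, hk⟩ := (tendsto_qp.eventually (hU.mem_nhds hU0)).exists
    obtain ⟨r, hr⟩ := h1 k U (hU.mem_nhds hk)
    exact ⟨r, hUO hr⟩
  · exact h1 k O hO

/-- near a point of the circle outside `Q` there are no isolated points -/
lemma exists_nhds_norm {w : Y0} (hw : ‖(w : ℂ)‖ = 1) (hwQ : w ∉ Qset) :
    ∃ O : Set Y0, IsOpen O ∧ w ∈ O ∧ ∀ y ∈ O, ‖(y : ℂ)‖ = 1 := by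
  obtain ⟨η, hη, hd⟩ := Metric.isOpen_iff.1 isCompact_Qset.isClosed.isOpen_compl w hwQ
  refine ⟨Metric.ball w (η / 2), Metric.isOpen_ball, Metric.mem_ball_self (by positivity), ?_⟩
  rintro ⟨y, hy | ⟨p, rfl⟩⟩ hyO
  · exact hy
  exfalso
  rw [Metric.mem_ball, Subtype.dist_eq] at hyO
  simp only at hyO
  -- the distance from pts p to e^{i/(k+1)}
  set ρ : ℝ := 1 / ((p.1 : ℝ) + p.2 + 1) with hρ
  have hρ0 : 0 < ρ := by positivity
  have h1 : dist (qp p.1) w ≥ η := by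
    by_contra hlt
    push Not at hlt
    exact hd (Metric.mem_ball.2 hlt) (Or.inr ⟨p.1, rfl⟩)
  rw [Subtype.dist_eq] at h1
  have h2 : dist (pts p) (qp p.1 : ℂ) = ρ := by
    rw [dist_eq_norm]
    have : pts p - (qp p.1 : ℂ) = (ρ : ℂ) * exp (((1 / ((p.1 : ℝ) + 1) : ℝ) : ℂ) * I) := by
      simp only [pts, qp, cp, hρ]
      push_cast
      ring
    rw [this, norm_mul, norm_exp_ofReal_mul_I, mul_one, norm_real, Real.norm_of_nonneg hρ0.le]
  have h3 : ρ ≤ dist (pts p) (w : ℂ) := by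
    have := norm_sub_norm_le (pts p) (w : ℂ)
    rw [norm_pts, hw] at this
    rw [dist_eq_norm]
    linarith
  have h4 := dist_triangle_left (qp p.1 : ℂ) (w : ℂ) (pts p)
  rw [h2] at h4
  linarith

end Pool.Agent.H6.TG
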