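import Pool.Agent.H6.TG.RNorm
import Pool.Agent.H6.TG.Data

/-!
# A unital reduced twisted groupoid C*-algebra carries diagonal data
-/

set_option linter.unusedSectionVars false

open Topology Filter
open scoped ComplexConjugate ENNReal BoundedContinuousFunction

namespace Pool.Agent.H6.TG

universe u v w

/-- an isomorphism of `A` with the reduced C*-algebra -/
structure Rlz {X : Type u} {G : Type v} {S : Type w} [TopologicalSpace X] [TopologicalSpace G]
    [TopologicalSpace S] {𝒢 : TopGroupoid X G} (T : Twist 𝒢 S) (A : Type*) [CStarAlgebra A] where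
  Φ : T.CcS →ₗ[ℂ] A
  hmul : ∀ f g h : T.CcS, (h : S → ℂ) = T.conv f g → Φ h = Φ f * Φ g
  hstar : ∀ f g : T.CcS, (g : S → ℂ) = T.invol f → Φ g = star (Φ f)
  hnorm : ∀ (f : T.CcS) (c : ℝ), 0 ≤ c → (‖Φ f‖ ≤ c ↔ T.ReducedNormLE f c)
  hdense : DenseRange Φ
  hG : 𝒢.IsEtale

namespace Rlz

variable {X : Type u} {G : Type v} {S : Type w} [TopologicalSpace X] [TopologicalSpace G]
  [TopologicalSpace S] {𝒢 : TopGroupoid X G} {T : Twist 𝒢 S} {A : Type*} [CStarAlgebra A]
  (R : Rlz T A)

lemma norm_le (f : T.CcS) (σ : S) : ‖(f : S → ℂ) σ‖ ≤ ‖R.Φ f‖ :=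
  T.norm_le_of_reducedNormLE f.2.2.2 (norm_nonneg _) ((R.hnorm f _ (norm_nonneg _)).1 le_rfl) σ

/-- to prove a closed property of all elements it suffices to prove it on the range of `Φ` -/
@[elab_as_elim]
lemma induct {p : A → Prop} (hc : IsClosed {a | p a}) (h : ∀ f : T.CcS, p (R.Φ f)) (a : A) : p a :=
  R.hdense.induction_on (p := p) a hc h

section compact

variable [T2Space G] [LocallyCompactSpace G] [T2Space S]

/-- product of two elements -/
lemma mul_eq (f g : T.CcS) : R.Φ f * R.Φ g = R.Φ ⟨T.conv f g, T.conv_mem R.hG f.2 g.2⟩ :=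
  (R.hmul f g _ rfl).symm

lemma star_eq (f : T.CcS) : star (R.Φ f) = R.Φ ⟨T.invol f, T.invol_mem f.2⟩ :=
  (R.hstar f _ rfl).symm

include R in
theorem compactSpace : CompactSpace X := by
  have : T2Space X := 𝒢.t2Space
  have : LocallyCompactSpace X := 𝒢.locallyCompactSpace
  obtain ⟨f, hf⟩ := R.hdense.exists_dist_lt (1 : A) (show (0 : ℝ) < 1 / 2 by norm_num)
  rw [dist_eq_norm] at hf
  have hK : IsCompact (T.E.r '' tsupport (f : S → ℂ)) := IsCompact.image f.2.2.1 T.E.continuous_r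
  suffices h : (Set.univ : Set X) ⊆ T.E.r '' tsupport (f : S → ℂ) by
    exact ⟨hK.of_isClosed_subset isClosed_univ h⟩
  intro x _
  by_contra hx
  obtain ⟨h, h1, h0, hc, -⟩ := exists_continuous_one_zero_of_isCompact (isCompact_singleton (x := x))
    hK.isClosed (Set.disjoint_singleton_left.2 hx)
  have hh : Continuous (fun y => ((h y : ℝ) : ℂ)) := Complex.continuous_ofReal.comp h.continuous
  have hhc : HasCompactSupport (fun y => ((h y : ℝ) : ℂ)) :=
    hc.comp_left (g := fun t : ℝ => (t : ℂ)) Complex.ofReal_zero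
  let F : T.CcS := ⟨T.unitFun (fun y => ((h y : ℝ) : ℂ)), T.unitFun_mem R.hG hh hhc⟩
  have hFf : R.Φ F * R.Φ f = 0 := by
    rw [R.mul_eq]
    have : (⟨T.conv F f, T.conv_mem R.hG F.2 f.2⟩ : T.CcS) = 0 := by
      apply Subtype.ext
      change T.conv (T.unitFun (fun y => ((h y : ℝ) : ℂ))) f = 0
      rw [T.conv_unitFun _ f.2.2.2]
      ext σ
      simp only [Pi.zero_apply]
      by_cases h2 : (f : S → ℂ) σ = 0
      · rw [h2, mul_zero]
      · have h3 : h (T.E.r σ) = 0 := h0 ⟨σ, subset_tsupport _ h2, rfl⟩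
        rw [h3, Complex.ofReal_zero, zero_mul]
    rw [this, map_zero]
  have h2 : ‖R.Φ F‖ ≤ ‖R.Φ F‖ * (1 / 2) := by
    calc ‖R.Φ F‖ = ‖R.Φ F * (1 - R.Φ f)‖ := by rw [mul_sub, mul_one, hFf, sub_zero]
      _ ≤ ‖R.Φ F‖ * ‖1 - R.Φ f‖ := norm_mul_le _ _
      _ ≤ ‖R.Φ F‖ * (1 / 2) := by gcongr
  have h3 : ‖R.Φ F‖ ≤ 0 := by linarith
  have h4 := (R.norm_le F (T.E.unit x)).trans h3
  have h5 : (F : S → ℂ) (T.E.unit x) = 1 := by
    change T.unitFun (fun y => ((h y : ℝ) : ℂ)) (T.E.unit x) = 1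
    rw [T.unitFun_unit]
    have : h x = 1 := h1 rfl
    rw [this, Complex.ofReal_one]
  rw [h5, norm_one] at h4
  linarith

end compact

/-! ### The embedding into bounded continuous functions -/

/-- the linear map on compactly supported functions -/
noncomputable def jlin : T.CcS →ₗ[ℂ] (S →ᵇ ℂ) where
  toFun := fun f => BoundedContinuousFunction.ofNormedAddCommGroup (f : S → ℂ) f.2.1 ‖R.Φ f‖
    (R.norm_le f)
  map_add' := fun f g => by ext σ; rfl
  map_smul' := fun c f => by ext σ; rfl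

lemma norm_jlin (f : T.CcS) : ‖R.jlin f‖ ≤ 1 * ‖R.Φ f‖ := by
  rw [one_mul, BoundedContinuousFunction.norm_le (norm_nonneg _)]
  exact R.norm_le f

/-- the extension of the inclusion of the compactly supported functions -/
noncomputable def J : A →L[ℂ] (S →ᵇ ℂ) := R.jlin.extendOfNorm R.Φ

lemma J_Φ (f : T.CcS) (σ : S) : R.J (R.Φ f) σ = (f : S → ℂ) σ := by
  rw [J, LinearMap.extendOfNorm_eq R.hdense ⟨1, R.norm_jlin⟩]
  rfl

lemma norm_J_le (a : A) : ‖R.J a‖ ≤ ‖a‖ := by
  have := LinearMap.norm_extendOfNorm_apply_le R.hdense 1 R.norm_jlin a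
  rwa [one_mul] at this

lemma continuous_J_apply (σ : S) : Continuous (fun a => R.J a σ) :=
  (continuous_eval_const σ).comp R.J.continuous

lemma formBound_J (a : A) : T.FormBound (R.J a) ‖a‖ := by
  intro x F F' η ξ
  refine R.induct ?_ ?_ a
  · apply isClosed_le
    · have : Continuous (fun a => T.form (R.J a) F F' η ξ) := by
        unfold Twist.form
        apply continuous_finsetSum
        intro α _
        apply continuous_finsetSum
        intro β _
        exact continuous_const.mul ((R.continuous_J_apply _).mul continuous_const)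
      exact this.norm.pow 2
    · fun_prop
  · intro f
    have h1 : (R.J (R.Φ f) : S → ℂ) = f := funext (R.J_Φ f)
    rw [h1]
    exact T.formBound_of_reducedNormLE f.2.2.2 (norm_nonneg _)
      ((R.hnorm f _ (norm_nonneg _)).1 le_rfl) x F F' η ξ

theorem eq_zero_of_J [T2Space G] [LocallyCompactSpace G] {a : A} (h : R.J a = 0) : a = 0 := by
  rw [← norm_eq_zero]
  apply le_antisymm _ (norm_nonneg _)
  apply le_of_forall_pos_le_add
  intro ε hε
  obtain ⟨f, hf⟩ := R.hdense.exists_dist_lt a (show (0 : ℝ) < ε / 2 by positivity)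
  rw [dist_comm, dist_eq_norm] at hf
  have h1 := R.formBound_J (R.Φ f - a)
  have h2 : (R.J (R.Φ f - a) : S → ℂ) = f := by
    ext σ
    rw [map_sub, h, sub_zero, R.J_Φ]
  rw [h2] at h1
  have h3 : ‖R.Φ f‖ ≤ ‖R.Φ f - a‖ := by
    rw [R.hnorm f _ (norm_nonneg _)]
    exact T.reducedNormLE_of_formBound R.hG f.2 (norm_nonneg _) h1
  calc ‖a‖ = ‖R.Φ f - (R.Φ f - a)‖ := by rw [sub_sub_cancel]
    _ ≤ ‖R.Φ f‖ + ‖R.Φ f - a‖ := norm_sub_le _ _
    _ ≤ 0 + ε := by linarith

section Diag

variable [T2Space G] [LocallyCompactSpace G] [T2Space S] [CompactSpace X]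

/-- the function on the twist of a function on the units -/
noncomputable def uf (h : C(X, ℂ)) : T.CcS :=
  ⟨T.unitFun h, T.unitFun_mem R.hG h.continuous (HasCompactSupport.of_compactSpace _)⟩

lemma uf_mul (h : C(X, ℂ)) (f : T.CcS) {g : T.CcS} (hg : ∀ σ, (g : S → ℂ) σ = h (T.E.r σ) * (f : S → ℂ) σ) :
    R.Φ (R.uf h) * R.Φ f = R.Φ g := by
  rw [R.mul_eq]
  congr 1
  apply Subtype.ext
  change T.conv (T.unitFun h) f = g
  rw [T.conv_unitFun _ f.2.2.2]
  ext σ
  exact (hg σ).symm

/-- the inclusion of the diagonal -/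
noncomputable def ιd : C(X, ℂ) →⋆ₐ[ℂ] A where
  toFun := fun h => R.Φ (R.uf h)
  map_one' := by
    have h1 : ∀ a, R.Φ (R.uf 1) * a = a := by
      intro a
      refine R.induct ?_ ?_ a
      · exact isClosed_eq (by fun_prop) (by fun_prop)
      · intro f
        apply R.uf_mul
        intro σ
        rw [ContinuousMap.one_apply, one_mul]
    have := h1 1
    rwa [mul_one] at this
  map_mul' := by
    intro h k
    symm
    apply R.uf_mul
    intro σ
    change T.unitFun (h * k) σ = h (T.E.r σ) * T.unitFun k σ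
    by_cases hσ : σ ∈ Set.range T.i
    · obtain ⟨⟨x, z⟩, rfl⟩ := hσ
      rw [T.unitFun_i, T.unitFun_i, T.r_i, Pi.mul_apply]
      ring
    · rw [T.mem_range_i_iff] at hσ
      rw [T.unitFun_out _ hσ, T.unitFun_out _ hσ, mul_zero]
  map_zero' := by
    have : R.uf 0 = 0 := by
      apply Subtype.ext
      have := T.smul_unitFun 0 (0 : X → ℂ)
      rw [zero_smul, zero_smul] at this
      exact this
    rw [this, map_zero]
  map_add' := by
    intro h k
    rw [← map_add]
    congr 1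
    apply Subtype.ext
    exact T.add_unitFun h k
  commutes' := by
    intro c
    have h1 : ∀ a, R.Φ (R.uf (algebraMap ℂ C(X, ℂ) c)) * a = c • a := by
      intro a
      refine R.induct ?_ ?_ a
      · exact isClosed_eq (by fun_prop) (by fun_prop)
      · intro f
        rw [← map_smul]
        apply R.uf_mul
        intro σ
        rw [Algebra.algebraMap_eq_smul_one]
        change c * (f : S → ℂ) σ = (c * 1) * (f : S → ℂ) σ
        rw [mul_one]
    have := h1 1
    rwa [mul_one, ← Algebra.algebraMap_eq_smul_one] at this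
  map_star' := by
    intro h
    rw [R.star_eq]
    congr 1
    apply Subtype.ext
    exact (T.invol_unitFun h).symm

lemma ιd_apply (h : C(X, ℂ)) : R.ιd h = R.Φ (R.uf h) := rfl

/-- the conditional expectation -/
noncomputable def Ed : A →L[ℂ] C(X, ℂ) :=
  LinearMap.mkContinuous
    { toFun := fun a => ⟨fun x => R.J a (T.E.unit x), (R.J a).continuous.comp T.E.continuous_unit⟩
      map_add' := by intro a b; ext x; simp
      map_smul' := by intro c a; ext x; simp }
    1 (by
      intro a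
      rw [one_mul, ContinuousMap.norm_le _ (norm_nonneg _)]
      intro x
      exact ((R.J a).norm_coe_le_norm _).trans (R.norm_J_le a))

lemma Ed_apply (a : A) (x : X) : R.Ed a x = R.J a (T.E.unit x) := rfl

lemma Ed_Φ (f : T.CcS) (x : X) : R.Ed (R.Φ f) x = (f : S → ℂ) (T.E.unit x) := R.J_Φ f _

lemma Ed_left (h : C(X, ℂ)) (a : A) : R.Ed (R.ιd h * a) = h * R.Ed a := by
  refine R.induct ?_ ?_ a
  · exact isClosed_eq (by fun_prop) (by fun_prop)
  · intro f
    ext x
    rw [ιd_apply, R.mul_eq, Ed_Φ, ContinuousMap.mul_apply, Ed_Φ]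
    change T.conv (T.unitFun h) f (T.E.unit x) = _
    rw [T.conv_unitFun _ f.2.2.2]
    simp only [T.E.r_unit]

lemma Ed_star (a : A) : R.Ed (star a) = star (R.Ed a) := by
  refine R.induct ?_ ?_ a
  · exact isClosed_eq (by fun_prop) (by fun_prop)
  · intro f
    ext x
    rw [R.star_eq, Ed_Φ, ContinuousMap.star_apply, Ed_Φ]
    change T.invol f (T.E.unit x) = _
    rw [Twist.invol, T.E.inv_unit]
    rfl

lemma Ed_right (h : C(X, ℂ)) (a : A) : R.Ed (a * R.ιd h) = R.Ed a * h := by
  have h1 : a * R.ιd h = star (R.ιd (star h) * star a) := by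
    rw [star_mul, star_star, map_star, star_star]
  rw [h1, Ed_star, Ed_left, Ed_star, star_mul, star_star, star_star]

lemma Ed_nonneg (a : A) (x : X) : 0 ≤ (R.Ed (star a * a) x).re ∧ (R.Ed (star a * a) x).im = 0 := by
  have hc : Continuous (fun a => R.Ed (star a * a) x) :=
    (continuous_eval_const x).comp (by fun_prop)
  refine R.induct ?_ ?_ a
  · exact (isClosed_le continuous_const (Complex.continuous_re.comp hc)).inter
      (isClosed_eq (Complex.continuous_im.comp hc) continuous_const)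
  · intro f
    obtain ⟨c, h1, h2, -⟩ := T.conv_invol_unit R.hG f.2 x
    rw [R.star_eq, R.mul_eq, Ed_Φ]
    change 0 ≤ (T.conv (T.invol f) f (T.E.unit x)).re ∧ (T.conv (T.invol f) f (T.E.unit x)).im = 0
    rw [h1]
    exact ⟨h2, Complex.ofReal_im c⟩

lemma norm_J_sq_le (a : A) (σ : S) : ‖R.J a σ‖ ^ 2 ≤ (R.Ed (star a * a) (T.E.s σ)).re := by
  have hc : Continuous (fun a => R.Ed (star a * a) (T.E.s σ)) :=
    (continuous_eval_const _).comp (by fun_prop)
  refine R.induct ?_ ?_ a
  · exact isClosed_le ((R.continuous_J_apply σ).norm.pow 2) (Complex.continuous_re.comp hc)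
  · intro f
    obtain ⟨c, h1, h2, h3⟩ := T.conv_invol_unit R.hG f.2 (T.E.s σ)
    rw [R.star_eq, R.mul_eq, Ed_Φ, J_Φ]
    change _ ≤ (T.conv (T.invol f) f (T.E.unit _)).re
    rw [h1]
    exact h3 σ rfl

lemma Ed_faithful (a : A) (h : R.Ed (star a * a) = 0) : a = 0 := by
  apply R.eq_zero_of_J
  ext σ
  have h1 := R.norm_J_sq_le a σ
  rw [h] at h1
  have h2 : ‖R.J a σ‖ ^ 2 ≤ 0 := h1
  have h3 : ‖R.J a σ‖ = 0 := by nlinarith [norm_nonneg (R.J a σ)]
  exact norm_eq_zero.1 h3

/-- the diagonal data -/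
noncomputable def diag [T2Space X] : DiagData A X where
  ι := R.ιd
  E := R.Ed
  N := {a | ∃ f : T.CcS, T.Bis (f : S → ℂ) ∧ R.Φ f = a}
  norm_E_le := by
    intro a
    rw [ContinuousMap.norm_le _ (norm_nonneg _)]
    intro x
    exact ((R.J a).norm_coe_le_norm _).trans (R.norm_J_le a)
  E_ι := by
    intro h
    ext x
    rw [ιd_apply, Ed_Φ]
    exact T.unitFun_unit h x
  E_left := R.Ed_left
  E_right := R.Ed_right
  E_nonneg := R.Ed_nonneg
  E_faithful := R.Ed_faithful
  N_dense := by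
    apply R.hdense.mono
    rintro _ ⟨f, rfl⟩
    obtain ⟨n, F, hF, hb⟩ := T.exists_decomp R.hG f
    rw [hF, map_sum]
    apply Submodule.sum_mem
    intro j _
    exact Submodule.subset_span ⟨F j, (hb j).bis, rfl⟩
  N_ι := fun h => ⟨R.uf h, T.bis_unitFun h, rfl⟩
  N_mul := by
    rintro _ _ ⟨f, hf, rfl⟩ ⟨g, hg, rfl⟩
    exact ⟨_, hf.conv hg, (R.mul_eq f g).symm⟩
  N_star := by
    rintro _ ⟨f, hf, rfl⟩
    exact ⟨_, hf.invol, (R.star_eq f).symm⟩
  N_star_mul := by
    rintro _ ⟨f, hf, rfl⟩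
    have hm := T.conv_mem R.hG (T.invol_mem f.2) f.2
    refine ⟨⟨fun x => T.conv (T.invol f) f (T.E.unit x), hm.1.comp T.E.continuous_unit⟩, ?_⟩
    rw [R.star_eq, R.mul_eq, ιd_apply]
    congr 1
    apply Subtype.ext
    exact hf.star_mul f.2.2.2
  N_E := by
    rintro _ ⟨f, hf, rfl⟩
    rw [ιd_apply, ιd_apply]
    apply R.uf_mul
    intro σ
    have h1 := congrFun (hf.mul_E f.2.2.2) σ
    have h2 : (R.uf (star (R.Ed (R.Φ f)) * R.Ed (R.Φ f)) : S → ℂ) =
        T.unitFun (fun x => conj ((f : S → ℂ) (T.E.unit x)) * (f : S → ℂ) (T.E.unit x)) := by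
      change T.unitFun _ = _
      congr 1
      ext x
      rw [ContinuousMap.mul_apply, ContinuousMap.star_apply, Ed_Φ]
      rfl
    rw [h2, ← h1, ContinuousMap.star_apply, Ed_Φ]
    rfl

end Diag

end Rlz

end Pool.Agent.H6.TG
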