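import Pool.Agent.H6.TG.Conv

/-!
# Functions supported on the unit space and functions supported on bisections
-/

set_option linter.unusedSectionVars false

open Topology Filter
open scoped ComplexConjugate ENNReal

namespace Pool.Agent.H6.TG

universe u v w

namespace Twist

variable {X : Type u} {G : Type v} {S : Type w} [TopologicalSpace X] [TopologicalSpace G]
  [TopologicalSpace S] {𝒢 : TopGroupoid X G} (T : Twist 𝒢 S)

/-- the function on the twist given by a function on the unit space -/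
noncomputable def unitFun (h : X → ℂ) : S → ℂ :=
  Function.extend T.i (fun q => conj (q.2 : ℂ) * h q.1) 0

lemma unitFun_i (h : X → ℂ) (x : X) (z : Circle) : T.unitFun h (T.i (x, z)) = conj (z : ℂ) * h x :=
  T.i_injective.extend_apply _ _ _

lemma unitFun_unit (h : X → ℂ) (x : X) : T.unitFun h (T.E.unit x) = h x := by
  rw [← i_one, unitFun_i, Circle.coe_one, map_one, one_mul]

lemma mem_range_i_iff (σ : S) : σ ∈ Set.range T.i ↔ T.p σ ∈ Set.range 𝒢.unit := by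
  rw [T.range_i]; rfl

lemma unitFun_out (h : X → ℂ) {σ : S} (hσ : T.p σ ∉ Set.range 𝒢.unit) : T.unitFun h σ = 0 := by
  rw [← mem_range_i_iff] at hσ
  rw [unitFun, Function.extend_apply']
  · rfl
  · exact hσ

lemma equivariant_unitFun (h : X → ℂ) : T.Equivariant (T.unitFun h) := by
  intro z σ
  by_cases hσ : σ ∈ Set.range T.i
  · obtain ⟨⟨x, w⟩, rfl⟩ := hσ
    rw [T.i_eq_act, ← act_mul, ← T.i_eq_act, ← T.i_eq_act, unitFun_i, unitFun_i, Circle.coe_mul,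
      map_mul, mul_assoc]
  · rw [mem_range_i_iff] at hσ
    rw [T.unitFun_out h hσ, T.unitFun_out, mul_zero]
    rwa [p_act]

lemma isOpenEmbedding_i (hG : 𝒢.IsEtale) : IsOpenEmbedding T.i :=
  ⟨T.isEmbedding_i, by
    rw [T.range_i]
    exact (𝒢.isOpen_range_unit hG).preimage T.continuous_p⟩

lemma continuous_unitFun [T2Space G] (hG : 𝒢.IsEtale) {h : X → ℂ} (hh : Continuous h) :
    Continuous (T.unitFun h) := by
  rw [continuous_iff_continuousAt]
  intro σ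
  by_cases hσ : σ ∈ Set.range T.i
  · obtain ⟨q, rfl⟩ := hσ
    rw [← (T.isOpenEmbedding_i hG).continuousAt_iff]
    have h1 : T.unitFun h ∘ T.i = fun q : X × Circle => conj (q.2 : ℂ) * h q.1 := by
      ext ⟨x, z⟩
      exact T.unitFun_i h x z
    rw [h1]
    apply Continuous.continuousAt
    exact (Complex.continuous_conj.comp (continuous_subtype_val.comp continuous_snd)).mul
      (hh.comp continuous_fst)
  · have h1 : IsOpen (Set.range T.i)ᶜ := by
      rw [T.range_i]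
      exact (𝒢.isClosed_range_unit.preimage T.continuous_p).isOpen_compl
    apply ContinuousAt.congr (f := fun _ => (0 : ℂ)) continuousAt_const
    filter_upwards [h1.mem_nhds hσ] with τ hτ
    rw [T.unitFun_out]
    rwa [← mem_range_i_iff]

lemma unitFun_mem [T2Space G] [T2Space S] (hG : 𝒢.IsEtale) {h : X → ℂ} (hh : Continuous h)
    (hc : HasCompactSupport h) : T.unitFun h ∈ T.CcS := by
  refine ⟨T.continuous_unitFun hG hh, ?_, T.equivariant_unitFun h⟩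
  have hK : IsCompact (T.i '' (tsupport h ×ˢ (Set.univ : Set Circle))) :=
    (hc.prod isCompact_univ).image T.isEmbedding_i.continuous
  apply HasCompactSupport.intro hK
  intro σ hσ
  by_cases hσ' : σ ∈ Set.range T.i
  · obtain ⟨⟨x, z⟩, rfl⟩ := hσ'
    rw [unitFun_i]
    have : h x = 0 := by
      by_contra h0
      exact hσ ⟨(x, z), ⟨subset_tsupport _ h0, Set.mem_univ _⟩, rfl⟩
    rw [this, mul_zero]
  · rw [T.unitFun_out]
    rwa [← mem_range_i_iff]

lemma eq_unitFun {f : S → ℂ} (hf : T.Equivariant f) (h0 : ∀ σ, T.p σ ∉ Set.range 𝒢.unit → f σ = 0) :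
    f = T.unitFun (fun x => f (T.E.unit x)) := by
  ext σ
  by_cases hσ : σ ∈ Set.range T.i
  · obtain ⟨⟨x, z⟩, rfl⟩ := hσ
    rw [unitFun_i, T.i_eq_act, hf]
  · rw [mem_range_i_iff] at hσ
    rw [h0 σ hσ, T.unitFun_out _ hσ]

lemma conv_unitFun (h : X → ℂ) {f : S → ℂ} (hf : T.Equivariant f) :
    T.conv (T.unitFun h) f = fun σ => h (T.E.r σ) * f σ := by
  ext σ
  rw [conv_eq_of_unique (T.equivariant_unitFun h) hf (τ := T.E.unit (T.E.r σ))
    (by rw [T.E.r_unit]), unitFun_unit, T.E.inv_unit, T.E.unit_mul]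
  intro τ' hr hne
  have : T.unitFun h τ' = 0 := by
    by_contra h0
    by_cases hσ' : T.p τ' ∈ Set.range 𝒢.unit
    · obtain ⟨x, hx⟩ := hσ'
      apply hne
      have h2 : 𝒢.r (T.p τ') = x := by rw [← hx, 𝒢.r_unit]
      rw [T.r_p, hr] at h2
      rw [p_unit, ← hx, h2]
    · exact h0 (T.unitFun_out h hσ')
  rw [this, zero_mul]

lemma invol_unitFun (h : X → ℂ) : T.invol (T.unitFun h) = T.unitFun (fun x => conj (h x)) := by
  rw [T.eq_unitFun (f := T.invol (T.unitFun h)) (T.equivariant_unitFun h).invol]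
  · congr 1
    ext x
    rw [invol, T.E.inv_unit, unitFun_unit]
  · intro σ hσ
    rw [invol, T.unitFun_out, map_zero]
    rintro ⟨x, hx⟩
    apply hσ
    rw [T.p_inv] at hx
    refine ⟨x, ?_⟩
    rw [← 𝒢.inv_inv (T.p σ), ← hx, 𝒢.inv_unit]

lemma add_unitFun (h k : X → ℂ) : T.unitFun (h + k) = T.unitFun h + T.unitFun k := by
  ext σ
  by_cases hσ : σ ∈ Set.range T.i
  · obtain ⟨⟨x, z⟩, rfl⟩ := hσ
    rw [Pi.add_apply, unitFun_i, unitFun_i, unitFun_i, Pi.add_apply, mul_add]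
  · rw [mem_range_i_iff] at hσ
    rw [Pi.add_apply, T.unitFun_out _ hσ, T.unitFun_out _ hσ, T.unitFun_out _ hσ, add_zero]

lemma smul_unitFun (c : ℂ) (h : X → ℂ) : T.unitFun (c • h) = c • T.unitFun h := by
  ext σ
  by_cases hσ : σ ∈ Set.range T.i
  · obtain ⟨⟨x, z⟩, rfl⟩ := hσ
    rw [Pi.smul_apply, unitFun_i, unitFun_i, Pi.smul_apply, smul_eq_mul, smul_eq_mul]
    ring
  · rw [mem_range_i_iff] at hσ
    rw [Pi.smul_apply, T.unitFun_out _ hσ, T.unitFun_out _ hσ, smul_zero]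

/-! ### Bisections -/

/-- the support lies over a set on which range and source are injective -/
def Bis (f : S → ℂ) : Prop := ∀ σ τ, f σ ≠ 0 → f τ ≠ 0 →
  (T.E.r σ = T.E.r τ ∨ T.E.s σ = T.E.s τ) → T.p σ = T.p τ

variable {T}

lemma OnBis.bis {f : S → ℂ} (h : T.OnBis f) : T.Bis f := by
  obtain ⟨U, -, hs, hr, hU⟩ := h
  intro σ τ h1 h2 h3
  have h1' := hU _ (subset_tsupport _ h1)
  have h2' := hU _ (subset_tsupport _ h2)
  rcases h3 with h3 | h3
  · exact hr h1' h2' (by rw [T.r_p, T.r_p, h3])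
  · exact hs h1' h2' (by rw [T.s_p, T.s_p, h3])

lemma bis_unitFun (h : X → ℂ) : T.Bis (T.unitFun h) := by
  intro σ τ h1 h2 h3
  have h4 : ∀ σ, T.unitFun h σ ≠ 0 → ∃ x, T.p σ = 𝒢.unit x ∧ T.E.r σ = x ∧ T.E.s σ = x := by
    intro σ hσ
    by_cases hσ' : T.p σ ∈ Set.range 𝒢.unit
    · obtain ⟨x, hx⟩ := hσ'
      exact ⟨x, hx.symm, by rw [← T.r_p, ← hx, 𝒢.r_unit], by rw [← T.s_p, ← hx, 𝒢.s_unit]⟩
    · exact absurd (T.unitFun_out h hσ') hσ
  obtain ⟨x, hx1, hx2, hx3⟩ := h4 σ h1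
  obtain ⟨y, hy1, hy2, hy3⟩ := h4 τ h2
  rw [hx1, hy1]
  rcases h3 with h3 | h3
  · rw [← hx2, ← hy2, h3]
  · rw [← hx3, ← hy3, h3]

lemma Bis.conv {f g : S → ℂ} (hf : T.Bis f) (hg : T.Bis g) : T.Bis (T.conv f g) := by
  intro σ σ' h1 h2 h3
  obtain ⟨τ, hr, hτ, hg1⟩ := exists_of_conv_ne_zero h1
  obtain ⟨τ', hr', hτ', hg1'⟩ := exists_of_conv_ne_zero h2
  have e1 : T.E.r (T.E.mul (T.E.inv τ) σ) = T.E.s τ := by
    rw [T.E.r_mul _ _ (by rw [T.E.s_inv, hr]), T.E.r_inv]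
  have e1' : T.E.r (T.E.mul (T.E.inv τ') σ') = T.E.s τ' := by
    rw [T.E.r_mul _ _ (by rw [T.E.s_inv, hr']), T.E.r_inv]
  have e2 : T.E.s (T.E.mul (T.E.inv τ) σ) = T.E.s σ := by
    rw [T.E.s_mul _ _ (by rw [T.E.s_inv, hr])]
  have e2' : T.E.s (T.E.mul (T.E.inv τ') σ') = T.E.s σ' := by
    rw [T.E.s_mul _ _ (by rw [T.E.s_inv, hr'])]
  have key : T.p τ = T.p τ' ∧ T.p (T.E.mul (T.E.inv τ) σ) = T.p (T.E.mul (T.E.inv τ') σ') := by
    rcases h3 with h3 | h3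
    · have h4 := hf τ τ' hτ hτ' (Or.inl (by rw [hr, hr', h3]))
      refine ⟨h4, hg _ _ hg1 hg1' (Or.inl ?_)⟩
      rw [e1, e1', ← T.s_p, h4, T.s_p]
    · have h4 := hg _ _ hg1 hg1' (Or.inr (by rw [e2, e2', h3]))
      refine ⟨hf τ τ' hτ hτ' (Or.inr ?_), h4⟩
      rw [← e1, ← e1', ← T.r_p, h4, T.r_p]
  have e3 : T.p σ = 𝒢.mul (T.p τ) (T.p (T.E.mul (T.E.inv τ) σ)) := by
    rw [← T.p_mul _ _ e1.symm, T.E.mul_inv_cancel_left hr]
  have e3' : T.p σ' = 𝒢.mul (T.p τ') (T.p (T.E.mul (T.E.inv τ') σ')) := by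
    rw [← T.p_mul _ _ e1'.symm, T.E.mul_inv_cancel_left hr']
  rw [e3, e3', key.1, key.2]

lemma Bis.invol {f : S → ℂ} (hf : T.Bis f) : T.Bis (T.invol f) := by
  intro σ τ h1 h2 h3
  have h1' : f (T.E.inv σ) ≠ 0 := by
    intro h; apply h1; rw [Twist.invol, h, map_zero]
  have h2' : f (T.E.inv τ) ≠ 0 := by
    intro h; apply h2; rw [Twist.invol, h, map_zero]
  have h4 := hf _ _ h1' h2' (by
    rw [T.E.r_inv, T.E.r_inv, T.E.s_inv, T.E.s_inv]
    exact h3.symm)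
  rw [T.p_inv, T.p_inv] at h4
  rw [← 𝒢.inv_inv (T.p σ), h4, 𝒢.inv_inv]

lemma Bis.star_mul {f : S → ℂ} (hf : T.Bis f) (he : T.Equivariant f) :
    T.conv (T.invol f) f = T.unitFun (fun x => T.conv (T.invol f) f (T.E.unit x)) := by
  apply T.eq_unitFun (Equivariant.conv he)
  intro σ hσ
  by_contra h0
  obtain ⟨τ, hr, hτ, hg1⟩ := exists_of_conv_ne_zero h0
  have h1' : f (T.E.inv τ) ≠ 0 := by
    intro h; apply hτ; rw [Twist.invol, h, map_zero]
  have h2 := hf _ _ h1' hg1 (Or.inl (by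
    rw [T.E.r_mul _ _ (by rw [T.E.s_inv, hr])]))
  apply hσ
  rw [T.p_mul _ _ (by rw [T.E.s_inv, hr])] at h2
  have h3 : 𝒢.mul (T.p (T.E.inv τ)) (𝒢.unit (𝒢.s (T.p (T.E.inv τ)))) =
      𝒢.mul (T.p (T.E.inv τ)) (T.p σ) := by
    rw [𝒢.mul_unit, ← h2]
  have h4 := 𝒢.mul_left_cancel (by rw [𝒢.r_unit]) (by rw [T.s_p, T.r_p, T.E.s_inv, hr]) h3
  exact ⟨_, h4⟩

lemma Bis.mul_E {f : S → ℂ} (hf : T.Bis f) (he : T.Equivariant f) :
    (fun σ => conj (f (T.E.unit (T.E.r σ))) * f σ) =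
      T.unitFun (fun x => conj (f (T.E.unit x)) * f (T.E.unit x)) := by
  rw [T.eq_unitFun (f := fun σ => conj (f (T.E.unit (T.E.r σ))) * f σ)]
  · congr 1
    ext x
    rw [T.E.r_unit]
  · intro z σ
    simp only [r_act]
    rw [he]
    ring
  · intro σ hσ
    by_contra h0
    have h1 := hf (T.E.unit (T.E.r σ)) σ (by
      intro h; apply h0; simp only [h, map_zero, zero_mul]) (right_ne_zero_of_mul h0)
      (Or.inl (by rw [T.E.r_unit]))
    rw [p_unit] at h1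
    exact hσ ⟨_, h1⟩

/-! ### The norm squared of the columns -/

lemma conv_invol_unit [T2Space G] [LocallyCompactSpace G] (hG : 𝒢.IsEtale) {f : S → ℂ}
    (hf : f ∈ T.CcS) (y : X) : ∃ c : ℝ, T.conv (T.invol f) f (T.E.unit y) = c ∧ 0 ≤ c ∧
      ∀ σ, T.E.s σ = y → ‖f σ‖ ^ 2 ≤ c := by
  let a : {γ : G // 𝒢.r γ = T.E.r (T.E.unit y)} → ℝ := fun γ => ‖f (T.E.inv (T.lift γ))‖ ^ 2
  have hfin : (Function.support a).Finite := by
    apply (T.finite_of_mem hG (T.invol_mem hf) (T.E.r (T.E.unit y))).subset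
    intro γ hγ h0
    apply hγ
    rw [Twist.invol, map_eq_zero] at h0
    simp only [a, h0, norm_zero]
    norm_num
  have ha : ∀ γ, 0 ≤ a γ := fun γ => by positivity
  refine ⟨∑ᶠ γ, a γ, ?_, finsum_nonneg ha, ?_⟩
  · rw [Twist.conv]
    have h1 : ∀ γ : {γ : G // 𝒢.r γ = T.E.r (T.E.unit y)},
        T.invol f (T.lift γ) * f (T.E.mul (T.E.inv (T.lift γ)) (T.E.unit y)) = ((a γ : ℝ) : ℂ) := by
      intro γ
      have h2 : T.E.mul (T.E.inv (T.lift γ)) (T.E.unit y) = T.E.inv (T.lift γ) := by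
        have h3 := T.E.mul_unit (T.E.inv (T.lift γ))
        rw [T.E.s_inv, r_lift, γ.2] at h3
        exact (congrArg (fun z => T.E.mul (T.E.inv (T.lift γ.1)) (T.E.unit z))
          (T.E.r_unit y)).symm.trans h3
      rw [h2, Twist.invol, Complex.conj_mul']
      simp only [a]
      push_cast
      rfl
    rw [finsum_congr h1]
    have h4 := (Complex.ofRealHom.toAddMonoidHom).map_finsum hfin
    exact h4.symm
  · intro σ hσ
    have hr : 𝒢.r (𝒢.inv (T.p σ)) = T.E.r (T.E.unit y) := by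
      rw [𝒢.r_inv, T.s_p, hσ, T.E.r_unit]
    have h1 := single_le_finsum (⟨𝒢.inv (T.p σ), hr⟩ : {γ : G // 𝒢.r γ = T.E.r (T.E.unit y)})
      hfin ha
    refine le_trans (le_of_eq ?_) h1
    simp only [a]
    congr 1
    apply hf.2.2.norm_eq
    rw [T.p_inv, p_lift, 𝒢.inv_inv]

end Twist

end Pool.Agent.H6.TG
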