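import Mathlib

/-!
# Weighted composition operators on `ℓ²`
-/

set_option linter.unusedSectionVars false

open ContinuousLinearMap InnerProductSpace Topology Filter
open scoped ComplexConjugate Classical InnerProductSpace ENNReal lp

namespace Pool.Agent.H6.TG

/-- the Hilbert space `ℓ²(I)` -/
abbrev L2 (I : Type) : Type := lp (fun _ : I => ℂ) 2

variable {I J : Type}

lemma sum_sq_le (f : L2 I) (s : Finset I) : ∑ i ∈ s, ‖f i‖ ^ 2 ≤ ‖f‖ ^ 2 := by
  have := lp.sum_rpow_le_norm_rpow (p := 2) (by norm_num) f s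
  simpa using this

lemma norm_le_of_sum_sq {f : L2 I} {C : ℝ} (hC : 0 ≤ C) (h : ∀ s : Finset I, ∑ i ∈ s, ‖f i‖ ^ 2 ≤ C ^ 2) :
    ‖f‖ ≤ C := by
  apply lp.norm_le_of_forall_sum_le (p := 2) (by norm_num) hC
  intro s
  simpa using h s

lemma norm_sq_eq (f : L2 I) : HasSum (fun i => ‖f i‖ ^ 2) (‖f‖ ^ 2) := by
  have := lp.hasSum_norm (p := 2) (by norm_num) f
  simpa using this

lemma wc_sum_le (τ : J → I) (c : J → ℂ) (C : ℝ) (hb : ∀ j, ‖c j‖ ≤ C)
    (hinj : ∀ j j', c j ≠ 0 → c j' ≠ 0 → τ j = τ j' → j = j') (f : L2 I) (s : Finset J) :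
    ∑ j ∈ s, ‖c j * f (τ j)‖ ^ 2 ≤ (C * ‖f‖) ^ 2 := by
  have h1 : ∑ j ∈ s, ‖c j * f (τ j)‖ ^ 2 = ∑ j ∈ s with c j ≠ 0, ‖c j * f (τ j)‖ ^ 2 := by
    rw [Finset.sum_filter]
    apply Finset.sum_congr rfl
    intro j _
    split_ifs with h
    · rfl
    · push Not at h
      rw [h]; simp
  rw [h1]
  calc ∑ j ∈ s with c j ≠ 0, ‖c j * f (τ j)‖ ^ 2
      ≤ ∑ j ∈ s with c j ≠ 0, C ^ 2 * ‖f (τ j)‖ ^ 2 := by
        apply Finset.sum_le_sum
        intro j _
        rw [norm_mul, mul_pow]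
        gcongr
        exact hb j
    _ = C ^ 2 * ∑ i ∈ (s.filter (fun j => c j ≠ 0)).image τ, ‖f i‖ ^ 2 := by
        rw [← Finset.mul_sum, Finset.sum_image]
        intro j hj j' hj' h
        simp only [Finset.coe_filter, Set.mem_ofPred_eq] at hj hj'
        exact hinj j j' hj.2 hj'.2 h
    _ ≤ C ^ 2 * ‖f‖ ^ 2 := by
        gcongr
        exact sum_sq_le f _
    _ = (C * ‖f‖) ^ 2 := by ring

/-- the weighted composition operator `f ↦ (j ↦ c j * f (τ j))` -/
noncomputable def wc (τ : J → I) (c : J → ℂ) (C : ℝ) (hb : ∀ j, ‖c j‖ ≤ C)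
    (hinj : ∀ j j', c j ≠ 0 → c j' ≠ 0 → τ j = τ j' → j = j') : L2 I →L[ℂ] L2 J :=
  LinearMap.mkContinuous
    { toFun := fun f => ⟨fun j => c j * f (τ j), memℓp_gen' (C := (C * ‖f‖) ^ 2) (by
        intro s
        simpa using wc_sum_le τ c C hb hinj f s)⟩
      map_add' := by
        intro f g
        ext j
        simp [mul_add]
      map_smul' := by
        intro a f
        ext j
        simp
        ring }
    |C| (by
      intro f
      apply norm_le_of_sum_sq (by positivity)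
      intro s
      have := wc_sum_le τ c C hb hinj f s
      rwa [mul_pow, sq_abs, ← mul_pow])

@[simp] lemma wc_apply (τ : J → I) (c : J → ℂ) (C : ℝ) (hb : ∀ j, ‖c j‖ ≤ C)
    (hinj : ∀ j j', c j ≠ 0 → c j' ≠ 0 → τ j = τ j' → j = j') (f : L2 I) (j : J) :
    wc τ c C hb hinj f j = c j * f (τ j) := rfl

/-- basis vectors -/
noncomputable def e (i : I) : L2 I := lp.single 2 i (1 : ℂ)

lemma e_apply (i j : I) : e i j = if j = i then 1 else 0 := by
  rw [e]
  by_cases h : j = i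
  · subst h; simp
  · rw [if_neg h, lp.single_apply_ne _ _ _ h]

lemma norm_e (i : I) : ‖e i‖ = 1 := by
  rw [e, lp.norm_single (by norm_num)]; simp

lemma inner_e_left (i : I) (f : L2 I) : ⟪e i, f⟫_ℂ = f i := by
  rw [e, lp.inner_single_left]; simp

lemma inner_e_right (i : I) (f : L2 I) : ⟪f, e i⟫_ℂ = conj (f i) := by
  rw [← inner_conj_symm, inner_e_left]

lemma adjoint_coord (T : L2 I →L[ℂ] L2 J) (g : L2 J) (i : I) : adjoint T g i = ⟪T (e i), g⟫_ℂ := by
  rw [← inner_e_left, adjoint_inner_right]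

lemma coord_tendsto (f : L2 I) {ι : Type*} {l : Filter ι} {i : ι → I} (hi : Tendsto i l cofinite) :
    Tendsto (fun n => f (i n)) l (𝓝 0) := by
  have h1 := (norm_sq_eq f).summable.tendsto_cofinite_zero
  have h2 := h1.comp hi
  have h3 : Tendsto (fun n => ‖f (i n)‖) l (𝓝 0) := by
    have h4 := (Real.continuous_sqrt.tendsto 0).comp h2
    rw [Real.sqrt_zero] at h4
    refine h4.congr (fun n => ?_)
    simp only [Function.comp]
    exact Real.sqrt_sq (norm_nonneg _)
  exact tendsto_zero_iff_norm_tendsto_zero.2 h3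

end Pool.Agent.H6.TG
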